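import Pool.Agent.N597.QP.Rec
set_option autoImplicit false

/-!
# A pivoting strategy whose costs are additive in the logarithm of the number of types

The goal on a face `E` is to reach an optimal vertex of this face. If for every type some improving
edge enters a facet of `E` which contains an optimal vertex of `E`, then the strategy takes the edge
for which the entered facet is right for the largest number of types, and solves this facet
recursively, with all types which are consistent with the observations. Either the optimal vertex of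
the facet is optimal on `E`, or all the types for which the facet was right are refuted.
-/

namespace Pool.Agent.J4H23.Box

open Finset Pool.Agent.N597.QP Pool.Agent.N597.QP.Str

variable {R Ω : Type} [DecidableEq R] {n : ℕ} (M : Model R Ω n)

/-- the vertex `B` is optimal on the face `E` -/
def Opt (ω : Ω) (E B : Finset R) : Prop := M.V ω B ∧ E ⊆ B ∧ (M.inst ω).S B ⊆ E

/-- the facet `k` of the face `E` contains an optimal vertex of `E` -/
def OnOpt (ω : Ω) (E : Finset R) (k : R) : Prop := ∃ B, Opt M ω E B ∧ k ∈ B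

/-- at every vertex of a face which is not optimal there, the vertex lies on a facet with an optimal
vertex, or some improving edge enters such a facet -/
def Direct (ω : Ω) : Prop := ∀ E B, M.V ω B → E ⊆ B → ¬ (M.inst ω).S B ⊆ E →
  (∃ k ∈ B \ E, OnOpt M ω E k) ∨
  ∃ k ∈ (M.inst ω).S B \ E, ∃ k' ∈ (M.inst ω).N B k, k' ∉ B ∧ OnOpt M ω E k'

/-- an optimal vertex of a face has the largest value there -/
def OptMax : Prop := ∀ ω E B B', Opt M ω E B → M.V ω B' → E ⊆ B' → M.val ω B' ≤ M.val ω B

/-- the costs -/
noncomputable def cst (D d k x : ℕ) : ℝ :=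
  d + D * (d * (d + 1) / 2 : ℝ) * (Real.log k - Real.log x)

lemma cst_nonneg {D d k x : ℕ} (h : x ≤ k) : 0 ≤ cst D d k x := by
  unfold cst
  have h1 := log_mono h
  have h2 : 0 ≤ Real.log k - Real.log x := by linarith
  positivity

variable {M}

/-- Solving the facet `k'` and going on from there. -/
lemma phase (hmax : OptMax M) [Fintype R] {D d k₀ : ℕ} (hD : 1 ≤ D)
    {E : Finset R} {o : Obs R} {K : Finset (Ω × Finset R)} (hEd : E.card + (d + 1) = n)
    (hE : E ⊆ o.1) (hK : Cons M o K) (hp : ∀ p ∈ K, p.2 = univ ∧ Direct M p.1)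
    {k' : R} (hk' : k' ∈ o.1) (hk'E : k' ∉ E) (hk₀ : K.card ≤ k₀)
    (hdrop : ∀ K' ⊆ K, (∀ p ∈ K', ¬ OnOpt M p.1 E k') → D * K'.card + k₀ ≤ D * k₀)
    (ihd : ∀ (E' : Finset R) (o' : Obs R) (K' : Finset (Ω × Finset R)), E'.card + d = n →
      E' ⊆ o'.1 → Cons M o' K' → (∀ p ∈ K', p.2 = univ ∧ Direct M p.1) →
      ∃ t, W M E' o' K' t (cst D d K'.card))
    (hrec : ∀ (o' : Obs R) (K' : Finset (Ω × Finset R)), K'.Nonempty →
      D * K'.card + k₀ ≤ D * k₀ → E ⊆ o'.1 → Cons M o' K' →
      (∀ p ∈ K', p.2 = univ ∧ Direct M p.1) → ∃ t, W M E o' K' t (cst D (d + 1) K'.card)) :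
    ∃ t, W M E o K t fun x =>
      d + D * ((d + 1) * (d + 1 + 1) / 2 : ℝ) * (Real.log k₀ - Real.log x) := by
  classical
  have hEE : E ⊆ insert k' E := subset_insert _ _
  obtain ⟨t', ht'⟩ := ihd (insert k' E) o K (by rw [card_insert_of_notMem hk'E]; omega)
    (insert_subset hk' hE) hK hp
  have hs : Safe E t' o.2 := safe_mono hEE ht'.1
  refine comp_works M E o K t' _ hE hK hs fun l => ?_
  set o2 := lst o l with ho2
  set K2 := surv M K t' o.1 l with hK2
  have hK2K : K2 ⊆ K := surv_subset M _ _ _ _
  have hlen : ∀ ω, M.V ω o.1 → (M.inst ω).ob o.1 = o → play (M.inst ω) t' o.1 = l →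
      (l.length : ℝ) ≤ cst D d K.card K2.card := by
    intro ω hV ho hl
    have h1 := ht'.2.1 ω hV ho
    rw [hl] at h1
    exact h1
  have hlogK : Real.log K2.card ≤ Real.log K.card := log_mono (card_le_card hK2K)
  have hlogk : Real.log K.card ≤ Real.log k₀ := log_mono hk₀
  have hDR : (1 : ℝ) ≤ D := by exact_mod_cast hD
  have hd0 : (0 : ℝ) ≤ d := Nat.cast_nonneg d
  by_cases h : K2 = ∅ ∨ o2.2 ⊆ E
  · refine ⟨stop, fun _ => 0, stop_works M E o2 K2 _ (fun _ _ => le_rfl) fun hne => ?_,
      fun ω hV ho hl x hx => ?_⟩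
    · rcases h with h | h
      · rw [h] at hne; exact absurd hne not_nonempty_empty
      · exact h
    · have h1 := hlen ω hV ho hl
      have h2 : Real.log x ≤ Real.log K2.card := log_mono hx
      have h3 : (0 : ℝ) ≤ Real.log K.card - Real.log K2.card := by linarith
      have h4 : Real.log K.card - Real.log K2.card ≤ Real.log k₀ - Real.log x := by linarith
      have h5 : (D : ℝ) * (d * (d + 1) / 2 : ℝ) ≤ D * ((d + 1) * (d + 1 + 1) / 2 : ℝ) := by
        apply mul_le_mul_of_nonneg_left _ (by linarith)
        nlinarith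
      have h6 : (D : ℝ) * (d * (d + 1) / 2 : ℝ) * (Real.log K.card - Real.log K2.card) ≤
          D * ((d + 1) * (d + 1 + 1) / 2 : ℝ) * (Real.log k₀ - Real.log x) :=
        mul_le_mul h5 h4 h3 (by positivity)
      unfold cst at h1
      linarith
  · push Not at h
    obtain ⟨hne, hnot⟩ := h
    have hnone : ∀ p ∈ K2, ¬ OnOpt M p.1 E k' := by
      rintro p hp2 ⟨B', ⟨hV', hE', hS'⟩, hkB'⟩
      obtain ⟨a1, a2, a3⟩ := (mem_surv M).1 hp2
      obtain ⟨b1, b2, b3⟩ := hK p a1
      have h1 := ht'.2.2 p a1 (by rw [a2]; exact a3)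
      obtain ⟨c1, c2, c3⟩ := valid_lst M b1 (insert_subset hk' hE) b2 ht'.1
      rw [a2] at h1 c1 c2 c3
      rw [← ho2] at h1 c1 c2 c3
      obtain ⟨j, hj, hjE⟩ := not_subset.1 hnot
      have hjk : j = k' := by
        rcases mem_insert.1 (h1 hj) with h | h
        · exact h
        · exact absurd h hjE
      subst hjk
      have hS2 : (M.inst p.1).S o2.1 = o2.2 := congrArg Prod.snd c3
      have hj' : j ∈ (M.inst p.1).S o2.1 := by rw [hS2]; exact hj
      have d1 := M.next_V p.1 o2.1 j c1 hj'
      have d2 := M.next_sub p.1 o2.1 j c1 hj'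
      have d3 := M.next_lt p.1 o2.1 j c1 hj'
      have hEB3 : E ⊆ (M.inst p.1).N o2.1 j := fun i hi =>
        d2 (mem_erase.2 ⟨fun h => hjE (h ▸ hi), c2 (hEE hi)⟩)
      have e1 := hmax p.1 E B' _ ⟨hV', hE', hS'⟩ d1 hEB3
      have e2 := M.le_w p.1 E p.2 j B' hV' hE' (by rw [(hp p a1).1]; exact subset_univ _) hkB' hjE
      have e3 := M.w_le p.1 E p.2 j o2.1 c1 (hEE.trans c2)
        (by rw [(hp p a1).1]; exact subset_univ _) (c2 (mem_insert_self _ _)) hjE
        (by rw [hS2]; exact h1)
      exact absurd (d3.trans_le (e1.trans (e2.trans e3))) (lt_irrefl _)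
    have hdr := hdrop K2 hK2K hnone
    have hEo2 : E ⊆ o2.1 := by
      obtain ⟨p, hp2⟩ := hne
      exact Cons.face M hK hE hs l ⟨p, hp2⟩
    obtain ⟨g, hg⟩ := hrec o2 K2 (hne) hdr hEo2
      (Cons.surv M hK hE hs l) (fun p hp2 => hp p (hK2K hp2))
    refine ⟨g, _, hg, fun ω hV ho hl x hx => ?_⟩
    have h1 := hlen ω hV ho hl
    have hgap := log_gap hD (card_pos.2 (hne)) hdr
    unfold cst at h1 ⊢
    set L := Real.log k₀ - Real.log K2.card with hL
    have h3 : (D : ℝ) * (d * (d + 1) / 2 : ℝ) * (Real.log K.card - Real.log K2.card) ≤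
        D * (d * (d + 1) / 2 : ℝ) * L := by
      apply mul_le_mul_of_nonneg_left _ (by positivity)
      linarith
    have h4 : ((d : ℝ) + 1) * 1 ≤ (d + 1) * (D * L) :=
      mul_le_mul_of_nonneg_left hgap (by positivity)
    push_cast
    have h5 : (D : ℝ) * ((d + 1) * (d + 1 + 1) / 2 : ℝ) * (Real.log k₀ - Real.log x) =
        D * ((d + 1) * (d + 1 + 1) / 2 : ℝ) * L +
          D * ((d + 1) * (d + 1 + 1) / 2 : ℝ) * (Real.log K2.card - Real.log x) := by
      rw [hL]; ring
    have h6 : (D : ℝ) * ((d + 1) * (d + 1 + 1) / 2 : ℝ) * L =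
        D * (d * (d + 1) / 2 : ℝ) * L + (d + 1) * (D * L) := by ring
    rw [h5, h6]
    linarith

/-- **The strategy.** -/
theorem works (hmax : OptMax M) [Fintype R] :
    ∀ (d N : ℕ) (E : Finset R) (o : Obs R) (K : Finset (Ω × Finset R)), K.card ≤ N →
      E.card + d = n → E ⊆ o.1 → Cons M o K → (∀ p ∈ K, p.2 = univ ∧ Direct M p.1) →
      ∃ t, W M E o K t (cst (2 * Fintype.card R) d K.card) := by
  classical
  intro d
  induction d with
  | zero =>
    intro N E o K hN hEd hE hK hp
    refine ⟨stop, stop_works M E o K _ (fun x hx => cst_nonneg hx) ?_⟩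
    rintro ⟨p, hpK⟩
    obtain ⟨a1, a2, a3⟩ := hK p hpK
    have h1 := M.card_V p.1 o.1 a1
    have h2 : E = o.1 := eq_of_subset_of_card_le hE (by omega)
    have h3 := M.sub p.1 o.1 a1
    have h4 : (M.inst p.1).S o.1 = o.2 := congrArg Prod.snd a2
    rw [h4] at h3
    rw [h2]
    exact h3
  | succ d ihd =>
    intro N
    induction N with
    | zero =>
      intro E o K hN hEd hE hK hp
      refine ⟨stop, stop_works M E o K _ (fun x hx => cst_nonneg hx) ?_⟩
      rintro ⟨p, hpK⟩
      have : 0 < K.card := card_pos.2 ⟨p, hpK⟩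
      omega
    | succ N ihN =>
      intro E o K hN hEd hE hK hp
      by_cases hK0 : K = ∅ ∨ o.2 ⊆ E
      · refine ⟨stop, stop_works M E o K _ (fun x hx => cst_nonneg hx) fun hne => ?_⟩
        rcases hK0 with h | h
        · rw [h] at hne; exact absurd hne not_nonempty_empty
        · exact h
      push Not at hK0
      obtain ⟨hne, hnot⟩ := hK0
      have hKne : K.Nonempty := hne
      obtain ⟨p₀, hp₀⟩ := hKne
      obtain ⟨r₀, hr₀, -⟩ := not_subset.1 hnot
      set D := 2 * Fintype.card R with hDdef
      have hR : 0 < Fintype.card R := Fintype.card_pos_iff.2 ⟨r₀⟩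
      have hD : 1 ≤ D := by omega
      -- the classes
      let A₁ : R → Finset (Ω × Finset R) := fun k => K.filter fun p => OnOpt M p.1 E k
      let A₂ : R → Finset (Ω × Finset R) := fun k => K.filter fun p =>
        ∃ k' ∈ (M.inst p.1).N o.1 k, k' ∉ o.1 ∧ OnOpt M p.1 E k'
      have hcover : K ⊆ ((o.1 \ E).biUnion A₁) ∪ ((o.2 \ E).biUnion A₂) := by
        intro p hpK
        obtain ⟨a1, a2, a3⟩ := hK p hpK
        have hS : (M.inst p.1).S o.1 = o.2 := congrArg Prod.snd a2
        rcases (hp p hpK).2 E o.1 a1 hE (by rw [hS]; exact hnot) with ⟨k, hk, h⟩ | ⟨k, hk, h⟩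
        · exact mem_union_left _ (mem_biUnion.2 ⟨k, hk, mem_filter.2 ⟨hpK, h⟩⟩)
        · rw [hS] at hk
          exact mem_union_right _ (mem_biUnion.2 ⟨k, hk, mem_filter.2 ⟨hpK, h⟩⟩)
      have hbig : (∃ k ∈ o.1 \ E, K.card ≤ D * (A₁ k).card) ∨
          ∃ k ∈ o.2 \ E, K.card ≤ D * (A₂ k).card := by
        by_contra hcon
        push Not at hcon
        obtain ⟨h1, h2⟩ := hcon
        have hKpos : 0 < K.card := card_pos.2 ⟨p₀, hp₀⟩
        have e1 : ∀ X : Finset R, X.card ≤ Fintype.card R := fun X => card_le_univ X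
        have e2 : D * ((o.1 \ E).biUnion A₁).card ≤ (o.1 \ E).card * (K.card - 1) := by
          calc D * ((o.1 \ E).biUnion A₁).card ≤ D * ∑ k ∈ o.1 \ E, (A₁ k).card :=
                Nat.mul_le_mul_left _ card_biUnion_le
            _ = ∑ k ∈ o.1 \ E, D * (A₁ k).card := mul_sum _ _ _
            _ ≤ ∑ k ∈ o.1 \ E, (K.card - 1) := sum_le_sum fun k hk => by
                have := h1 k hk; omega
            _ = _ := by rw [sum_const, smul_eq_mul]
        have e3 : D * ((o.2 \ E).biUnion A₂).card ≤ (o.2 \ E).card * (K.card - 1) := by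
          calc D * ((o.2 \ E).biUnion A₂).card ≤ D * ∑ k ∈ o.2 \ E, (A₂ k).card :=
                Nat.mul_le_mul_left _ card_biUnion_le
            _ = ∑ k ∈ o.2 \ E, D * (A₂ k).card := mul_sum _ _ _
            _ ≤ ∑ k ∈ o.2 \ E, (K.card - 1) := sum_le_sum fun k hk => by
                have := h2 k hk; omega
            _ = _ := by rw [sum_const, smul_eq_mul]
        have e4 : D * K.card ≤ D * K.card - D := by
          calc D * K.card ≤ D * (((o.1 \ E).biUnion A₁).card + ((o.2 \ E).biUnion A₂).card) :=
                Nat.mul_le_mul_left _ ((card_le_card hcover).trans (card_union_le _ _))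
            _ ≤ (o.1 \ E).card * (K.card - 1) + (o.2 \ E).card * (K.card - 1) := by
                rw [mul_add]; exact Nat.add_le_add e2 e3
            _ ≤ Fintype.card R * (K.card - 1) + Fintype.card R * (K.card - 1) :=
                Nat.add_le_add (Nat.mul_le_mul_right _ (e1 _)) (Nat.mul_le_mul_right _ (e1 _))
            _ = D * (K.card - 1) := by rw [hDdef]; ring
            _ = D * K.card - D := by rw [Nat.mul_sub, mul_one]
        have e5 : D ≤ D * K.card := Nat.le_mul_of_pos_right _ hKpos
        omega
      have hrec : ∀ (o' : Obs R) (K' : Finset (Ω × Finset R)), K'.Nonempty →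
          D * K'.card + K.card ≤ D * K.card → E ⊆ o'.1 → Cons M o' K' →
          (∀ p ∈ K', p.2 = univ ∧ Direct M p.1) →
          ∃ t, W M E o' K' t (cst D (d + 1) K'.card) := by
        intro o' K' hne' hcard hE' hK' hp'
        have h1 : K'.card < K.card := by
          by_contra hcon
          push Not at hcon
          have h2 := Nat.mul_le_mul_left D hcon
          have h3 : 0 < K.card := card_pos.2 ⟨p₀, hp₀⟩
          omega
        exact ihN E o' K' (by omega) hEd hE' hK' hp'
      rcases hbig with ⟨k, hk, hcard⟩ | ⟨k, hk, hcard⟩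
      · -- no pivot
        obtain ⟨hk1, hk2⟩ := mem_sdiff.1 hk
        obtain ⟨t, ht⟩ := phase (D := D) (d := d) (k₀ := K.card) hmax hD hEd hE hK hp hk1 hk2
          le_rfl (fun K' hK' hnone => by
            have h1 : K'.card + (A₁ k).card ≤ K.card := by
              rw [← card_union_of_disjoint]
              · exact card_le_card (union_subset hK' (filter_subset _ _))
              · rw [disjoint_left]
                intro p hp1 hp2
                exact hnone p hp1 (mem_filter.1 hp2).2
            have h2 := Nat.mul_le_mul_left D h1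
            rw [mul_add] at h2
            omega) (fun E' o' K' h1 h2 h3 h4 => ihd K'.card E' o' K' le_rfl h1 h2 h3 h4) hrec
        refine ⟨t, ht.mono M fun x hx => ?_⟩
        unfold cst
        push_cast
        linarith
      · -- a pivot
        obtain ⟨hk1, hk2⟩ := mem_sdiff.1 hk
        have hs : Safe E (one k) o.2 := ⟨hk1, hk2, fun _ => trivial⟩
        refine comp_works M E o K (one k) _ hE hK hs fun l => ?_
        have hlen1 : ∀ ω, play (M.inst ω) (one k) o.1 = l → (l.length : ℝ) = 1 := by
          intro ω hl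
          rw [← hl]
          simp [one, play]
        by_cases hemp : surv M K (one k) o.1 l = ∅
        · refine ⟨stop, fun _ => 0, ?_, fun ω hV ho hl x hx => ?_⟩
          · rw [hemp]
            exact stop_works M E _ ∅ _ (fun _ _ => le_rfl) fun h => absurd h not_nonempty_empty
          · rw [hemp, card_empty, Nat.le_zero] at hx
            subst hx
            rw [hlen1 ω hl]
            unfold cst
            have h1 : 0 ≤ Real.log K.card := Real.log_natCast_nonneg _
            have h2 : (0:ℝ) ≤ d := Nat.cast_nonneg d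
            push_cast
            rw [Real.log_zero]
            have h3 : (0:ℝ) ≤ (D:ℝ) * (((d:ℝ) + 1) * (d + 1 + 1) / 2) * (Real.log K.card - 0) := by
              rw [sub_zero]; positivity
            linarith
        · obtain ⟨p₁, hp₁⟩ := nonempty_iff_ne_empty.2 hemp
          set K1 := surv M K (one k) o.1 l with hK1
          have hK1K : K1 ⊆ K := surv_subset M _ _ _ _
          set o1 := lst o l with ho1
          have hnext : ∀ p ∈ K1, (M.inst p.1).N o.1 k = o1.1 ∧ M.V p.1 o.1 ∧
              k ∈ (M.inst p.1).S o.1 := by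
            intro p hpK
            obtain ⟨a1, a2, -⟩ := (mem_surv M).1 hpK
            obtain ⟨b1, b2, -⟩ := hK p a1
            have hS : (M.inst p.1).S o.1 = o.2 := congrArg Prod.snd b2
            refine ⟨?_, b1, by rw [hS]; exact hk1⟩
            rw [ho1, ← a2]
            rfl
          obtain ⟨e1, e2, e3⟩ := hnext p₁ hp₁
          have hV1 := M.next_V p₁.1 o.1 k e2 e3
          have hsub1 := M.next_sub p₁.1 o.1 k e2 e3
          have hlt1 := M.next_lt p₁.1 o.1 k e2 e3
          rw [e1] at hV1 hsub1 hlt1
          have hc0 := M.card_V p₁.1 o.1 e2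
          have hc1 := M.card_V p₁.1 o1.1 hV1
          have hko : k ∈ o.1 := M.sub p₁.1 o.1 e2 e3
          -- the entering row
          obtain ⟨k', hk'1, hk'0⟩ : ∃ k' ∈ o1.1, k' ∉ o.1 := by
            by_contra hcon
            push Not at hcon
            have h1 : o1.1 = o.1 := eq_of_subset_of_card_le hcon (by omega)
            rw [h1] at hlt1
            exact lt_irrefl _ hlt1
          have hunique : ∀ j ∈ o1.1, j ∉ o.1 → j = k' := by
            intro j hj1 hj0
            by_contra hjk
            have h1 : insert j (insert k' (o.1.erase k)) ⊆ o1.1 :=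
              insert_subset hj1 (insert_subset hk'1 hsub1)
            have h2 := card_le_card h1
            rw [card_insert_of_notMem, card_insert_of_notMem, card_erase_of_mem hko] at h2
            · have : 0 < o.1.card := card_pos.2 ⟨k, hko⟩
              omega
            · intro h; exact hk'0 (mem_of_mem_erase h)
            · intro h
              rcases mem_insert.1 h with h | h
              · exact hjk h
              · exact hj0 (mem_of_mem_erase h)
          have hEo1 : E ⊆ o1.1 := fun i hi => hsub1 (mem_erase.2 ⟨fun h => hk2 (h ▸ hi), hE hi⟩)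
          have hk'E : k' ∉ E := fun h => hk'0 (hE h)
          obtain ⟨t, ht⟩ := phase (D := D) (d := d) (k₀ := K.card) hmax hD hEd hEo1
            (Cons.surv M hK hE hs l) (fun p hpK => hp p (hK1K hpK)) hk'1 hk'E
            (card_le_card hK1K) (fun K' hK' hnone => by
              have h1 : K'.card + (A₂ k).card ≤ K.card := by
                rw [← card_union_of_disjoint]
                · exact card_le_card (union_subset (hK'.trans hK1K) (filter_subset _ _))
                · rw [disjoint_left]
                  intro p hp1 hp2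
                  obtain ⟨j, hj1, hj0, hj⟩ := (mem_filter.1 hp2).2
                  rw [(hnext p (hK' hp1)).1] at hj1
                  rw [hunique j hj1 hj0] at hj
                  exact hnone p hp1 hj
              have h2 := Nat.mul_le_mul_left D h1
              rw [mul_add] at h2
              omega) (fun E' o' K' h1 h2 h3 h4 => ihd K'.card E' o' K' le_rfl h1 h2 h3 h4) hrec
          refine ⟨t, _, ht, fun ω hV ho hl x hx => ?_⟩
          rw [hlen1 ω hl]
          unfold cst
          push_cast
          linarith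

end Pool.Agent.J4H23.Box
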