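import Pool.Agent.N597.QP.Final
import Pool.Agent.J4H23.Box.Works
set_option autoImplicit false

/-!
# Linear programs on products of simplices
-/

namespace Pool.Agent.J4H23.Box

open Finset Matrix Pool.Agent.N597.QP Pool.Agent.N597.QP.Str

variable {m n : ℕ} {A : Fin m → Fin n → ℝ} {b : Fin m → ℝ} {c : Fin n → ℝ}

/-- If `q'` is better than the vertex `q`, then some improving row of `q` is not tight at `q'`. -/
lemma exch (hb : ∃ μ, ∀ p, Feas A b p → c ⬝ᵥ p ≤ μ) {q q' : Fin n → ℝ} (hq : IsVertex A b q)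
    (h : (tight A b q).card = n) (hq' : Feas A b q') (hlt : c ⬝ᵥ q < c ⬝ᵥ q') :
    ∃ k ∈ improv A b c q, k ∉ tight A b q' := by
  obtain ⟨y, hy⟩ := hq.exists_mult h c
  have e : c ⬝ᵥ (q' - q) = ∑ k, y k * (A (num (tight A b q) h k) ⬝ᵥ q' -
      b (num (tight A b q) h k)) := by
    rw [dot_mult hy]
    refine sum_congr rfl fun k _ => ?_
    rw [dotProduct_sub, mem_tight.1 (num_mem _ h k)]
  rw [dotProduct_sub] at e
  have hpos : 0 < ∑ k, y k * (A (num (tight A b q) h k) ⬝ᵥ q' -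
      b (num (tight A b q) h k)) := by rw [← e]; linarith
  obtain ⟨k, -, hk⟩ := exists_pos_of_sum_zero_of_exists_nonzero' hpos
  have h1 := hq' (num (tight A b q) h k)
  have hy0 : y k < 0 := by
    by_contra hcon
    push Not at hcon
    have := mul_nonneg hcon (sub_nonneg.2 h1)
    nlinarith
  refine ⟨_, neg_improv hq hb hy hy0, fun ht => ?_⟩
  rw [mem_tight.1 ht, sub_self, mul_zero] at hk
  exact lt_irrefl _ hk
where
  exists_pos_of_sum_zero_of_exists_nonzero' {ι : Type} [Fintype ι] {f : ι → ℝ}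
      (h : 0 < ∑ k, f k) : ∃ k, True ∧ 0 < f k := by
    by_contra hcon
    push Not at hcon
    exact absurd h (not_lt.2 (sum_nonpos fun k _ => hcon k trivial))

/-- The vertex at the other end of an edge is unique. -/
lemma edge_unique (hA : Nondeg A b) {q q₁ q₂ : Fin n → ℝ} (hq : IsVertex A b q)
    (h1 : IsVertex A b q₁) (h2 : IsVertex A b q₂) {r : Fin m} (hr : r ∈ tight A b q)
    (hs1 : (tight A b q).erase r ⊆ tight A b q₁) (hs2 : (tight A b q).erase r ⊆ tight A b q₂)
    (hn1 : tight A b q₁ ≠ tight A b q) (hn2 : tight A b q₂ ≠ tight A b q) : q₁ = q₂ := by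
  have key : ∀ p : Fin n → ℝ, IsVertex A b p → (tight A b q).erase r ⊆ tight A b p →
      tight A b p ≠ tight A b q → A r ⬝ᵥ p < b r := by
    intro p hp hs hn
    refine lt_of_le_of_ne (hp.1 r) fun h => hn ?_
    have : p = q := hq.2 p fun i hi => by
      by_cases hir : i = r
      · rw [hir]; exact h
      · exact mem_tight.1 (hs (mem_erase.2 ⟨hir, hi⟩))
    rw [this]
  -- the main step: `q₁` is not strictly between `q` and `q₂`
  have main : ∀ q₁ q₂ : Fin n → ℝ, IsVertex A b q₁ → IsVertex A b q₂ →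
      (tight A b q).erase r ⊆ tight A b q₁ → (tight A b q).erase r ⊆ tight A b q₂ →
      tight A b q₁ ≠ tight A b q → tight A b q₂ ≠ tight A b q →
      b r - A r ⬝ᵥ q₁ ≤ b r - A r ⬝ᵥ q₂ → q₁ = q₂ := by
    intro q₁ q₂ h1 h2 hs1 hs2 hn1 hn2 hle
    have k1 := key q₁ h1 hs1 hn1
    have k2 := key q₂ h2 hs2 hn2
    set a := b r - A r ⬝ᵥ q₁ with ha
    set d := b r - A r ⬝ᵥ q₂ with hd
    have ha0 : 0 < a := by linarith
    have hd0 : 0 < d := by linarith
    -- the point on the segment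
    have hpt : q₁ = (1 - a / d) • q + (a / d) • q₂ := by
      have h3 : q + (q₁ - ((1 - a / d) • q + (a / d) • q₂)) = q := by
        apply hq.2
        intro i hi
        rw [dotProduct_add, dotProduct_sub, dotProduct_add, dotProduct_smul, dotProduct_smul,
          smul_eq_mul, smul_eq_mul, mem_tight.1 hi]
        by_cases hir : i = r
        · subst hir
          have e1 : A i ⬝ᵥ q₁ = b i - a := by rw [ha]; ring
          have e2 : A i ⬝ᵥ q₂ = b i - d := by rw [hd]; ring
          rw [e1, e2]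
          field_simp
          ring
        · rw [mem_tight.1 (hs1 (mem_erase.2 ⟨hir, hi⟩)), mem_tight.1 (hs2 (mem_erase.2 ⟨hir, hi⟩))]
          ring
      have h4 : q₁ - ((1 - a / d) • q + (a / d) • q₂) = 0 := by simpa using h3
      exact sub_eq_zero.1 h4
    rcases hle.eq_or_lt with he | hlt
    · rw [he, div_self hd0.ne', sub_self, zero_smul, zero_add, one_smul] at hpt
      exact hpt
    · exfalso
      have hr1 : a / d < 1 := (div_lt_one hd0).2 hlt
      have hr0 : 0 < a / d := by positivity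
      have hsub : tight A b q₁ ⊆ (tight A b q).erase r := by
        intro i hi
        have hi' := mem_tight.1 hi
        rw [hpt, dotProduct_add, dotProduct_smul, dotProduct_smul, smul_eq_mul, smul_eq_mul] at hi'
        have e1 := hq.1 i
        have e2 := h2.1 i
        have e3 : A i ⬝ᵥ q = b i := by
          by_contra hne
          have := lt_of_le_of_ne e1 hne
          have h5 := mul_lt_mul_of_pos_left this (show 0 < 1 - a / d by linarith)
          have h6 := mul_le_mul_of_nonneg_left e2 hr0.le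
          linarith
        refine mem_erase.2 ⟨fun hir => ?_, mem_tight.2 e3⟩
        rw [hir] at hi
        rw [mem_tight.1 hi] at k1
        exact lt_irrefl _ k1
      have c1 := card_le_card hsub
      rw [card_erase_of_mem hr, hA _ h1, hA _ hq] at c1
      have : 0 < (tight A b q).card := card_pos.2 ⟨r, hr⟩
      rw [hA _ hq] at this
      omega
  rcases le_total (b r - A r ⬝ᵥ q₁) (b r - A r ⬝ᵥ q₂) with h | h
  · exact main q₁ q₂ h1 h2 hs1 hs2 hn1 hn2 h
  · exact (main q₂ q₁ h2 h1 hs2 hs1 hn2 hn1 h).symm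

/-- `q` is a vertex of the face on which the rows in `E` are tight, and optimal on this face -/
def OptV (A : Fin m → Fin n → ℝ) (b : Fin m → ℝ) (c : Fin n → ℝ) (E : Finset (Fin m))
    (q : Fin n → ℝ) : Prop := IsVertex A b q ∧ E ⊆ tight A b q ∧ improv A b c q ⊆ E

/-- Whenever a vertex `q` of a face is not optimal there, `q` lies on a facet with an optimal vertex,
or some improving edge leads from `q` to such a facet. -/
def DirectLP (A : Fin m → Fin n → ℝ) (b : Fin m → ℝ) (c : Fin n → ℝ) : Prop :=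
  ∀ q, IsVertex A b q → ∀ E ⊆ tight A b q, ¬ improv A b c q ⊆ E →
    (∃ k ∈ tight A b q, k ∉ E ∧ ∃ q', OptV A b c E q' ∧ k ∈ tight A b q') ∨
    ∃ r ∈ improv A b c q, r ∉ E ∧ ∃ q₁, IsVertex A b q₁ ∧ tight A b q₁ ≠ tight A b q ∧
      (tight A b q).erase r ⊆ tight A b q₁ ∧
      ∃ k ∈ tight A b q₁, k ∉ tight A b q ∧ ∃ q', OptV A b c E q' ∧ k ∈ tight A b q'

/-- The rows are divided into blocks, and at every vertex all but one of the rows of each block are
tight. -/
def Blocks (A : Fin m → Fin n → ℝ) (b : Fin m → ℝ) : Prop :=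
  ∃ κ : Fin m → Fin m, ∀ q, IsVertex A b q → ∀ i, ∃! j, κ j = κ i ∧ j ∉ tight A b q

/-- every face has an optimal vertex -/
lemma exists_optV (hA : Nondeg A b)
    {q : Fin n → ℝ} (hq : IsVertex A b q) {E : Finset (Fin m)} (hE : E ⊆ tight A b q) :
    ∃ q', OptV A b c E q' ∧ c ⬝ᵥ q ≤ c ⬝ᵥ q' := by
  classical
  -- a vertex of the face with the largest value
  let X : Finset (Finset (Fin m)) := univ.filter fun B => VV A b B ∧ E ⊆ B
  have hX : X.Nonempty := ⟨tight A b q, by simp only [X, mem_filter, mem_univ, true_and]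
                                           exact ⟨⟨q, hq, rfl⟩, hE⟩⟩
  obtain ⟨B, hB, hmax⟩ := exists_max_image X (fun B => c ⬝ᵥ pt A b B) hX
  obtain ⟨hV, hEB⟩ := (mem_filter.1 hB).2
  obtain ⟨a1, a2⟩ := pt_spec hV
  have hle : ∀ q', IsVertex A b q' → E ⊆ tight A b q' → c ⬝ᵥ q' ≤ c ⬝ᵥ pt A b B := by
    intro q' hq' hE'
    have h1 := hmax (tight A b q') (by
      simp only [X, mem_filter, mem_univ, true_and]
      exact ⟨⟨q', hq', rfl⟩, hE'⟩)
    rwa [pt_tight hq'] at h1
  refine ⟨pt A b B, ⟨a1, by rw [a2]; exact hEB, fun j hj => ?_⟩, hle q hq hE⟩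
  by_contra hjE
  obtain ⟨h1, q', h2, h3, h4⟩ := mem_improv.1 hj
  have h5 := hle q' h2 fun i hi => h4 (mem_erase.2 ⟨fun h => hjE (h ▸ hi), by rw [a2]; exact hEB hi⟩)
  linarith

/-- **Products of simplices are direct.** -/
theorem Blocks.direct (hA : Nondeg A b) (hb : ∃ μ, ∀ p, Feas A b p → c ⬝ᵥ p ≤ μ)
    (h : Blocks A b) : DirectLP A b c := by
  obtain ⟨κ, hκ⟩ := h
  intro q hq E hE hnot
  right
  obtain ⟨j, hj, hjE⟩ := not_subset.1 hnot
  obtain ⟨hj1, q₀, hq₀, hlt, hsub⟩ := mem_improv.1 hj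
  obtain ⟨q', hq', hle⟩ := exists_optV (c := c) hA hq₀ (E := E) fun i hi =>
    hsub (mem_erase.2 ⟨fun h => hjE (h ▸ hi), hE hi⟩)
  obtain ⟨k, hk, hk'⟩ := exch hb hq (hA q hq) hq'.1.1 (hlt.trans_le hle)
  obtain ⟨hk1, q₁, hq₁, hlt₁, hsub₁⟩ := mem_improv.1 hk
  have hne : tight A b q₁ ≠ tight A b q := by
    intro h
    have := hq.eq_of_tight h
    rw [this] at hlt₁
    exact lt_irrefl _ hlt₁
  have hk₁ : k ∉ tight A b q₁ := by
    intro h
    apply hne
    refine (eq_of_subset_of_card_le (fun i hi => ?_) ?_).symm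
    · by_cases hik : i = k
      · rw [hik]; exact h
      · exact hsub₁ (mem_erase.2 ⟨hik, hi⟩)
    · rw [hA _ hq, hA _ hq₁]
  -- the row of the block which is not tight at `q`
  obtain ⟨a, ⟨ha1, ha2⟩, -⟩ := hκ q hq k
  have hak : a ≠ k := fun h => ha2 (h ▸ hk1)
  have hmem : ∀ p, IsVertex A b p → k ∉ tight A b p → a ∈ tight A b p := by
    intro p hp hkp
    by_contra hcon
    obtain ⟨d, -, hd⟩ := hκ p hp k
    have e1 := hd k ⟨rfl, hkp⟩
    have e2 := hd a ⟨ha1, hcon⟩
    exact hak (e2.trans e1.symm)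
  exact ⟨k, hk, fun h => hk' (hq'.2.1 h), q₁, hq₁, hne, hsub₁, a, hmem q₁ hq₁ hk₁, ha2, q', hq',
    hmem q' hq'.1 hk'⟩

/-! ### The class of all types -/

lemma optMax_model (m n : ℕ) : OptMax (model m n) := by
  intro ω E B B' hB hV' hE'
  obtain ⟨hV, hE, hS⟩ := hB
  obtain ⟨hA, hb, hω⟩ := ω.2.choose_spec.choose_spec.choose_spec
  change ((ω.2.choose_spec.choose_spec.choose ⬝ᵥ
    pt ω.2.choose ω.2.choose_spec.choose B' : ℝ) : EReal) ≤
    ((ω.2.choose_spec.choose_spec.choose ⬝ᵥ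
    pt ω.2.choose ω.2.choose_spec.choose B : ℝ) : EReal)
  change ω.1.1 B at hV
  change ω.1.1 B' at hV'
  change ω.1.2 B ⊆ E at hS
  set A := ω.2.choose
  set b := ω.2.choose_spec.choose
  set c := ω.2.choose_spec.choose_spec.choose
  have hω1 : ω.1.1 = VV A b := congrArg Prod.fst hω
  have hω2 : ω.1.2 = SS A b c := congrArg Prod.snd hω
  rw [hω1] at hV hV'
  rw [hω2] at hS
  obtain ⟨a1, a2⟩ := pt_spec hV
  obtain ⟨b1, b2⟩ := pt_spec hV'
  rw [EReal.coe_le_coe_iff]
  refine face_opt a1 hb (hA _ a1) (E := E) ?_ _ (fun i hi => ?_) fun i _ => b1.1 i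
  · rw [← SS_tight a1, a2]; exact hS
  · apply mem_tight.1
    rw [b2]
    exact hE' hi

/-- the type of a direct linear program -/
lemma direct_model (hA : Nondeg A b) (hd : DirectLP A b c)
    (ω : {ω // ω ∈ types m n}) (hω : ω.1 = (VV A b, SS A b c)) : Direct (model m n) ω := by
  have hω1 : ω.1.1 = VV A b := congrArg Prod.fst hω
  have hω2 : ω.1.2 = SS A b c := congrArg Prod.snd hω
  have hVdef : ∀ B, (model m n).V ω B ↔ VV A b B := fun B => by
    change ω.1.1 B ↔ _
    rw [hω1]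
  have hSdef : ∀ B, ((model m n).inst ω).S B = SS A b c B := fun B => by
    change ω.1.2 B = _
    rw [hω2]
  have hNdef : ∀ B r, ((model m n).inst ω).N B r = NN (VV A b) B r := fun B r => by
    change NN ω.1.1 B r = _
    rw [hω1]
  have hopt : ∀ E q', OptV A b c E q' → Opt (model m n) ω E (tight A b q') := by
    rintro E q' ⟨h1, h2, h3⟩
    refine ⟨(hVdef _).2 ⟨q', h1, rfl⟩, h2, ?_⟩
    rw [hSdef, SS_tight h1]
    exact h3
  intro E B hV hE hnot
  rw [hVdef] at hV
  rw [hSdef] at hnot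
  obtain ⟨a1, a2⟩ := pt_spec hV
  have hS : SS A b c B = improv A b c (pt A b B) := by rw [← SS_tight a1, a2]
  rw [hS] at hnot
  rcases hd _ a1 E (by rw [a2]; exact hE) hnot with
    ⟨k, hk, hkE, q', hq', hkq⟩ | ⟨r, hr, hrE, q₁, h1, h2, h3, k, hk, hk', q', hq', hkq⟩
  · left
    rw [a2] at hk
    exact ⟨k, mem_sdiff.2 ⟨hk, hkE⟩, _, hopt E q' hq', hkq⟩
  · right
    rw [hSdef, hS]
    refine ⟨r, mem_sdiff.2 ⟨hr, hrE⟩, k, ?_, ?_, _, hopt E q' hq', hkq⟩
    · rw [hNdef]
      have hr' : r ∈ SS A b c B := by rw [hS]; exact hr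
      obtain ⟨c1, c2, c3⟩ := NN_spec (exists_next hr').2
      obtain ⟨d1, d2⟩ := pt_spec c1
      have hrt : r ∈ tight A b (pt A b B) := (mem_improv.1 hr).1
      have := edge_unique hA a1 h1 d1 hrt h3 (by rw [a2, d2]; exact c3) h2
        (by rw [a2, d2]; exact c2)
      rw [this, d2] at hk
      exact hk
    · rw [a2] at hk'
      exact hk'

end Pool.Agent.J4H23.Box
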