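import Pool.Agent.J4H23.Box.Tgt
import Pool.Agent.J4H23.Box.Lp
set_option autoImplicit false

/-!
# Polyhedra whose faces have few facets; products of simplices cut by half-spaces
-/

namespace Pool.Agent.J4H23.Box

open Finset Matrix Pool.Agent.N597.QP Pool.Agent.N597.QP.Str

variable {m n : ℕ} {A : Fin m → Fin n → ℝ} {b : Fin m → ℝ} {c : Fin n → ℝ}

/-- the rows which define facets of the face on which the rows `E` are tight -/
noncomputable def facets (A : Fin m → Fin n → ℝ) (b : Fin m → ℝ) (E : Finset (Fin m)) :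
    Finset (Fin m) := by
  classical
  exact univ.filter fun k => k ∉ E ∧ ∃ q, IsVertex A b q ∧ insert k E ⊆ tight A b q

lemma mem_facets {E : Finset (Fin m)} {k : Fin m} : k ∈ facets A b E ↔
    k ∉ E ∧ ∃ q, IsVertex A b q ∧ insert k E ⊆ tight A b q := by
  classical
  simp [facets]

/-- Every face has at most `2 d + e` facets, where `d` is its dimension. -/
def FewFacets (A : Fin m → Fin n → ℝ) (b : Fin m → ℝ) (e : ℕ) : Prop :=
  ∀ q, IsVertex A b q → ∀ E ⊆ tight A b q, (facets A b E).card ≤ 2 * (n - E.card) + e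

lemma FewFacets.excess (hA : Nondeg A b) {e : ℕ} (h : FewFacets A b e)
    (ω : {ω // ω ∈ types m n}) (hω : ω.1 = (VV A b, SS A b c)) : Excess (model m n) e ω := by
  have hVdef : ∀ B, (model m n).V ω B ↔ VV A b B := fun B => by
    change ω.1.1 B ↔ _
    rw [hω]
  intro E B hV hE
  obtain ⟨q, hq, rfl⟩ := (hVdef B).1 hV
  have h1 := h q hq E hE
  have h2 : real (model m n) ω E = facets A b E := by
    ext k
    rw [mem_real, mem_facets]
    constructor
    · rintro ⟨a1, B', a2, a3⟩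
      obtain ⟨q', hq', rfl⟩ := (hVdef B').1 a2
      exact ⟨a1, q', hq', a3⟩
    · rintro ⟨a1, q', hq', a3⟩
      exact ⟨a1, _, (hVdef _).2 ⟨q', hq', rfl⟩, a3⟩
  have h3 := card_le_card hE
  rw [hA q hq] at h3
  rw [h2]
  omega

/-! ### Cuts -/

/-- `q` is a vertex of the polyhedron which is defined by the rows in `Y` -/
def VertexOf (A : Fin m → Fin n → ℝ) (b : Fin m → ℝ) (Y : Finset (Fin m)) (q : Fin n → ℝ) :
    Prop :=
  (∀ i ∈ Y, A i ⬝ᵥ q ≤ b i) ∧ ∀ q', (∀ i ∈ Y, A i ⬝ᵥ q = b i → A i ⬝ᵥ q' = b i) → q' = q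

/-- The polyhedron is the intersection of a product of simplices with `r` half-spaces: if the rows
in `X` are deleted, the others are divided into blocks, and at every vertex of the polyhedron which
they define, all but one of the rows of each block are tight. -/
def CutBlocks (A : Fin m → Fin n → ℝ) (b : Fin m → ℝ) (r : ℕ) : Prop :=
  ∃ (X : Finset (Fin m)) (κ : Fin m → Fin m), X.card ≤ r ∧ (∃ q, VertexOf A b (univ \ X) q) ∧
    ∀ q, VertexOf A b (univ \ X) q → ((univ \ X) ∩ tight A b q).card = n ∧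
      ∀ i ∉ X, ∃! j, j ∉ X ∧ κ j = κ i ∧ j ∉ tight A b q

/-- A point of a pointed polyhedron lies on no more rows than some vertex. -/
lemma exists_vertex {Y : Finset (Fin m)} {p₀ : Fin n → ℝ} (hp₀ : VertexOf A b Y p₀) :
    ∀ (N : ℕ) (q : Fin n → ℝ), (∀ i ∈ Y, A i ⬝ᵥ q ≤ b i) →
      (Y.filter fun i => A i ⬝ᵥ q ≠ b i).card ≤ N →
      ∃ p, VertexOf A b Y p ∧ ∀ i ∈ Y, A i ⬝ᵥ q = b i → A i ⬝ᵥ p = b i := by
  classical
  have main : ∀ (N : ℕ) (q : Fin n → ℝ), (∀ i ∈ Y, A i ⬝ᵥ q ≤ b i) →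
      (Y.filter fun i => A i ⬝ᵥ q ≠ b i).card ≤ N →
      (∀ q' : Fin n → ℝ, (∀ i ∈ Y, A i ⬝ᵥ q' ≤ b i) →
        (Y.filter fun i => A i ⬝ᵥ q' ≠ b i).card < N →
        ∃ p, VertexOf A b Y p ∧ ∀ i ∈ Y, A i ⬝ᵥ q' = b i → A i ⬝ᵥ p = b i) →
      ∀ z : Fin n → ℝ, (∀ i ∈ Y, A i ⬝ᵥ q = b i → A i ⬝ᵥ z = 0) → (∃ i ∈ Y, 0 < A i ⬝ᵥ z) →
      ∃ p, VertexOf A b Y p ∧ ∀ i ∈ Y, A i ⬝ᵥ q = b i → A i ⬝ᵥ p = b i := by
    intro N q hq hN ih z hz hpos
    obtain ⟨i₁, hi₁, hpos₁⟩ := hpos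
    set Yp := Y.filter fun i => 0 < A i ⬝ᵥ z with hYp
    obtain ⟨i₀, hi₀, hmin⟩ := exists_min_image Yp (fun i => (b i - A i ⬝ᵥ q) / (A i ⬝ᵥ z))
      ⟨i₁, mem_filter.2 ⟨hi₁, hpos₁⟩⟩
    obtain ⟨hi₀Y, hi₀z⟩ := mem_filter.1 hi₀
    set t := (b i₀ - A i₀ ⬝ᵥ q) / (A i₀ ⬝ᵥ z) with ht
    have hi₀q : A i₀ ⬝ᵥ q ≠ b i₀ := fun h => by
      rw [hz i₀ hi₀Y h] at hi₀z
      exact lt_irrefl _ hi₀z
    have ht0 : 0 ≤ t := div_nonneg (sub_nonneg.2 (hq i₀ hi₀Y)) hi₀z.le
    set q' := q + t • z with hq'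
    have hdot : ∀ i, A i ⬝ᵥ q' = A i ⬝ᵥ q + t * A i ⬝ᵥ z := fun i => by
      rw [hq', dotProduct_add, dotProduct_smul, smul_eq_mul]
    have hfeas : ∀ i ∈ Y, A i ⬝ᵥ q' ≤ b i := by
      intro i hi
      rw [hdot]
      by_cases hiz : 0 < A i ⬝ᵥ z
      · have h1 := hmin i (mem_filter.2 ⟨hi, hiz⟩)
        rw [le_div_iff₀ hiz] at h1
        linarith
      · have h1 := hq i hi
        have h2 : t * A i ⬝ᵥ z ≤ 0 := mul_nonpos_of_nonneg_of_nonpos ht0 (not_lt.1 hiz)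
        linarith
    have hkeep : ∀ i ∈ Y, A i ⬝ᵥ q = b i → A i ⬝ᵥ q' = b i := by
      intro i hi h
      rw [hdot, hz i hi h, mul_zero, add_zero, h]
    have hnew : A i₀ ⬝ᵥ q' = b i₀ := by
      rw [hdot, ht, div_mul_cancel₀ _ hi₀z.ne']
      ring
    have hlt : (Y.filter fun i => A i ⬝ᵥ q' ≠ b i).card <
        (Y.filter fun i => A i ⬝ᵥ q ≠ b i).card := by
      apply card_lt_card
      rw [ssubset_iff_of_subset]
      · exact ⟨i₀, mem_filter.2 ⟨hi₀Y, hi₀q⟩, fun h => (mem_filter.1 h).2 hnew⟩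
      · intro i hi
        obtain ⟨a1, a2⟩ := mem_filter.1 hi
        exact mem_filter.2 ⟨a1, fun h => a2 (hkeep i a1 h)⟩
    obtain ⟨p, hp1, hp2⟩ := ih q' hfeas (by omega)
    exact ⟨p, hp1, fun i hi h => hp2 i hi (hkeep i hi h)⟩
  intro N
  induction N with
  | zero =>
    intro q hq hN
    -- all rows are tight
    have hall : ∀ i ∈ Y, A i ⬝ᵥ q = b i := by
      intro i hi
      by_contra hcon
      have : 0 < (Y.filter fun i => A i ⬝ᵥ q ≠ b i).card := card_pos.2 ⟨i, mem_filter.2 ⟨hi, hcon⟩⟩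
      omega
    have : q = p₀ := hp₀.2 q fun i hi _ => hall i hi
    exact ⟨p₀, hp₀, fun i hi _ => by rw [← this]; exact hall i hi⟩
  | succ N ih =>
    intro q hq hN
    by_cases hv : VertexOf A b Y q
    · exact ⟨q, hv, fun i _ h => h⟩
    · have : ∃ q', (∀ i ∈ Y, A i ⬝ᵥ q = b i → A i ⬝ᵥ q' = b i) ∧ q' ≠ q := by
        by_contra hcon
        push Not at hcon
        exact hv ⟨hq, hcon⟩
      obtain ⟨q', h1, h2⟩ := this
      set z := q' - q with hz
      have hz0 : z ≠ 0 := sub_ne_zero.2 h2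
      have hzt : ∀ i ∈ Y, A i ⬝ᵥ q = b i → A i ⬝ᵥ z = 0 := by
        intro i hi h
        rw [hz, dotProduct_sub, h1 i hi h, h, sub_self]
      have hex : ∃ i ∈ Y, A i ⬝ᵥ z ≠ 0 := by
        by_contra hcon
        push Not at hcon
        have : p₀ + z = p₀ := hp₀.2 _ fun i hi h => by
          rw [dotProduct_add, hcon i hi, add_zero, h]
        exact hz0 (by simpa using this)
      obtain ⟨i, hi, hiz⟩ := hex
      have ih' : ∀ q' : Fin n → ℝ, (∀ i ∈ Y, A i ⬝ᵥ q' ≤ b i) →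
          (Y.filter fun i => A i ⬝ᵥ q' ≠ b i).card < N + 1 →
          ∃ p, VertexOf A b Y p ∧ ∀ i ∈ Y, A i ⬝ᵥ q' = b i → A i ⬝ᵥ p = b i :=
        fun q' h1 h2 => ih q' h1 (by omega)
      rcases lt_or_gt_of_ne hiz with h | h
      · exact main (N + 1) q hq hN ih' (-z) (fun i hi h => by
          rw [dotProduct_neg, hzt i hi h, neg_zero]) ⟨i, hi, by
          rw [dotProduct_neg]; linarith⟩
      · exact main (N + 1) q hq hN ih' z hzt ⟨i, hi, h⟩

/-- **A product of simplices cut by `r` half-spaces has faces with few facets.** -/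
theorem CutBlocks.few (hA : Nondeg A b) {r : ℕ} (h : CutBlocks A b r) :
    FewFacets A b (2 * r) := by
  classical
  obtain ⟨X, κ, hX, ⟨p₀, hp₀⟩, hblk⟩ := h
  set Y := univ \ X with hY
  have hYX : ∀ i, i ∈ Y ↔ i ∉ X := fun i => by rw [hY, mem_sdiff]; simp
  intro q hq E hE
  have hcE := card_le_card hE
  rw [hA q hq] at hcE
  -- vertices of the product
  have hlift : ∀ q', IsVertex A b q' → ∃ p, VertexOf A b Y p ∧
      ∀ i ∈ Y, i ∈ tight A b q' → i ∈ tight A b p := by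
    intro q' hq'
    obtain ⟨p, hp1, hp2⟩ := exists_vertex hp₀ _ q' (fun i _ => hq'.1 i) le_rfl
    exact ⟨p, hp1, fun i hi h => mem_tight.2 (hp2 i hi (mem_tight.1 h))⟩
  obtain ⟨p₁, hp₁, hp₁E⟩ := hlift q hq
  set E' := E ∩ Y with hE'
  set F := Y.filter fun k => k ∉ E ∧ ∃ p, VertexOf A b Y p ∧ insert k E' ⊆ tight A b p with hF
  have hsub : facets A b E ⊆ (X \ E) ∪ F := by
    intro k hk
    obtain ⟨a1, q', a2, a3⟩ := mem_facets.1 hk
    by_cases hkX : k ∈ X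
    · exact mem_union_left _ (mem_sdiff.2 ⟨hkX, a1⟩)
    · refine mem_union_right _ (mem_filter.2 ⟨(hYX k).2 hkX, a1, ?_⟩)
      obtain ⟨p, hp1, hp2⟩ := hlift q' a2
      refine ⟨p, hp1, fun i hi => ?_⟩
      rcases mem_insert.1 hi with h | h
      · rw [h]
        exact hp2 k ((hYX k).2 hkX) (a3 (mem_insert_self _ _))
      · obtain ⟨c1, c2⟩ := mem_inter.1 h
        exact hp2 i c2 (a3 (mem_insert_of_mem c1))
  -- the blocks
  set I := Y.image κ with hI
  have hYsum : (Y \ E').card = ∑ β ∈ I, ((Y \ E').filter fun i => κ i = β).card :=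
    card_eq_sum_card_fiberwise fun i hi => mem_image_of_mem _ (mem_sdiff.1 hi).1
  have hFsum : F.card = ∑ β ∈ I, (F.filter fun i => κ i = β).card :=
    card_eq_sum_card_fiberwise fun i hi => mem_image_of_mem _ (mem_filter.1 hi).1
  -- the free rows of `p₁`
  have hfree : (Y \ tight A b p₁).card = I.card := by
    apply card_bij (fun i _ => κ i)
    · intro i hi
      exact mem_image_of_mem _ (mem_sdiff.1 hi).1
    · intro i hi j hj hij
      obtain ⟨a1, a2⟩ := mem_sdiff.1 hi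
      obtain ⟨c1, c2⟩ := mem_sdiff.1 hj
      obtain ⟨d, -, hd⟩ := (hblk p₁ hp₁).2 i ((hYX i).1 a1)
      rw [hd i ⟨(hYX i).1 a1, rfl, a2⟩, hd j ⟨(hYX j).1 c1, hij.symm, c2⟩]
    · intro β hβ
      obtain ⟨i, hi, rfl⟩ := mem_image.1 hβ
      obtain ⟨d, ⟨h1, h2, h3⟩, -⟩ := (hblk p₁ hp₁).2 i ((hYX i).1 hi)
      exact ⟨d, mem_sdiff.2 ⟨(hYX d).2 h1, h3⟩, h2⟩
  have hYcard : Y.card = n + I.card := by
    have h1 := (hblk p₁ hp₁).1
    have h2 := card_sdiff_add_card_inter Y (tight A b p₁)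
    have h3 : (Y ∩ tight A b p₁).card = n := h1
    omega
  have hE'Y : E' ⊆ Y := inter_subset_right
  have hblock : ∀ β ∈ I, (F.filter fun i => κ i = β).card + 2 ≤
      2 * ((Y \ E').filter fun i => κ i = β).card := by
    intro β hβ
    by_cases hne : (F.filter fun i => κ i = β).Nonempty
    · obtain ⟨k, hk⟩ := hne
      obtain ⟨hkF, hkβ⟩ := mem_filter.1 hk
      obtain ⟨hkY, hkE, p, hp, hpk⟩ := mem_filter.1 hkF
      obtain ⟨d, ⟨h1, h2, h3⟩, -⟩ := (hblk p hp).2 k ((hYX k).1 hkY)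
      have hdE' : d ∉ E' := fun h => h3 (hpk (mem_insert_of_mem h))
      have hdk : d ≠ k := fun h => h3 (h ▸ hpk (mem_insert_self _ _))
      have hkE' : k ∉ E' := fun h => hkE (mem_inter.1 h).1
      have h4 : (F.filter fun i => κ i = β) ⊆ ((Y \ E').filter fun i => κ i = β) := by
        intro i hi
        obtain ⟨a1, a2⟩ := mem_filter.1 hi
        obtain ⟨c1, c2, -⟩ := mem_filter.1 a1
        exact mem_filter.2 ⟨mem_sdiff.2 ⟨c1, fun h => c2 (mem_inter.1 h).1⟩, a2⟩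
      have h5 : 1 < ((Y \ E').filter fun i => κ i = β).card := by
        rw [one_lt_card]
        exact ⟨d, mem_filter.2 ⟨mem_sdiff.2 ⟨(hYX d).2 h1, hdE'⟩, h2.trans hkβ⟩, k,
          mem_filter.2 ⟨mem_sdiff.2 ⟨hkY, hkE'⟩, hkβ⟩, hdk⟩
      have h6 := card_le_card h4
      omega
    · rw [not_nonempty_iff_eq_empty] at hne
      rw [hne, card_empty]
      obtain ⟨i, hi, rfl⟩ := mem_image.1 hβ
      obtain ⟨d, ⟨h1, h2, h3⟩, -⟩ := (hblk p₁ hp₁).2 i ((hYX i).1 hi)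
      have hdE' : d ∉ E' := fun h => h3 (hp₁E d (hE'Y h) (hE (mem_inter.1 h).1))
      have h5 : 0 < ((Y \ E').filter fun i' => κ i' = κ i).card :=
        card_pos.2 ⟨d, mem_filter.2 ⟨mem_sdiff.2 ⟨(hYX d).2 h1, hdE'⟩, h2⟩⟩
      omega
  have hsum : F.card + 2 * I.card ≤ 2 * (Y \ E').card := by
    rw [hFsum, hYsum, mul_sum]
    calc ∑ β ∈ I, (F.filter fun i => κ i = β).card + 2 * I.card
        = ∑ β ∈ I, ((F.filter fun i => κ i = β).card + 2) := by
          rw [sum_add_distrib, sum_const, smul_eq_mul]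
          ring
      _ ≤ _ := sum_le_sum hblock
  have hcY : (Y \ E').card + E'.card = Y.card := by
    rw [card_sdiff_of_subset hE'Y]
    have := card_le_card hE'Y
    omega
  have hcX : (X \ E).card + (E ∩ X).card = X.card := by
    have := card_sdiff_add_card_inter X E
    rw [inter_comm E X]
    exact this
  have hcE2 : E.card = E'.card + (E ∩ X).card := by
    have h1 : E = E' ∪ (E ∩ X) := by
      ext i
      rw [mem_union, mem_inter, mem_inter, hYX]
      tauto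
    have h2 : Disjoint E' (E ∩ X) := by
      rw [disjoint_left]
      intro i hi hi'
      exact (hYX i).1 (mem_inter.1 hi).2 (mem_inter.1 hi').2
    conv_lhs => rw [h1]
    exact card_union_of_disjoint h2
  have h7 := (card_le_card hsub).trans (card_union_le _ _)
  omega

/-- products of simplices -/
lemma Blocks.cut (hA : Nondeg A b) {q₀ : Fin n → ℝ} (hq₀ : IsVertex A b q₀) (h : Blocks A b) :
    CutBlocks A b 0 := by
  obtain ⟨κ, hκ⟩ := h
  have hiff : ∀ q, VertexOf A b (univ \ ∅) q ↔ IsVertex A b q := by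
    intro q
    constructor
    · rintro ⟨h1, h2⟩
      exact ⟨fun i => h1 i (by simp), fun q' h => h2 q' fun i _ hi => h i (mem_tight.2 hi)⟩
    · rintro ⟨h1, h2⟩
      exact ⟨fun i _ => h1 i, fun q' h => h2 q' fun i hi => h i (by simp) (mem_tight.1 hi)⟩
  refine ⟨∅, κ, le_rfl, ⟨q₀, (hiff q₀).2 hq₀⟩, fun q hq => ?_⟩
  have hq' := (hiff q).1 hq
  refine ⟨?_, fun i _ => ?_⟩
  · rw [sdiff_empty, univ_inter]
    exact hA q hq'
  · obtain ⟨j, ⟨h1, h2⟩, h3⟩ := hκ q hq' i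
    exact ⟨j, ⟨by simp, h1, h2⟩, fun j' h => h3 j' ⟨h.2.1, h.2.2⟩⟩

end Pool.Agent.J4H23.Box
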