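import Pool.Agent.J4H23.Box.Works
set_option autoImplicit false

/-!
# Nested relaxations
-/

namespace Pool.Agent.J4H23.Box

open Finset Pool.Agent.N597.QP Pool.Agent.N597.QP.Str

variable {R Ω : Type} [DecidableEq R] {n : ℕ} (M : Model R Ω n)

/-- If the optimum of the facet `k` is found within the rows `S`, it is optimal on the face `E`. -/
def Tgt (ω : Ω) (S E : Finset R) (k : R) : Prop :=
  ∀ B, M.V ω B → insert k E ⊆ B → B ⊆ S → (M.inst ω).S B ⊆ insert k E → (M.inst ω).S B ⊆ E

/-- the target rows -/
noncomputable def tgt (ω : Ω) (S E : Finset R) : Finset R := by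
  classical exact (S \ E).filter (Tgt M ω S E)

lemma mem_tgt {ω : Ω} {S E : Finset R} {k : R} :
    k ∈ tgt M ω S E ↔ (k ∈ S ∧ k ∉ E) ∧ Tgt M ω S E k := by
  classical
  unfold tgt
  rw [mem_filter, mem_sdiff]

/-- the number of vertices of the face `E` within the rows `S` -/
noncomputable def nv (ω : Ω) (S E : Finset R) : ℕ := by
  classical exact (S.powerset.filter fun B => M.V ω B ∧ E ⊆ B).card

/-- after `g` nested relaxations at most `N₀` vertices are left -/
def Dp (N₀ : ℕ) : ℕ → Ω → Finset R → Finset R → Prop
  | 0, ω, S, E => nv M ω S E ≤ N₀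
  | g + 1, ω, S, E => ∀ E', E ⊆ E' → Dp N₀ g ω (S \ tgt M ω S E') E'

lemma Dp.mono {N₀ g : ℕ} {ω : Ω} {S E E' : Finset R} (h : Dp M N₀ g ω S E) (hE : E ⊆ E') :
    Dp M N₀ g ω S E' := by
  classical
  cases g with
  | zero =>
    refine le_trans (card_le_card ?_) h
    intro B hB
    rw [mem_filter] at hB ⊢
    exact ⟨hB.1, hB.2.1, hE.trans hB.2.2⟩
  | succ g => exact fun E'' h' => h E'' (hE.trans h')

/-! ### The bottom level -/

/-- follow arbitrary improving edges in the face `E`, at most `N` of them -/
noncomputable def grd (E : Finset R) : ℕ → Finset R → Str R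
  | 0, _ => stop
  | N + 1, S => by
    classical exact if h : (S \ E).Nonempty then go h.choose fun o => grd E N o.2 else stop

lemma grd_safe (E : Finset R) (N : ℕ) (S : Finset R) : Safe E (grd E N S) S := by
  induction N generalizing S with
  | zero => trivial
  | succ N ih =>
    unfold grd
    split_ifs with h
    · have h1 := mem_sdiff.1 h.choose_spec
      exact ⟨h1.1, h1.2, fun o => ih o.2⟩
    · trivial

lemma grd_length (E : Finset R) (f : Inst R) (N : ℕ) (S B : Finset R) :
    (play f (grd E N S) B).length ≤ N := by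
  induction N generalizing S B with
  | zero => simp [grd, play]
  | succ N ih =>
    unfold grd
    split_ifs with h
    · simp only [play, List.length_cons]
      have := ih (f.S (f.N B h.choose)) (f.N B h.choose)
      simp only [Inst.ob]
      omega
    · simp [play]

lemma grd_end (E : Finset R) (f : Inst R) (N : ℕ) (B : Finset R) :
    (play f (grd E N (f.S B)) B).length = N ∨
      (lst (f.ob B) (play f (grd E N (f.S B)) B)).2 ⊆ E := by
  induction N generalizing B with
  | zero => left; simp [grd, play]
  | succ N ih =>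
    unfold grd
    split_ifs with h
    · simp only [play, List.length_cons, lst]
      rcases ih (f.N B h.choose) with h1 | h1
      · left
        simp only [Inst.ob] at h1 ⊢
        omega
      · right
        exact h1
    · right
      simp only [play, lst, Inst.ob]
      rwa [not_nonempty_iff_eq_empty, sdiff_eq_empty_iff_subset] at h

/-- a play within the rows `S` visits different vertices -/
lemma play_le_nv {ω : Ω} {E S : Finset R} (t : Str R) : ∀ B : Finset R, M.V ω B → E ⊆ B → B ⊆ S →
    Safe E t ((M.inst ω).S B) → (∀ o ∈ play (M.inst ω) t B, o.1 ⊆ S) →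
    (play (M.inst ω) t B).length + 1 ≤ nv M ω S E := by
  classical
  have key : ∀ (t : Str R) (B : Finset R), M.V ω B → E ⊆ B → B ⊆ S →
      Safe E t ((M.inst ω).S B) → (∀ o ∈ play (M.inst ω) t B, o.1 ⊆ S) →
      (play (M.inst ω) t B).length + 1 ≤
        (S.powerset.filter fun B' => (M.V ω B' ∧ E ⊆ B') ∧ M.val ω B ≤ M.val ω B').card := by
    intro t
    induction t with
    | stop =>
      intro B hV hE hS _ _
      simp only [play, List.length_nil, zero_add]
      exact card_pos.2 ⟨B, mem_filter.2 ⟨mem_powerset.2 hS, ⟨hV, hE⟩, le_rfl⟩⟩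
    | go r k ih =>
      intro B hV hE hS hs hvis
      obtain ⟨h1, h2, h3⟩ := hs
      have hV' := M.next_V ω B r hV h1
      have hE' : E ⊆ (M.inst ω).N B r := fun i hi => M.next_sub ω B r hV h1
        (mem_erase.2 ⟨fun h => h2 (h ▸ hi), hE hi⟩)
      have hlt := M.next_lt ω B r hV h1
      simp only [play, List.length_cons, List.mem_cons] at hvis ⊢
      have hS' : (M.inst ω).N B r ⊆ S := hvis _ (Or.inl rfl)
      have h4 := ih ((M.inst ω).ob ((M.inst ω).N B r)) ((M.inst ω).N B r) hV' hE' hS' (h3 _)
        (fun o ho => hvis o (Or.inr ho))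
      have h5 : (insert B (S.powerset.filter fun B' => (M.V ω B' ∧ E ⊆ B') ∧
          M.val ω ((M.inst ω).N B r) ≤ M.val ω B')) ⊆
          S.powerset.filter fun B' => (M.V ω B' ∧ E ⊆ B') ∧ M.val ω B ≤ M.val ω B' := by
        intro B' hB'
        rcases mem_insert.1 hB' with h | h
        · rw [h]
          exact mem_filter.2 ⟨mem_powerset.2 hS, ⟨hV, hE⟩, le_rfl⟩
        · rw [mem_filter] at h ⊢
          exact ⟨h.1, h.2.1, hlt.le.trans h.2.2⟩
      have h6 := card_le_card h5
      rw [card_insert_of_notMem (fun h => by
        rw [mem_filter] at h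
        exact absurd (hlt.trans_le h.2.2) (lt_irrefl _))] at h6
      omega
  intro B hV hE hS hs hvis
  refine (key t B hV hE hS hs hvis).trans (card_le_card ?_)
  intro B' hB'
  rw [mem_filter] at hB' ⊢
  exact ⟨hB'.1, hB'.2.1⟩

lemma bottom {N₀ : ℕ} {E : Finset R} {o : Obs R} {K : Finset (Ω × Finset R)} (hE : E ⊆ o.1)
    (hK : Cons M o K) (hdp : ∀ p ∈ K, Dp M N₀ 0 p.1 p.2 E) :
    ∃ t, W M E o K t fun _ => (N₀ : ℝ) := by
  refine ⟨grd E N₀ o.2, grd_safe E N₀ o.2, fun ω _ _ => ?_, fun p hp hvis => ?_⟩
  · have h := grd_length E (M.inst ω) N₀ o.2 o.1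
    simp only
    exact_mod_cast h
  · obtain ⟨a1, a2, a3⟩ := hK p hp
    have hS : (M.inst p.1).S o.1 = o.2 := congrArg Prod.snd a2
    rcases grd_end E (M.inst p.1) N₀ o.1 with h | h
    · exfalso
      have h1 := play_le_nv M (ω := p.1) (E := E) (S := p.2) (grd E N₀ o.2) o.1 a1 hE a3
        (by rw [hS]; exact grd_safe E N₀ o.2) hvis
      have h2 : nv M p.1 p.2 E ≤ N₀ := hdp p hp
      rw [hS] at h
      omega
    · rw [hS, a2] at h
      exact h

/-! ### One relaxation -/

/-- Solving the facet `j` and going on from there. -/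
lemma phase2 {D d g : ℕ} {N₀ : ℕ} {X C : ℝ} (hD : 1 ≤ D) (hC : 0 ≤ C) (hX : X = 1 + C)
    {E : Finset R} (K : Finset (Ω × Finset R)) (hEd : E.card + (d + 1) = n)
    (hd : ∀ (E' : Finset R) (o : Obs R) (K' : Finset (Ω × Finset R)), K'.card ≤ K.card →
      E'.card + d = n → E' ⊆ o.1 → Cons M o K' → (∀ p ∈ K', Dp M N₀ g p.1 p.2 E') →
      ∃ t, W M E' o K' t (cost D X d K'.card))
    (hrec : ∀ (o : Obs R) (K' : Finset (Ω × Finset R)), K'.Nonempty →
      D * K'.card + K.card ≤ D * K.card → E ⊆ o.1 →
      Cons M o K' → (∀ p ∈ K', Dp M N₀ g p.1 p.2 E) →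
      ∃ t, W M E o K' t (cost D X (d + 1) K'.card))
    (hsize : ∀ p ∈ K, Dp M N₀ g p.1 p.2 E)
    {j : R} (hjE : j ∉ E) (G : Finset (Ω × Finset R)) (hG : G ⊆ K)
    (hGj : ∀ p ∈ G, j ∈ tgt M p.1 p.2 E) (hcard : K.card ≤ D * G.card)
    (o : Obs R) (K' : Finset (Ω × Finset R)) (hK' : K' ⊆ K) (hE : E ⊆ o.1) (hcons : Cons M o K')
    (hj : j ∈ o.1) :
    ∃ t, W M E o K' t fun x => cost D X (d + 1) K.card x - C := by
  classical
  have hX0 : 0 ≤ X := by rw [hX]; linarith
  have hD0 : (1 : ℝ) ≤ D := by exact_mod_cast hD
  have hd0 : (0 : ℝ) ≤ d := Nat.cast_nonneg d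
  obtain ⟨τ₂, hτ₂⟩ := hd (insert j E) o K' (card_le_card hK')
    (by rw [card_insert_of_notMem hjE]; omega) (insert_subset hj hE) hcons
    (fun p hp => (hsize p (hK' hp)).mono M (subset_insert _ _))
  have hsafe₂ : Safe E τ₂ o.2 := safe_mono (subset_insert _ _) hτ₂.1
  refine comp_works M E o K' τ₂ _ hE hcons hsafe₂ fun l₂ => ?_
  set o₂ := lst o l₂ with ho₂
  set K₂ := surv M K' τ₂ o.1 l₂ with hK₂
  have hK₂' : K₂ ⊆ K' := surv_subset M _ _ _ _
  have hlen₂ : ∀ ω, M.V ω o.1 → (M.inst ω).ob o.1 = o → play (M.inst ω) τ₂ o.1 = l₂ →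
      (l₂.length : ℝ) ≤ cost D X d K'.card K₂.card := by
    intro ω hV ho hl
    have := hτ₂.2.1 ω hV ho
    rw [hl] at this
    exact this
  have hlog₂ : Real.log K₂.card ≤ Real.log K'.card := log_mono (card_le_card hK₂')
  have hlog' : Real.log K'.card ≤ Real.log K.card := log_mono (card_le_card hK')
  by_cases hstop : K₂ = ∅ ∨ o₂.2 ⊆ E
  · refine ⟨stop, fun _ => 0, stop_works M E _ _ _ (fun _ _ => le_rfl) ?_, ?_⟩
    · intro h
      rcases hstop with h' | h'
      · rw [h'] at h; exact absurd h not_nonempty_empty
      · exact h'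
    · intro ω hV ho hl x hx
      have h1 := hlen₂ ω hV ho hl
      have h2 := log_mono hx
      unfold cost at h1 ⊢
      push_cast
      have h3 : (d : ℝ) ^ 2 * D * X * (Real.log K'.card - Real.log K₂.card) ≤
          ((d : ℝ) + 1) ^ 2 * D * X * (Real.log K.card - Real.log x) := by
        have a1 : (d : ℝ) ^ 2 ≤ (d + 1) ^ 2 := by nlinarith
        have a2 : (d : ℝ) ^ 2 * D * X ≤ ((d : ℝ) + 1) ^ 2 * D * X := by gcongr
        exact mul_le_mul a2 (by linarith) (by linarith) (by positivity)
      nlinarith
  push Not at hstop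
  obtain ⟨hne₂, hnt₂⟩ := hstop
  have hne₂' : K₂.Nonempty := hne₂
  have hE₂ : E ⊆ o₂.1 := hcons.face M hE hsafe₂ l₂ hne₂'
  have hcons₂ : Cons M o₂ K₂ := hcons.surv M hE hsafe₂ l₂
  -- elimination
  have helim : K₂ ⊆ K \ G := by
    intro p hp
    obtain ⟨a1, a2, a3⟩ := (mem_surv M).1 hp
    obtain ⟨b1, b2, b3⟩ := hcons p a1
    rw [mem_sdiff]
    refine ⟨hK' a1, fun hpG => hnt₂ ?_⟩
    have h1 := hτ₂.2.2 p a1 (by rw [a2]; exact a3)
    obtain ⟨c1, c2, c3⟩ := valid_lst M b1 (insert_subset hj hE) b2 hτ₂.1
    rw [a2] at h1 c1 c2 c3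
    rw [← ho₂] at h1 c1 c2 c3
    have hS : (M.inst p.1).S o₂.1 = o₂.2 := congrArg Prod.snd c3
    have h2 := ((mem_tgt M).1 (hGj p hpG)).2 o₂.1 c1 c2 (hcons₂ p hp).2.2 (by rw [hS]; exact h1)
    rw [hS] at h2
    exact h2
  have hcardK₂ : D * K₂.card + K.card ≤ D * K.card := by
    have h1 := card_le_card helim
    rw [card_sdiff_of_subset hG] at h1
    have h2 := card_le_card hG
    have h3 : K₂.card + G.card ≤ K.card := by omega
    calc D * K₂.card + K.card ≤ D * K₂.card + D * G.card := by omega
      _ = D * (K₂.card + G.card) := by ring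
      _ ≤ D * K.card := Nat.mul_le_mul_left _ h3
  obtain ⟨t₄, ht₄⟩ := hrec o₂ K₂ hne₂' hcardK₂ hE₂ hcons₂ (fun p hp => hsize p (hK' (hK₂' hp)))
  refine ⟨t₄, _, ht₄, ?_⟩
  intro ω hV ho hl x hx
  have h1 := hlen₂ ω hV ho hl
  have h2 := log_gap hD (card_pos.2 hne₂') hcardK₂
  set y := Real.log K.card - Real.log K₂.card with hy
  set z := Real.log K'.card - Real.log K₂.card with hz
  have hzy : z ≤ y := by rw [hy, hz]; linarith
  unfold cost at h1 ⊢
  push_cast
  have e1 : ((d : ℝ) + 1) ^ 2 * D * X * (Real.log K.card - Real.log x) =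
      ((d : ℝ) + 1) ^ 2 * D * X * (Real.log K₂.card - Real.log x) +
      ((d : ℝ) + 1) ^ 2 * X * (D * y) := by rw [hy]; ring
  have e2 : (d : ℝ) ^ 2 * D * X * z ≤ (d : ℝ) ^ 2 * X * (D * y) := by
    have : (d : ℝ) ^ 2 * D * X * z = (d : ℝ) ^ 2 * X * (D * z) := by ring
    rw [this]
    gcongr
  have e3 : ((d : ℝ) + 1) * X ≤ (2 * d + 1) * X * (D * y) := by
    calc ((d : ℝ) + 1) * X ≤ (2 * d + 1) * X * 1 := by nlinarith
      _ ≤ (2 * d + 1) * X * (D * y) := by
          apply mul_le_mul_of_nonneg_left h2 (by positivity)
  have e4 : ((d : ℝ) + 1) ^ 2 * X * (D * y) =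
      (d : ℝ) ^ 2 * X * (D * y) + (2 * d + 1) * X * (D * y) := by ring
  rw [e1]
  rw [← hz] at h1
  have e5 : C ≤ X := by rw [hX]; linarith
  nlinarith

/-- the capped costs -/
noncomputable def CC (Q : ℝ) (N₀ : ℕ) : ℕ → ℝ
  | 0 => N₀
  | g + 1 => Q * (1 + CC Q N₀ g)

lemma CC_nonneg {Q : ℝ} (hQ : 0 ≤ Q) (N₀ g : ℕ) : 0 ≤ CC Q N₀ g := by
  induction g with
  | zero => exact Nat.cast_nonneg _
  | succ g ih => unfold CC; positivity

/-- **The strategy for nested relaxations.** -/
theorem deep [Fintype R] (Λ : ℝ) (hΛ : 0 ≤ Λ) (N₀ : ℕ) :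
    ∀ (g d : ℕ) (E : Finset R) (o : Obs R) (K : Finset (Ω × Finset R)),
      Real.log K.card ≤ Λ → E.card + d = n → E ⊆ o.1 → Cons M o K →
      (∀ p ∈ K, Dp M N₀ g p.1 p.2 E) →
      ∃ t, W M E o K t fun _ => CC (n + n ^ 2 * ((Fintype.card R + 1 : ℕ) : ℝ) * Λ) N₀ g := by
  classical
  set D := Fintype.card R + 1 with hD
  set Q : ℝ := n + n ^ 2 * (D : ℝ) * Λ with hQ
  have hQ0 : 0 ≤ Q := by rw [hQ]; positivity
  have hD1 : 1 ≤ D := by omega
  intro g
  induction g with
  | zero =>
    intro d E o K _ _ hE hcons hdp
    exact bottom M hE hcons hdp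
  | succ g ihg =>
    set C := CC Q N₀ g with hC
    have hC0 : 0 ≤ C := CC_nonneg hQ0 _ _
    obtain ⟨X, hX⟩ : ∃ X : ℝ, X = 1 + C := ⟨_, rfl⟩
    have hX0 : 0 ≤ X := by rw [hX]; linarith
    -- the version with costs
    have main : ∀ (d N : ℕ) (E : Finset R) (o : Obs R) (K : Finset (Ω × Finset R)), K.card ≤ N →
        Real.log K.card ≤ Λ → E.card + d = n → E ⊆ o.1 → Cons M o K →
        (∀ p ∈ K, Dp M N₀ (g + 1) p.1 p.2 E) → ∃ t, W M E o K t (cost D X d K.card) := by
      intro d
      induction d with
      | zero =>
        intro N E o K hN hlog hEd hE hcons hsize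
        refine ⟨stop, stop_works M E o K _ (fun x hx => ?_) ?_⟩
        · exact cost_nonneg hX0 0 hx
        · rintro ⟨p, hp⟩
          obtain ⟨a1, a2, a3⟩ := hcons p hp
          have h2 := M.sub p.1 o.1 a1
          have h3 : (M.inst p.1).S o.1 = o.2 := congrArg Prod.snd a2
          rw [h3] at h2
          have h4 : E = o.1 := eq_of_subset_of_card_le hE (by rw [M.card_V _ _ a1]; omega)
          rw [h4]; exact h2
      | succ d ihd =>
        intro N
        induction N with
        | zero =>
          intro E o K hN hlog hEd hE hcons hsize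
          refine ⟨stop, stop_works M E o K _ (fun x hx => ?_) ?_⟩
          · exact cost_nonneg hX0 _ hx
          · rintro hne
            have := card_pos.2 hne
            omega
        | succ N ihN =>
          intro E o K hN hlog hEd hE hcons hsize
          by_cases hstop : K = ∅ ∨ o.2 ⊆ E
          · refine ⟨stop, stop_works M E o K _ (fun x hx => ?_) ?_⟩
            · exact cost_nonneg hX0 _ hx
            · rintro hne
              rcases hstop with h | h
              · rw [h] at hne; simp at hne
              · exact h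
          push Not at hstop
          obtain ⟨hne, hnt⟩ := hstop
          have hKpos : 0 < K.card := card_pos.2 hne
          have hlogle : ∀ K' : Finset (Ω × Finset R), K'.card ≤ K.card →
              Real.log K'.card ≤ Λ := fun K' h => (log_mono h).trans hlog
          -- phase 1
          obtain ⟨t₁, ht₁⟩ := ihg (d + 1) E o
            ((K.filter fun p => Disjoint o.1 (tgt M p.1 p.2 E)).image
              fun p => (p.1, p.2 \ tgt M p.1 p.2 E))
            (hlogle _ (card_image_le.trans (card_le_card (filter_subset _ _)))) hEd hE (by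
              intro q hq
              obtain ⟨p, hp, rfl⟩ := mem_image.1 hq
              obtain ⟨hp1, hp2⟩ := mem_filter.1 hp
              obtain ⟨b1, b2, b3⟩ := hcons p hp1
              exact ⟨b1, b2, fun i hi => mem_sdiff.2 ⟨b3 hi, disjoint_left.1 hp2 hi⟩⟩) (by
              intro q hq
              obtain ⟨p, hp, rfl⟩ := mem_image.1 hq
              exact hsize p (mem_filter.1 hp).1 E (Subset.refl _))
          -- the facet which is met
          set H : Ω × Finset R → Option R := fun p =>
            if h : ∃ j ∈ tgt M p.1 p.2 E, ∃ o' ∈ o :: play (M.inst p.1) t₁ o.1, j ∈ o'.1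
              then some h.choose else none with hH
          obtain ⟨τ, hτ⟩ := exists_popular K H
          rw [← hD] at hτ
          set G := K.filter fun p => H p = τ with hG
          -- the first part of the strategy
          obtain ⟨τ₁, hτ₁⟩ : ∃ τ₁ : Str R, τ₁ = cut t₁ o.1 τ := ⟨_, rfl⟩
          have hsafe : Safe E τ₁ o.2 := by
            rw [hτ₁]
            cases τ with
            | none => exact ht₁.1
            | some j => exact safe_trunc E j t₁ o.1 o.2 ht₁.1
          have hlen : ∀ ω, M.V ω o.1 → (M.inst ω).ob o.1 = o →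
              ((play (M.inst ω) τ₁ o.1).length : ℝ) ≤ C := by
            intro ω hV ho
            have h1 := ht₁.2.1 ω hV ho
            have h2 : (play (M.inst ω) τ₁ o.1).length ≤ (play (M.inst ω) t₁ o.1).length := by
              rw [hτ₁]
              cases τ with
              | none => exact le_rfl
              | some j => exact (trunc_prefix (M.inst ω) j t₁ o.1).length_le
            have h3 : ((play (M.inst ω) τ₁ o.1).length : ℝ) ≤
                (play (M.inst ω) t₁ o.1).length := by
              exact_mod_cast h2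
            exact h3.trans h1
          have hX1 : C ≤ X := by rw [hX]; linarith
          -- recursion for smaller classes
          have hrec : ∀ (o : Obs R) (K' : Finset (Ω × Finset R)), K'.Nonempty →
              D * K'.card + K.card ≤ D * K.card → E ⊆ o.1 →
              Cons M o K' → (∀ p ∈ K', Dp M N₀ (g + 1) p.1 p.2 E) →
              ∃ t, W M E o K' t (cost D X (d + 1) K'.card) := by
            intro o' K' hne' hc hE' hcons' hsize'
            have hlt : K'.card < K.card := by
              by_contra hcon
              have := Nat.mul_le_mul_left D (not_lt.1 hcon)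
              omega
            exact ihN E o' K' (by omega) (hlogle K' hlt.le) hEd hE' hcons' hsize'
          refine comp_works M E o K τ₁ _ hE hcons hsafe fun l => ?_
          set o₁ := lst o l with ho₁
          set K₁ := surv M K τ₁ o.1 l with hK₁
          have hK₁' : K₁ ⊆ K := surv_subset M _ _ _ _
          by_cases hstop₁ : K₁ = ∅ ∨ o₁.2 ⊆ E
          · refine ⟨stop, fun _ => 0, stop_works M E _ _ _ (fun _ _ => le_rfl) ?_, ?_⟩
            · rintro ⟨p, hp⟩
              rcases hstop₁ with h | h
              · rw [h] at hp; simp at hp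
              · exact h
            · intro ω hV ho hl x hx
              have h1 := hlen ω hV ho
              rw [hl] at h1
              have h2 := log_mono (hx.trans (card_le_card hK₁'))
              unfold cost
              push_cast
              have h3 : 0 ≤ ((d : ℝ) + 1) ^ 2 * D * X *
                  (Real.log K.card - Real.log x) := by
                apply mul_nonneg (by positivity); linarith
              have h4 : X ≤ ((d : ℝ) + 1) * X := by
                nlinarith [(Nat.cast_nonneg d : (0 : ℝ) ≤ d)]
              linarith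
          push Not at hstop₁
          obtain ⟨hne₁, hnt₁⟩ := hstop₁
          have hcons₁ : Cons M o₁ K₁ := hcons.surv M hE hsafe l
          have hE₁ : E ⊆ o₁.1 := hcons.face M hE hsafe l hne₁
          -- a step of the recursion if the popular members have been eliminated
          have hfinish : K₁ ⊆ K \ G → ∃ (g' : Str R) (c' : ℕ → ℝ), W M E o₁ K₁ g' c' ∧
              ∀ ω, M.V ω o.1 → (M.inst ω).ob o.1 = o → play (M.inst ω) τ₁ o.1 = l →
                ∀ x ≤ K₁.card, (l.length : ℝ) + c' x ≤ cost D X (d + 1) K.card x := by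
            intro helim
            have hcardK₁ : D * K₁.card + K.card ≤ D * K.card := by
              have h1 := card_le_card helim
              have hGK : G ⊆ K := filter_subset _ _
              rw [card_sdiff_of_subset hGK] at h1
              have h2 : G.card ≤ K.card := card_le_card hGK
              have h3 : K₁.card + G.card ≤ K.card := by omega
              calc D * K₁.card + K.card ≤ D * K₁.card + D * G.card := by omega
                _ = D * (K₁.card + G.card) := by ring
                _ ≤ D * K.card := Nat.mul_le_mul_left _ h3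
            obtain ⟨t, ht⟩ := hrec o₁ K₁ hne₁ hcardK₁ hE₁ hcons₁ fun p hp => hsize p (hK₁' hp)
            refine ⟨t, _, ht, ?_⟩
            intro ω hV ho hl x hx
            have h1 := hlen ω hV ho
            rw [hl] at h1
            have h2 := log_gap hD1 (card_pos.2 hne₁) hcardK₁
            unfold cost
            push_cast
            set y := Real.log K.card - Real.log K₁.card with hy
            have e1 : ((d : ℝ) + 1) ^ 2 * D * X * (Real.log K.card - Real.log x) =
                ((d : ℝ) + 1) ^ 2 * D * X * (Real.log K₁.card - Real.log x) +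
                ((d : ℝ) + 1) ^ 2 * X * (D * y) := by rw [hy]; ring
            have e2 : X ≤ ((d : ℝ) + 1) ^ 2 * X * (D * y) := by
              calc X = 1 * X * 1 := by ring
                _ ≤ ((d : ℝ) + 1) ^ 2 * X * (D * y) := by
                    have hd0 : (0 : ℝ) ≤ d := Nat.cast_nonneg d
                    have : (1 : ℝ) ≤ ((d : ℝ) + 1) ^ 2 := by nlinarith
                    gcongr
            rw [e1]
            linarith
          cases hτc : τ with
          | none =>
            apply hfinish
            intro p hp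
            obtain ⟨a1, a2, a3⟩ := (mem_surv M).1 hp
            rw [mem_sdiff]
            refine ⟨a1, fun hpG => hnt₁ ?_⟩
            have hHp : H p = none := by rw [(mem_filter.1 hpG).2, hτc]
            have hno : ¬ ∃ j ∈ tgt M p.1 p.2 E, ∃ o' ∈ o :: play (M.inst p.1) t₁ o.1,
                j ∈ o'.1 := by
              intro h
              rw [hH] at hHp
              simp only at hHp
              rw [dif_pos h] at hHp
              simp at hHp
            push Not at hno
            have hτ₁' : τ₁ = t₁ := by rw [hτ₁, hτc]; rfl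
            rw [hτ₁'] at a2
            have hdis : Disjoint o.1 (tgt M p.1 p.2 E) := by
              rw [disjoint_left]
              intro i hi hi2
              exact hno i hi2 o (List.mem_cons_self) hi
            have h1 := ht₁.2.2 (p.1, p.2 \ tgt M p.1 p.2 E)
              (mem_image_of_mem (fun p => (p.1, p.2 \ tgt M p.1 p.2 E))
                (mem_filter.2 ⟨a1, hdis⟩)) (by
                intro o' ho'
                simp only at ho' ⊢
                intro i hi
                rw [mem_sdiff]
                refine ⟨a3 o' (by rw [← a2]; exact ho') hi, fun hi2 => ?_⟩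
                exact hno i hi2 o' (List.mem_cons_of_mem _ ho') hi)
            simp only at h1
            rw [a2] at h1
            exact h1
          | some j =>
            have hτ₁' : τ₁ = trunc j t₁ o.1 := by rw [hτ₁, hτc]; rfl
            have hGspec : ∀ p ∈ G, j ∈ tgt M p.1 p.2 E ∧
                ∃ o' ∈ o :: play (M.inst p.1) t₁ o.1, j ∈ o'.1 := by
              intro p hpG
              have hHp : H p = some j := by rw [(mem_filter.1 hpG).2, hτc]
              rw [hH] at hHp
              simp only at hHp
              split_ifs at hHp with h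
              have := h.choose_spec
              rw [Option.some.injEq] at hHp
              rw [hHp] at this
              exact this
            by_cases hj : j ∈ o₁.1
            · -- phase 2
              have hGne : G.Nonempty := by
                rw [nonempty_iff_ne_empty]
                intro h
                rw [h, card_empty, mul_zero] at hτ
                omega
              have hjE : j ∉ E := by
                obtain ⟨p, hp⟩ := hGne
                exact ((mem_tgt M).1 (hGspec p hp).1).1.2
              obtain ⟨t, ht⟩ := phase2 M (X := X) (C := C) hD1 hC0 hX K hEd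
                (fun E' o' K' hc hEd' hE' hcons' hsz => ihd K'.card E' o' K' le_rfl
                  (hlogle K' hc) hEd' hE' hcons' hsz)
                hrec hsize hjE G (filter_subset _ _) (fun p hp => (hGspec p hp).1) hτ o₁ K₁ hK₁'
                hE₁ hcons₁ hj
              refine ⟨t, _, ht, ?_⟩
              intro ω hV ho hl x hx
              have h1 := hlen ω hV ho
              rw [hl] at h1
              linarith
            · -- not met
              apply hfinish
              intro p hp
              obtain ⟨a1, a2, a3⟩ := (mem_surv M).1 hp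
              rw [mem_sdiff]
              refine ⟨a1, fun hpG => ?_⟩
              obtain ⟨-, o', ho', hjo'⟩ := hGspec p hpG
              rw [hτ₁'] at a2
              have hob := (hcons p a1).2.1
              have h1 := trunc_not (M.inst p.1) j t₁ o.1 (by rw [hob, a2]; exact hj)
              rw [List.mem_cons] at ho'
              rcases ho' with h | h
              · rw [h] at hjo'; exact h1.2.1 hjo'
              · exact h1.2.2 o' h hjo'
    intro d E o K hlog hEd hE hcons hdp
    obtain ⟨t, ht⟩ := main d K.card E o K le_rfl hlog hEd hE hcons hdp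
    refine ⟨t, ht.mono M fun x hx => ?_⟩
    unfold cost
    have hx0 : 0 ≤ Real.log x := Real.log_natCast_nonneg x
    have hd : (d : ℝ) ≤ n := by
      have : d ≤ n := by omega
      exact_mod_cast this
    have hd0 : (0 : ℝ) ≤ d := Nat.cast_nonneg d
    have h1 : (d : ℝ) ^ 2 * D * X * (Real.log K.card - Real.log x) ≤
        (n : ℝ) ^ 2 * D * X * Λ := by
      have h2 : (d : ℝ) ^ 2 * D * X ≤ (n : ℝ) ^ 2 * D * X := by gcongr
      calc (d : ℝ) ^ 2 * D * X * (Real.log K.card - Real.log x)
          ≤ (d : ℝ) ^ 2 * D * X * Λ := by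
            apply mul_le_mul_of_nonneg_left (by linarith) (by positivity)
        _ ≤ _ := mul_le_mul_of_nonneg_right h2 hΛ
    have h3 : (d : ℝ) * X ≤ n * X := mul_le_mul_of_nonneg_right hd hX0
    calc (d : ℝ) * X + (d : ℝ) ^ 2 * D * X * (Real.log K.card - Real.log x)
        ≤ n * X + (n : ℝ) ^ 2 * D * X * Λ := add_le_add h3 h1
      _ = CC Q N₀ (g + 1) := by
          have : CC Q N₀ (g + 1) = Q * (1 + C) := rfl
          rw [this, hQ, hX]
          ring

end Pool.Agent.J4H23.Box
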