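import Pool.Agent.J4H23.Box.Lp
set_option autoImplicit false

/-!
# A pivot rule which is polynomial on products of simplices
-/

namespace Pool.Agent.J4H23.Box

open Finset Matrix Pool.Agent.N597.QP Pool.Agent.N597.QP.Str

variable {m n : ℕ} {A : Fin m → Fin n → ℝ} {b : Fin m → ℝ} {c : Fin n → ℝ}

/-- the type of a linear program -/
noncomputable def typ (hA : Nondeg A b) (hb : ∃ μ, ∀ p, Feas A b p → c ⬝ᵥ p ≤ μ) :
    {ω // ω ∈ types m n} := ⟨(VV A b, SS A b c), A, b, c, hA, hb, rfl⟩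

/-- the quasi-polynomial strategy -/
lemma quasi (hm : 1 ≤ m) (hnm : n ≤ m) (o : Obs (Fin m)) :
    ∃ t : Str (Fin m), Safe ∅ t o.2 ∧ ∀ ω : {ω // ω ∈ types m n}, (model m n).V ω o.1 →
      ((model m n).inst ω).ob o.1 = o →
      (play ((model m n).inst ω) t o.1).length ≤ (75 * m ^ 7) ^ (Nat.log 2 m + 1) ∧
      (lst o (play ((model m n).inst ω) t o.1)).2 ⊆ ∅ := by
  classical
  set M := model m n with hM
  have : Finite {ω // ω ∈ types m n} := (types_finite m n).1
  have : Fintype {ω // ω ∈ types m n} := Fintype.ofFinite _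
  set Λ : ℝ := 12 * m ^ 4 with hΛ
  have hm0 : (1 : ℝ) ≤ m := by exact_mod_cast hm
  have hΛ0 : 0 ≤ Λ := by positivity
  set Q : ℝ := n + n ^ 2 * ((Fintype.card (Fin m) + 1 : ℕ) : ℝ) * Λ with hQ
  have hQ0 : 0 ≤ Q := by positivity
  have hQ' : Q ≤ 25 * m ^ 7 := by
    have hn0 : (n : ℝ) ≤ m := by exact_mod_cast hnm
    rw [hQ, hΛ, Fintype.card_fin]
    push_cast
    have e1 : (n : ℝ) ^ 2 ≤ m ^ 2 := by gcongr
    have e2 : (m : ℝ) + 1 ≤ 2 * m := by linarith
    have e3 : (n : ℝ) ^ 2 * (m + 1) ≤ m ^ 2 * (2 * m) := mul_le_mul e1 e2 (by positivity)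
      (by positivity)
    have e4 : (n : ℝ) ^ 2 * (m + 1) * (12 * m ^ 4) ≤ m ^ 2 * (2 * m) * (12 * m ^ 4) :=
      mul_le_mul_of_nonneg_right e3 (by positivity)
    have e5 : (m : ℝ) ≤ m ^ 7 := le_self_pow₀ hm0 (by norm_num)
    nlinarith
  set s := Nat.log 2 m + 1 with hs
  have hms : m < 2 ^ s := Nat.lt_pow_succ_log_self (by norm_num) m
  set K : Finset ({ω // ω ∈ types m n} × Finset (Fin m)) :=
    (univ.filter fun ω => M.V ω o.1 ∧ (M.inst ω).ob o.1 = o).image fun ω => (ω, univ) with hK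
  have hKcard : K.card ≤ (types m n).ncard := by
    refine card_image_le.trans ((card_filter_le _ _).trans ?_)
    rw [card_univ, ← Nat.card_eq_fintype_card]
    exact le_of_eq rfl
  obtain ⟨t, s1, s2, s3⟩ : ∃ t, W M ∅ o K t (cost (Fintype.card (Fin m) + 1) (XX Q s) n K.card) := by
    refine exists_works M Λ hΛ0 s n K.card ∅ o K le_rfl
      (log_types hm hnm _ hKcard) (by simp) (empty_subset _) ?_ ?_
    · intro p hp
      obtain ⟨ω, hω, rfl⟩ := mem_image.1 hp
      obtain ⟨a1, a2⟩ := (mem_filter.1 hω).2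
      exact ⟨a1, a2, subset_univ _⟩
    · intro p hp
      obtain ⟨ω, hω, rfl⟩ := mem_image.1 hp
      simpa using hms
  refine ⟨t, s1, fun ω hV ho => ⟨?_, ?_⟩⟩
  · have h3 := s2 ω hV ho
    have h4 : cost (Fintype.card (Fin m) + 1) (XX Q s) n K.card
        (surv M K t o.1 (play (M.inst ω) t o.1)).card ≤ Q * XX Q s := by
      unfold cost
      have e1 : Real.log K.card ≤ Λ := log_types hm hnm _ hKcard
      have e2 : 0 ≤ Real.log (surv M K t o.1 (play (M.inst ω) t o.1)).card :=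
        Real.log_natCast_nonneg _
      have e3 := XX_nonneg hQ0 s
      have e4 : (n : ℝ) ^ 2 * ((Fintype.card (Fin m) + 1 : ℕ) : ℝ) * XX Q s *
          (Real.log K.card - Real.log (surv M K t o.1 (play (M.inst ω) t o.1)).card) ≤
          (n : ℝ) ^ 2 * ((Fintype.card (Fin m) + 1 : ℕ) : ℝ) * XX Q s * Λ :=
        mul_le_mul_of_nonneg_left (by linarith) (by positivity)
      calc _ ≤ n * XX Q s + (n : ℝ) ^ 2 * ((Fintype.card (Fin m) + 1 : ℕ) : ℝ) * XX Q s * Λ := by
            linarith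
        _ = Q * XX Q s := by rw [hQ]; ring
    have h5 : Q * XX Q s ≤ (3 * (25 * (m : ℝ) ^ 7)) ^ s := by
      apply XX_le hQ0 hQ'
      have : (1 : ℝ) ≤ m ^ 7 := one_le_pow₀ hm0
      linarith
    have h6 : ((play (M.inst ω) t o.1).length : ℝ) ≤ (((75 * m ^ 7) ^ s : ℕ) : ℝ) := by
      push_cast
      have e : (3 * (25 * (m : ℝ) ^ 7)) = 75 * m ^ 7 := by ring
      rw [e] at h5
      linarith
    exact_mod_cast h6
  · exact s3 (ω, univ) (mem_image_of_mem _ (mem_filter.2 ⟨mem_univ _, hV, ho⟩))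
      fun o' _ => subset_univ _

/-- the polynomial strategy -/
lemma poly (hm : 1 ≤ m) (hnm : n ≤ m) (o : Obs (Fin m)) :
    ∃ t : Str (Fin m), Safe ∅ t o.2 ∧ ∀ ω : {ω // ω ∈ types m n}, (model m n).V ω o.1 →
      ((model m n).inst ω).ob o.1 = o →
      (play ((model m n).inst ω) t o.1).length ≤ n + 12 * m ^ 5 * (n * (n + 1)) ∧
      (Direct (model m n) ω → (lst o (play ((model m n).inst ω) t o.1)).2 ⊆ ∅) := by
  classical
  set M := model m n with hM
  have : Finite {ω // ω ∈ types m n} := (types_finite m n).1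
  have : Fintype {ω // ω ∈ types m n} := Fintype.ofFinite _
  set K : Finset ({ω // ω ∈ types m n} × Finset (Fin m)) :=
    (univ.filter fun ω => M.V ω o.1 ∧ (M.inst ω).ob o.1 = o ∧ Direct M ω).image
      fun ω => (ω, univ) with hK
  have hKcard : K.card ≤ (types m n).ncard := by
    refine card_image_le.trans ((card_filter_le _ _).trans ?_)
    rw [card_univ, ← Nat.card_eq_fintype_card]
    exact le_of_eq rfl
  obtain ⟨t, s1, s2, s3⟩ : ∃ t, W M ∅ o K t (cst (2 * Fintype.card (Fin m)) n K.card) := by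
    refine works (optMax_model m n) n K.card ∅ o K le_rfl (by simp) (empty_subset _) ?_ ?_
    · intro p hp
      obtain ⟨ω, hω, rfl⟩ := mem_image.1 hp
      obtain ⟨a1, a2, -⟩ := (mem_filter.1 hω).2
      exact ⟨a1, a2, subset_univ _⟩
    · intro p hp
      obtain ⟨ω, hω, rfl⟩ := mem_image.1 hp
      exact ⟨rfl, (mem_filter.1 hω).2.2.2⟩
  refine ⟨t, s1, fun ω hV ho => ⟨?_, fun hD => ?_⟩⟩
  · have h3 := s2 ω hV ho
    unfold cst at h3
    have e1 : Real.log K.card ≤ 12 * m ^ 4 := log_types hm hnm _ hKcard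
    have e2 : 0 ≤ Real.log (surv M K t o.1 (play (M.inst ω) t o.1)).card :=
      Real.log_natCast_nonneg _
    rw [Fintype.card_fin] at h3
    push_cast at h3
    have e4 : (2 * m : ℝ) * (n * (n + 1) / 2) *
        (Real.log K.card - Real.log (surv M K t o.1 (play (M.inst ω) t o.1)).card) ≤
        (2 * m : ℝ) * (n * (n + 1) / 2) * (12 * m ^ 4) :=
      mul_le_mul_of_nonneg_left (by linarith) (by positivity)
    have h6 : ((play (M.inst ω) t o.1).length : ℝ) ≤
        ((n + 12 * m ^ 5 * (n * (n + 1)) : ℕ) : ℝ) := by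
      push_cast
      calc _ ≤ _ := h3
        _ ≤ (n : ℝ) + (2 * m : ℝ) * (n * (n + 1) / 2) * (12 * m ^ 4) := by linarith
        _ = _ := by ring
    exact_mod_cast h6
  · exact s3 (ω, univ) (mem_image_of_mem _ (mem_filter.2 ⟨mem_univ _, hV, ho, hD⟩))
      fun o' _ => subset_univ _

theorem main (m n : ℕ) (hm : 1 ≤ m) :
    ∃ rule : List (Finset (Fin m) × Finset (Fin m)) → Fin m,
      ∀ (A : Fin m → Fin n → ℝ) (b : Fin m → ℝ) (c : Fin n → ℝ), Nondeg A b →
        (∃ μ, ∀ p, Feas A b p → c ⬝ᵥ p ≤ μ) → ∀ q₀ : Fin n → ℝ, IsVertex A b q₀ →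
        ∃ (T : ℕ) (q : ℕ → Fin n → ℝ), q 0 = q₀ ∧ (∀ t ≤ T, IsVertex A b (q t)) ∧
          (∀ t < T, c ⬝ᵥ q t < c ⬝ᵥ q (t + 1) ∧
            rule (seen A b c q t) ∈ improv A b c (q t) ∧
            (tight A b (q t)).erase (rule (seen A b c q t)) ⊆ tight A b (q (t + 1))) ∧
          (∀ p, Feas A b p → c ⬝ᵥ p ≤ c ⬝ᵥ q T) ∧
          (DirectLP A b c → T ≤ n + 12 * m ^ 5 * (n * (n + 1))) ∧
          T ≤ n + 12 * m ^ 5 * (n * (n + 1)) + (75 * m ^ 7) ^ (Nat.log 2 m + 1) := by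
  classical
  by_cases hnm : n ≤ m
  swap
  · refine ⟨fun _ => ⟨0, hm⟩, fun A b c hA hb q₀ hq₀ => ?_⟩
    have h1 := hA q₀ hq₀
    have h2 := card_le_univ (tight A b q₀)
    rw [Fintype.card_fin] at h2
    omega
  set M := model m n with hM
  choose t₁ ht₁ using poly (n := n) hm hnm
  choose t₂ ht₂ using quasi (n := n) hm hnm
  set t₀ : Obs (Fin m) → Str (Fin m) := fun o => comp (t₁ o) fun l => t₂ (lst o l) with ht₀
  refine ⟨ruleOf t₀ ⟨0, hm⟩, fun A b c hA hb q₀ hq₀ => ?_⟩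
  set rule := ruleOf t₀ ⟨0, hm⟩ with hrule
  -- the type of this linear program
  set ω₀ : {ω // ω ∈ types m n} := typ hA hb with hω₀
  set f := M.inst ω₀ with hf
  have hfS : f.S = SS A b c := rfl
  have hfN : f.N = NN (VV A b) := rfl
  set B₀ := tight A b q₀ with hB₀
  have hV₀ : M.V ω₀ B₀ := ⟨q₀, hq₀, rfl⟩
  set w := walk f rule B₀ with hw
  have hw0 : w 0 = B₀ := rfl
  set o := f.ob B₀ with ho
  have s1 : Safe ∅ (t₀ o) o.2 := safe_comp ∅ _ _ o (ht₁ o).1 fun l => (ht₂ (lst o l)).1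
  obtain ⟨c1, c2⟩ := follow f t₀ ⟨0, hm⟩ B₀ (t₀ o) 0 rfl s1
  rw [← hrule, ← hw, hw0] at c1 c2
  simp only [Nat.zero_add] at c1 c2
  set T := (play f (t₀ o) B₀).length with hT
  -- all states are vertices
  have hVw : ∀ t ≤ T, VV A b (w t) := by
    intro t
    induction t with
    | zero => intro _; exact hV₀
    | succ t ih =>
      intro ht
      have h2 := ih (by omega)
      have h3 := c1 t (by omega)
      have h4 := M.next_V ω₀ (w t) _ h2 h3
      have h5 : w (t + 1) = f.N (w t) (rule (hist f w t)) := by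
        rw [hw, walk_succ]
      rw [h5]
      exact h4
  set q : ℕ → Fin n → ℝ := fun t => pt A b (w t) with hq
  have hqt : ∀ t ≤ T, IsVertex A b (q t) ∧ tight A b (q t) = w t := fun t ht =>
    pt_spec (hVw t ht)
  have hobs : ∀ t ≤ T, obs A b c (q t) = f.ob (w t) := by
    intro t ht
    obtain ⟨a1, a2⟩ := hqt t ht
    unfold obs Inst.ob
    rw [hfS, ← a2, SS_tight a1]
  have hseen : ∀ t ≤ T, seen A b c q t = hist f w t := by
    intro t
    induction t with
    | zero => intro ht; simp only [seen, hist]; rw [hobs 0 ht]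
    | succ t ih =>
      intro ht
      simp only [seen, hist]
      rw [hobs (t + 1) ht, ih (by omega)]
  -- the two parts
  set l := play f (t₁ o) B₀ with hl
  have hVo : M.V ω₀ o.1 := hV₀
  have hoo : (M.inst ω₀).ob o.1 = o := rfl
  obtain ⟨d1, d2, d3⟩ := valid_lst M hVo (empty_subset _) hoo (ht₁ o).1
  have hl' : play (M.inst ω₀) (t₁ o) o.1 = l := rfl
  rw [hl'] at d1 d3
  have hplay : play f (t₀ o) B₀ = l ++ play f (t₂ (lst o l)) (lst o l).1 := by
    have := play_comp f (t₁ o) (fun l => t₂ (lst o l)) B₀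
    exact this
  have hTsum : T = l.length + (play f (t₂ (lst o l)) (lst o l).1).length := by
    rw [hT, hplay, List.length_append]
  obtain ⟨g1, g2⟩ := (ht₂ (lst o l)).2 ω₀ d1 d3
  obtain ⟨h1, h2⟩ := (ht₁ o).2 ω₀ hVo hoo
  refine ⟨T, q, ?_, fun t ht => (hqt t ht).1, fun t ht => ?_, ?_, fun hD => ?_, ?_⟩
  · show pt A b (w 0) = q₀
    rw [hw0, hB₀, pt_tight hq₀]
  · have h2 := c1 t ht
    have h5 : w (t + 1) = f.N (w t) (rule (hist f w t)) := by rw [hw, walk_succ]
    obtain ⟨a1, a2⟩ := hqt t ht.le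
    obtain ⟨b1, b2⟩ := hqt (t + 1) ht
    rw [hseen t ht.le]
    have h6 : rule (hist f w t) ∈ improv A b c (q t) := by
      rw [← SS_tight a1, a2]; exact h2
    have h7 := NN_spec (exists_next h2).2
    have h8 : (tight A b (q t)).erase (rule (hist f w t)) ⊆ tight A b (q (t + 1)) := by
      rw [a2, b2, h5]; exact h7.2.2
    refine ⟨edge_lt a1 (hA _ a1) h6 b1.1 ?_ h8, h6, h8⟩
    rw [a2, b2, h5]
    exact h7.2.1
  · obtain ⟨a1, a2⟩ := hqt T le_rfl
    intro p hp
    refine face_opt a1 hb (hA _ a1) (E := ∅) ?_ p (by simp) fun i _ => hp i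
    have h3 : lst o (play f (t₀ o) B₀) = f.ob (lst o (play f (t₀ o) B₀)).1 :=
      lst_ob f (t₀ o) B₀
    have h4 : (lst o (play f (t₀ o) B₀)).2 = f.S (w T) := by
      rw [h3, c2]; rfl
    have h5 : (lst o (play f (t₀ o) B₀)).2 ⊆ ∅ := by
      rw [hplay, lst_append]
      exact g2
    rw [h4, hfS] at h5
    rw [← SS_tight a1, a2]
    exact h5
  · have h3 := h2 (direct_model hA hD ω₀ rfl)
    have h3' : (lst o l).2 ⊆ ∅ := h3
    have h4 := (ht₂ (lst o l)).1
    have h5 : (play f (t₂ (lst o l)) (lst o l).1).length = 0 := by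
      cases hst : t₂ (lst o l) with
      | stop => simp [play]
      | go r k =>
        rw [hst] at h4
        exact absurd (h3' h4.1) (notMem_empty _)
    rw [hTsum, h5, Nat.add_zero]
    exact h1
  · have h3 : l.length ≤ n + 12 * m ^ 5 * (n * (n + 1)) := h1
    have h4 : (play f (t₂ (lst o l)) (lst o l).1).length ≤
      (75 * m ^ 7) ^ (Nat.log 2 m + 1) := g1
    omega

end Pool.Agent.J4H23.Box
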