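import Pool.Agent.J4H23.Box.Tgt
import Pool.Agent.J4H23.Box.Lp
import Pool.Agent.Y644.QW.Nest
set_option autoImplicit false

/-!
# Nested block structures have bounded relaxation depth
-/

namespace Pool.Agent.J4H23.Box

open Finset Matrix Pool.Agent.N597.QP Pool.Agent.N597.QP.Str Pool.Agent.Y644.QW

section unroll

variable {R Ω : Type} [DecidableEq R] {n : ℕ} (M : Model R Ω n)

/-- the rows left after `t` relaxations in the faces `Es 0 ⊆ Es 1 ⊆ …` -/
noncomputable def Ss (ω : Ω) (S : Finset R) (Es : ℕ → Finset R) : ℕ → Finset R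
  | 0 => S
  | t + 1 => Ss ω S Es t \ tgt M ω (Ss ω S Es t) (Es t)

lemma Ss_cons (ω : Ω) (S E' : Finset R) (Es : ℕ → Finset R) (t : ℕ) :
    Ss M ω S (fun i => Nat.casesOn i E' Es) (t + 1) = Ss M ω (S \ tgt M ω S E') Es t := by
  induction t with
  | zero => rfl
  | succ t ih =>
    change Ss M ω S (fun i => Nat.casesOn i E' Es) (t + 1) \ tgt M ω
      (Ss M ω S (fun i => Nat.casesOn i E' Es) (t + 1)) (Es t) = _
    rw [ih]
    rfl

lemma Ss_anti (ω : Ω) (S : Finset R) (Es : ℕ → Finset R) {s t : ℕ} (h : s ≤ t) :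
    Ss M ω S Es t ⊆ Ss M ω S Es s := by
  induction t, h using Nat.le_induction with
  | base => exact Subset.refl _
  | succ t _ ih => exact sdiff_subset.trans ih

lemma Dp.of_hist {N₀ : ℕ} {ω : Ω} : ∀ (g : ℕ) (S E : Finset R),
    (∀ Es : ℕ → Finset R, (∀ t, Es t ⊆ Es (t + 1)) → E ⊆ Es 0 →
      nv M ω (Ss M ω S Es g) (Es g) ≤ N₀) → Dp M N₀ g ω S E := by
  intro g
  induction g with
  | zero =>
    intro S E h
    exact h (fun _ => E) (fun _ => Subset.refl _) (Subset.refl _)
  | succ g ih =>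
    intro S E h E' hE'
    apply ih
    intro Es hmono h0
    have h1 := h (fun i => Nat.casesOn i E' Es) (fun t => by
      cases t with
      | zero => exact h0
      | succ t => exact hmono t) hE'
    rw [Ss_cons] at h1
    exact h1

lemma nv_le' {ω : Ω} {S E L : Finset R} (h : ∀ B, M.V ω B → E ⊆ B → B ⊆ S → B \ E ⊆ L) :
    nv M ω S E ≤ 2 ^ L.card := by
  classical
  have h1 : nv M ω S E ≤ L.powerset.card := by
    refine card_le_card_of_injOn (fun B => B \ E) ?_ ?_
    · intro B hB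
      simp only [coe_filter, Set.mem_ofPred_eq, mem_powerset] at hB
      simp only [coe_powerset, Set.mem_preimage, Set.mem_powerset_iff, coe_subset]
      exact h B hB.2.1 hB.2.2 hB.1
    · intro B hB B' hB' heq
      simp only [coe_filter, Set.mem_ofPred_eq, mem_powerset] at hB hB'
      simp only at heq
      rw [← sdiff_union_of_subset hB.2.2, heq, sdiff_union_of_subset hB'.2.2]
  rw [card_powerset] at h1
  exact h1

end unroll

/-! ### Linear algebra -/

/-- the constants: the number of relaxations, the factor of the dimension, and the number of rows -/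
def cs : ℕ → ℕ × ℕ × ℕ
  | 0 => (0, 1, 0)
  | D + 1 => ((cs D).1 + ((2 * (cs D).2.2 + 1) * ((cs D).2.1 * ((cs D).1 + 1)) + 1),
      (cs D).2.1 * ((cs D).1 + 2), 2 * (cs D).2.2 + 1)

section Abstract

variable {n : ℕ} {ρ : Type*}

/-- the bounds for the depth `D` -/
def PN (a : ρ → (Fin n → ℝ) →ₗ[ℝ] ℝ) (D : ℕ) (X : Set (Fin n)) (R : Set ρ) : Prop :=
  Claim a (cs D).1 (cs D).2.1 X R ∧ LiveLe a (cs D).2.2 X R

variable {a : ρ → (Fin n → ℝ) →ₗ[ℝ] ℝ} {D D' : ℕ} {X X₁ X₂ : Set (Fin n)} {R R₁ R₂ : Set ρ}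

lemma PN.succ (h : PN a D X R) : PN a (D + 1) X R :=
  ⟨h.1.mono (Nat.le_add_right _ _) (Nat.le_mul_of_pos_right _ (by omega)),
    h.2.mono (by simp only [cs]; omega)⟩

lemma PN.mono (h : PN a D X R) (hD : D ≤ D') : PN a D' X R := by
  induction D', hD using Nat.le_induction with
  | base => exact h
  | succ k _ ih => exact ih.succ

lemma PN.off (h : Off a R X) : PN a 0 X R := claim_off h

lemma PN.union (hX : Disjoint X₁ X₂) (h₁ : Off a R₁ X₂) (h₂ : Off a R₂ X₁)
    (c₁ : PN a D X₁ R₁) (c₂ : PN a D X₂ R₂) : PN a D (X₁ ∪ X₂) (R₁ ∪ R₂) :=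
  claim_union hX h₁ h₂ c₁ c₂

lemma PN.add (h : PN a D X R) (r : ρ) : PN a (D + 1) X (insert r R) := claim_add h r

end Abstract

variable {m n : ℕ}

/-- The columns `X` and the rows `R` of the matrix `A` form a nested block structure of depth `D`:
`R` has no nonzero entries in `X`; or there are two such structures without common columns, and
the rows of each of them have no nonzero entries in the columns of the other; or one row is added
to a structure of depth `D - 1`. -/
inductive Nested (A : Fin m → Fin n → ℝ) : ℕ → Finset (Fin n) → Finset (Fin m) → Prop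
  | nil (D : ℕ) (X : Finset (Fin n)) (R : Finset (Fin m)) (h : ∀ i ∈ R, ∀ j ∈ X, A i j = 0) :
      Nested A D X R
  | union (D : ℕ) (X₁ X₂ : Finset (Fin n)) (R₁ R₂ : Finset (Fin m)) (hX : Disjoint X₁ X₂)
      (h₁ : ∀ i ∈ R₁, ∀ j ∈ X₂, A i j = 0) (h₂ : ∀ i ∈ R₂, ∀ j ∈ X₁, A i j = 0)
      (c₁ : Nested A D X₁ R₁) (c₂ : Nested A D X₂ R₂) : Nested A D (X₁ ∪ X₂) (R₁ ∪ R₂)
  | add (D : ℕ) (X : Finset (Fin n)) (R : Finset (Fin m)) (i : Fin m) (c : Nested A D X R) :
      Nested A (D + 1) X (insert i R)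

/-- the rows as functionals -/
noncomputable def aa (A : Fin m → Fin n → ℝ) (i : Fin m) : (Fin n → ℝ) →ₗ[ℝ] ℝ where
  toFun x := A i ⬝ᵥ x
  map_add' x y := dotProduct_add _ _ _
  map_smul' s x := by simp [dotProduct_smul]

lemma aa_apply (A : Fin m → Fin n → ℝ) (i : Fin m) (x : Fin n → ℝ) : aa A i x = A i ⬝ᵥ x := rfl

lemma aa_off {A : Fin m → Fin n → ℝ} {X : Finset (Fin n)} {R : Finset (Fin m)}
    (h : ∀ i ∈ R, ∀ j ∈ X, A i j = 0) : Off (aa A) (R : Set (Fin m)) (X : Set (Fin n)) := by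
  intro i hi x hx
  rw [aa_apply, dotProduct]
  refine sum_eq_zero fun j _ => ?_
  by_cases hj : j ∈ X
  · rw [h i (by simpa using hi) j hj, zero_mul]
  · rw [hx j (by simpa using hj), mul_zero]

lemma Nested.pn {A : Fin m → Fin n → ℝ} {D : ℕ} {X : Finset (Fin n)} {R : Finset (Fin m)}
    (h : Nested A D X R) : PN (aa A) D (X : Set (Fin n)) (R : Set (Fin m)) := by
  induction h with
  | nil D X R h => exact (PN.off (aa_off h)).mono (Nat.zero_le _)
  | union D X₁ X₂ R₁ R₂ hX h₁ h₂ _ _ c₁ c₂ =>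
    rw [coe_union, coe_union]
    exact PN.union (disjoint_coe.2 hX) (aa_off h₁) (aa_off h₂) c₁ c₂
  | add D X R i _ c =>
    rw [coe_insert]
    exact PN.add c i

/-- the rows of a vertex -/
lemma z_vertex {A : Fin m → Fin n → ℝ} {b : Fin m → ℝ} {B : Finset (Fin m)} (h : VV A b B) :
    z (aa A) Set.univ (B : Set (Fin m)) = 0 := by
  obtain ⟨q, hq, rfl⟩ := h
  have h1 : Z (aa A) Set.univ ((tight A b q : Finset (Fin m)) : Set (Fin m)) = ⊥ := by
    rw [eq_bot_iff]
    intro x hx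
    rw [Submodule.mem_bot]
    have h2 : q + x = q := hq.2 _ fun i hi => by
      have h3 : A i ⬝ᵥ x = 0 := hx.2 i (by simpa using hi)
      rw [dotProduct_add, h3, add_zero, mem_tight.1 hi]
    simpa using h2
  unfold z
  rw [h1, finrank_bot]

lemma z_empty (A : Fin m → Fin n → ℝ) : z (aa A) Set.univ (∅ : Set (Fin m)) = n := by
  have h1 : Z (aa A) Set.univ (∅ : Set (Fin m)) = ⊤ := by
    rw [eq_top_iff]
    intro x _
    exact ⟨fun j hj => absurd (Set.mem_univ j) hj, fun r hr => absurd hr (Set.notMem_empty r)⟩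
  unfold z
  rw [h1, finrank_top, Module.finrank_fin_fun]

/-- the rows of a vertex are independent -/
lemma exists_dir {A : Fin m → Fin n → ℝ} {b : Fin m → ℝ} {B : Finset (Fin m)} (h : VV A b B)
    (hB : B.card = n) {k : Fin m} (hk : k ∈ B) :
    ∃ x, (∀ i ∈ B, i ≠ k → A i ⬝ᵥ x = 0) ∧ A k ⬝ᵥ x ≠ 0 := by
  classical
  have h1 := z_union_finset (a := aa A) (X := Set.univ) (R := (∅ : Set (Fin m))) (B.erase k)
  rw [z_empty, card_erase_of_mem hk, hB, Set.empty_union] at h1
  have hpos : 0 < n := by rw [← hB]; exact card_pos.2 ⟨k, hk⟩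
  have h2 : 0 < z (aa A) Set.univ ((B.erase k : Finset (Fin m)) : Set (Fin m)) := by omega
  have h3 : Z (aa A) Set.univ ((B.erase k : Finset (Fin m)) : Set (Fin m)) ≠ ⊥ := by
    intro h
    unfold z at h2
    rw [h, finrank_bot] at h2
    exact lt_irrefl _ h2
  obtain ⟨x, hx, hx0⟩ := Submodule.exists_mem_ne_zero_of_ne_bot h3
  have hx1 : ∀ i ∈ B, i ≠ k → A i ⬝ᵥ x = 0 := fun i hi hik =>
    hx.2 i (by rw [mem_coe, mem_erase]; exact ⟨hik, hi⟩)
  refine ⟨x, hx1, fun h0 => hx0 ?_⟩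
  have h4 := z_vertex h
  have h5 : Z (aa A) Set.univ (B : Set (Fin m)) = ⊥ := Submodule.finrank_eq_zero.1 h4
  rw [← Submodule.mem_bot ℝ, ← h5]
  refine ⟨fun j hj => absurd (Set.mem_univ j) hj, fun i hi => ?_⟩
  by_cases hik : i = k
  · rw [hik]; exact h0
  · exact hx1 i (by simpa using hi) hik

/-- exceptional rows -/
lemma z_inter {A : Fin m → Fin n → ℝ} (U : Set (Fin m)) (R : Finset (Fin m)) :
    z (aa A) Set.univ (U ∩ R) ≤ z (aa A) Set.univ U + (univ \ R).card := by
  refine (z_union_finset (univ \ R)).trans (Nat.add_le_add_right (z_mono (le_refl _) ?_) _)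
  intro r hr
  by_cases h : r ∈ R
  · exact Or.inl ⟨hr, by simpa using h⟩
  · exact Or.inr (by simpa using h)

/-- the exponent of the number of vertices which are left -/
def xs (D e : ℕ) : ℕ := (cs D).2.2 * ((cs D).2.1 * ((cs D).1 * (1 + e) + e)) + e

/-- **Nested block structures have bounded relaxation depth.** -/
theorem Nested.dp {A : Fin m → Fin n → ℝ} {b : Fin m → ℝ} {c : Fin n → ℝ} (hA : Nondeg A b)
    (ω : {ω // ω ∈ types m n}) (hω : ω.1 = (VV A b, SS A b c)) {D : ℕ} {R : Finset (Fin m)}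
    (hn : Nested A D univ R) :
    Dp (model m n) (2 ^ xs D (m - R.card)) (cs D).1 ω univ ∅ := by
  classical
  set M := model m n with hM
  have hVdef : ∀ B, M.V ω B ↔ VV A b B := fun B => by
    change ω.1.1 B ↔ _
    rw [hω]
  have hcard : ∀ B, VV A b B → B.card = n := by
    rintro B ⟨q, hq, rfl⟩
    exact hA q hq
  apply Dp.of_hist
  intro Es hmono _
  set G := (cs D).1 with hG
  set e := m - R.card with he
  have hec : (univ \ R).card = e := by
    rw [card_sdiff_of_subset (subset_univ _), card_univ, Fintype.card_fin]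
  set U := Ss M ω univ Es with hU
  by_cases hne : ∃ B, M.V ω B ∧ Es G ⊆ B ∧ B ⊆ U G
  swap
  · have h0 : nv M ω (U G) (Es G) = 0 := by
      unfold nv
      rw [card_eq_zero, filter_eq_empty_iff]
      rintro B hB ⟨h1, h2⟩
      exact hne ⟨B, h1, h2, mem_powerset.1 hB⟩
    rw [h0]
    exact Nat.zero_le _
  obtain ⟨B₀, b1, b2, b3⟩ := hne
  have hEle : ∀ {s t}, s ≤ t → Es s ⊆ Es t := fun {s t} h =>
    monotone_nat_of_le_succ (f := Es) hmono h
  -- the history
  have hy : Hyp (fun t => ((Es t : Finset (Fin m)) : Set (Fin m)))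
      (fun t => ((tgt M ω (U t) (Es t) : Finset (Fin m)) : Set (Fin m)))
      (fun t => ((U t : Finset (Fin m)) : Set (Fin m))) := by
    refine ⟨fun t => coe_subset.2 (hmono t), fun t => coe_subset.2 sdiff_subset, fun t => ?_,
      fun t => ?_⟩
    · intro i hi
      have : i ∈ tgt M ω (U t) (Es t) := by simpa using hi
      simpa using ((mem_tgt M).1 this).1.1
    · rw [disjoint_coe]
      exact disjoint_sdiff
  obtain ⟨hC, hL⟩ := hn.pn
  have h1 := hC _ _ _ hy
  simp only [coe_univ] at h1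
  -- each step
  have h2 : ∀ t < G, z (aa A) Set.univ (((Es t : Set (Fin m)) ∪
      (tgt M ω (U t) (Es t) : Finset (Fin m))) ∩ R) ≤ 1 + e := by
    intro t ht
    rw [← hec]
    refine (z_inter _ R).trans (Nat.add_le_add_right ?_ _)
    have hEB : Es t ⊆ B₀ := (hEle ht.le).trans b2
    have hBU : B₀ ⊆ U t := b3.trans (Ss_anti M ω univ Es ht.le)
    obtain ⟨u, hu⟩ := exists_best (M := M) ω b1 hEB hBU
    have h3 : z (aa A) Set.univ (u : Set (Fin m)) = 0 := z_vertex ((hVdef u).1 hu.1.1)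
    set F := (u \ Es t) \ tgt M ω (U t) (Es t) with hF
    have h4 : F.card ≤ 1 := by
      rw [card_le_one]
      intro k hk k' hk'
      obtain ⟨c1, c2⟩ := mem_sdiff.1 hk
      obtain ⟨d1, d2⟩ := mem_sdiff.1 hk'
      exact hu.unique (optMax_model m n) c1 d1 c2 d2
    have h5 := z_union_finset (a := aa A) (X := Set.univ)
      (R := ((Es t : Set (Fin m)) ∪ (tgt M ω (U t) (Es t) : Finset (Fin m)))) F
    have h6 : z (aa A) Set.univ (((Es t : Set (Fin m)) ∪
        (tgt M ω (U t) (Es t) : Finset (Fin m))) ∪ F) ≤ z (aa A) Set.univ (u : Set (Fin m)) := by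
      refine z_mono (le_refl _) fun i hi => ?_
      by_cases hiE : i ∈ Es t
      · exact Or.inl (Or.inl (by simpa using hiE))
      by_cases hiT : i ∈ tgt M ω (U t) (Es t)
      · exact Or.inl (Or.inr (by simpa using hiT))
      · refine Or.inr ?_
        rw [mem_coe, hF, mem_sdiff, mem_sdiff]
        exact ⟨⟨by simpa using hi, hiE⟩, hiT⟩
    omega
  have h3 : z (aa A) Set.univ ((U G : Set (Fin m)) ∩ R) ≤ e := by
    have := z_inter (A := A) (U G : Set (Fin m)) R
    have h4 : z (aa A) Set.univ (U G : Set (Fin m)) ≤ z (aa A) Set.univ (B₀ : Set (Fin m)) :=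
      z_mono (le_refl _) (coe_subset.2 b3)
    rw [z_vertex ((hVdef B₀).1 b1)] at h4
    omega
  have h4 : z (aa A) Set.univ ((Es G : Set (Fin m)) ∩ R) ≤
      (cs D).2.1 * (G * (1 + e) + e) := by
    refine h1.trans (Nat.mul_le_mul_left _ (Nat.add_le_add ?_ h3))
    calc ∑ t ∈ range G, z (aa A) Set.univ (((Es t : Set (Fin m)) ∪
          (tgt M ω (U t) (Es t) : Finset (Fin m))) ∩ R)
        ≤ ∑ t ∈ range G, (1 + e) := sum_le_sum fun t ht => h2 t (mem_range.1 ht)
      _ = G * (1 + e) := by rw [sum_const, card_range, smul_eq_mul]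
  -- live rows
  set F := (R.filter fun k => ∃ x ∈ Z (aa A) Set.univ ((Es G : Set (Fin m)) ∩ R),
    aa A k x ≠ 0) with hF
  have h5 : F.card ≤ (cs D).2.2 * ((cs D).2.1 * (G * (1 + e) + e)) := by
    have := hL (Es G : Set (Fin m)) F fun r hr => by
      obtain ⟨c1, c2⟩ := mem_filter.1 hr
      simp only [coe_univ]
      exact ⟨by simpa using c1, c2⟩
    simp only [coe_univ] at this
    exact this.trans (Nat.mul_le_mul_left _ h4)
  have h6 : nv M ω (U G) (Es G) ≤ 2 ^ (F ∪ (univ \ R)).card := by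
    apply nv_le'
    intro B hV hE _ k hk
    obtain ⟨c1, c2⟩ := mem_sdiff.1 hk
    rw [mem_union]
    by_cases hkR : k ∈ R
    · left
      obtain ⟨x, hx, hx'⟩ := exists_dir ((hVdef B).1 hV) (hcard B ((hVdef B).1 hV)) c1
      refine mem_filter.2 ⟨hkR, x, ⟨fun j hj => absurd (Set.mem_univ j) hj, fun i hi => ?_⟩, hx'⟩
      have hi' : i ∈ Es G := by simpa using hi.1
      exact hx i (hE hi') fun h => c2 (h ▸ hi')
    · right
      exact mem_sdiff.2 ⟨mem_univ _, hkR⟩
  refine h6.trans (Nat.pow_le_pow_right (by norm_num) ?_)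
  refine (card_union_le _ _).trans ?_
  rw [hec]
  exact Nat.add_le_add_right h5 _

end Pool.Agent.J4H23.Box
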