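import Pool.Agent.J4H23.Box.Univ
set_option autoImplicit false

/-!
# The universal rule for linear programs
-/

namespace Pool.Agent.J4H23.Box

open Finset Matrix Pool.Agent.N597.QP Pool.Agent.N597.QP.Str

variable {m n : ℕ} {A : Fin m → Fin n → ℝ} {b : Fin m → ℝ} {c : Fin n → ℝ}

/-- following a strategy on a linear program -/
theorem walk_lp (hm : 1 ≤ m) (s : Obs (Fin m) → Str (Fin m)) (hs : ∀ o, Safe ∅ (s o) o.2)
    (hsol : ∀ (ω : {ω // ω ∈ types m n}) (o : Obs (Fin m)), (model m n).V ω o.1 →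
      ((model m n).inst ω).ob o.1 = o → (lst o (play ((model m n).inst ω) (s o) o.1)).2 ⊆ ∅) :
    ∃ rule : List (Finset (Fin m) × Finset (Fin m)) → Fin m,
      ∀ (A : Fin m → Fin n → ℝ) (b : Fin m → ℝ) (c : Fin n → ℝ) (hA : Nondeg A b)
        (hb : ∃ μ, ∀ p, Feas A b p → c ⬝ᵥ p ≤ μ), ∀ q₀ : Fin n → ℝ, IsVertex A b q₀ →
        ∃ (T : ℕ) (q : ℕ → Fin n → ℝ), q 0 = q₀ ∧ (∀ t ≤ T, IsVertex A b (q t)) ∧
          (∀ t < T, c ⬝ᵥ q t < c ⬝ᵥ q (t + 1) ∧
            rule (seen A b c q t) ∈ improv A b c (q t) ∧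
            (tight A b (q t)).erase (rule (seen A b c q t)) ⊆ tight A b (q (t + 1))) ∧
          (∀ p, Feas A b p → c ⬝ᵥ p ≤ c ⬝ᵥ q T) ∧
          ∃ o : Obs (Fin m), (model m n).V (typ hA hb) o.1 ∧
            ((model m n).inst (typ hA hb)).ob o.1 = o ∧
            T = (play ((model m n).inst (typ hA hb)) (s o) o.1).length := by
  classical
  set M := model m n with hM
  refine ⟨ruleOf s ⟨0, hm⟩, fun A b c hA hb q₀ hq₀ => ?_⟩
  set rule := ruleOf s ⟨0, hm⟩ with hrule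
  -- the type of this linear program
  set ω₀ : {ω // ω ∈ types m n} := typ hA hb with hω₀
  set f := M.inst ω₀ with hf
  have hfS : f.S = SS A b c := rfl
  have hfN : f.N = NN (VV A b) := rfl
  set B₀ := tight A b q₀ with hB₀
  have hV₀ : M.V ω₀ B₀ := ⟨q₀, hq₀, rfl⟩
  set w := walk f rule B₀ with hw
  have hw0 : w 0 = B₀ := rfl
  set o := f.ob B₀ with ho
  obtain ⟨c1, c2⟩ := follow f s ⟨0, hm⟩ B₀ (s o) 0 rfl (hs o)
  rw [← hrule, ← hw, hw0] at c1 c2
  simp only [Nat.zero_add] at c1 c2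
  set T := (play f (s o) B₀).length with hT
  -- all states are vertices
  have hVw : ∀ t ≤ T, VV A b (w t) := by
    intro t
    induction t with
    | zero => intro _; exact hV₀
    | succ t ih =>
      intro ht
      have h2 := ih (by omega)
      have h3 := c1 t (by omega)
      have h4 := M.next_V ω₀ (w t) _ h2 h3
      have h5 : w (t + 1) = f.N (w t) (rule (hist f w t)) := by
        rw [hw, walk_succ]
      rw [h5]
      exact h4
  set q : ℕ → Fin n → ℝ := fun t => pt A b (w t) with hq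
  have hqt : ∀ t ≤ T, IsVertex A b (q t) ∧ tight A b (q t) = w t := fun t ht =>
    pt_spec (hVw t ht)
  have hobs : ∀ t ≤ T, obs A b c (q t) = f.ob (w t) := by
    intro t ht
    obtain ⟨a1, a2⟩ := hqt t ht
    unfold obs Inst.ob
    rw [hfS, ← a2, SS_tight a1]
  have hseen : ∀ t ≤ T, seen A b c q t = hist f w t := by
    intro t
    induction t with
    | zero => intro ht; simp only [seen, hist]; rw [hobs 0 ht]
    | succ t ih =>
      intro ht
      simp only [seen, hist]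
      rw [hobs (t + 1) ht, ih (by omega)]
  refine ⟨T, q, ?_, fun t ht => (hqt t ht).1, fun t ht => ?_, ?_, o, hV₀, rfl, rfl⟩
  · show pt A b (w 0) = q₀
    rw [hw0, hB₀, pt_tight hq₀]
  · have h2 := c1 t ht
    have h5 : w (t + 1) = f.N (w t) (rule (hist f w t)) := by rw [hw, walk_succ]
    obtain ⟨a1, a2⟩ := hqt t ht.le
    obtain ⟨b1, b2⟩ := hqt (t + 1) ht
    rw [hseen t ht.le]
    have h6 : rule (hist f w t) ∈ improv A b c (q t) := by
      rw [← SS_tight a1, a2]; exact h2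
    have h7 := NN_spec (exists_next h2).2
    have h8 : (tight A b (q t)).erase (rule (hist f w t)) ⊆ tight A b (q (t + 1)) := by
      rw [a2, b2, h5]; exact h7.2.2
    refine ⟨edge_lt a1 (hA _ a1) h6 b1.1 ?_ h8, h6, h8⟩
    rw [a2, b2, h5]
    exact h7.2.1
  · obtain ⟨a1, a2⟩ := hqt T le_rfl
    intro p hp
    refine face_opt a1 hb (hA _ a1) (E := ∅) ?_ p (by simp) fun i _ => hp i
    have h3 : lst o (play f (s o) B₀) = f.ob (lst o (play f (s o) B₀)).1 :=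
      lst_ob f (s o) B₀
    have h4 : (lst o (play f (s o) B₀)).2 = f.S (w T) := by
      rw [h3, c2]; rfl
    have h5 : (lst o (play f (s o) B₀)).2 ⊆ ∅ := hsol ω₀ o hV₀ rfl
    rw [h4, hfS] at h5
    rw [← SS_tight a1, a2]
    exact h5

/-- **The universal rule.** -/
theorem umain (m n : ℕ) (hm : 1 ≤ m) :
    ∃ rule : List (Finset (Fin m) × Finset (Fin m)) → Fin m,
      ∀ (A : Fin m → Fin n → ℝ) (b : Fin m → ℝ) (c : Fin n → ℝ) (hA : Nondeg A b)
        (hb : ∃ μ, ∀ p, Feas A b p → c ⬝ᵥ p ≤ μ), ∀ q₀ : Fin n → ℝ, IsVertex A b q₀ →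
        ∃ (T : ℕ) (q : ℕ → Fin n → ℝ), q 0 = q₀ ∧ (∀ t ≤ T, IsVertex A b (q t)) ∧
          (∀ t < T, c ⬝ᵥ q t < c ⬝ᵥ q (t + 1) ∧
            rule (seen A b c q t) ∈ improv A b c (q t) ∧
            (tight A b (q t)).erase (rule (seen A b c q t)) ⊆ tight A b (q (t + 1))) ∧
          (∀ p, Feas A b p → c ⬝ᵥ p ≤ c ⬝ᵥ q T) ∧
          (DirectLP A b c → T ≤ P₁ m n) ∧
          (∀ g N₀, 1 ≤ N₀ → Dp (model m n) N₀ g (typ hA hb) univ ∅ →
            T ≤ P₁ m n + 20 * (m + 1) ^ 2 * ((50 * m ^ 7) ^ g * N₀)) ∧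
          T ≤ P₁ m n + 5 * (m + 1) ^ 2 * Qp m := by
  classical
  by_cases hnm : n ≤ m
  swap
  · refine ⟨fun _ => ⟨0, hm⟩, fun A b c hA hb q₀ hq₀ => ?_⟩
    have h1 := hA q₀ hq₀
    have h2 := card_le_univ (tight A b q₀)
    rw [Fintype.card_fin] at h2
    omega
  obtain ⟨s, hs, hu⟩ := universal (m := m) (n := n) hm hnm
  obtain ⟨rule, hrule⟩ := walk_lp hm s hs fun ω o hV ho => (hu ω o hV ho).1
  refine ⟨rule, fun A b c hA hb q₀ hq₀ => ?_⟩
  obtain ⟨T, q, a1, a2, a3, a4, o, hV, ho, hT⟩ := hrule A b c hA hb q₀ hq₀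
  obtain ⟨-, u2, u3, u4⟩ := hu (typ hA hb) o hV ho
  rw [← hT] at u2 u3 u4
  exact ⟨T, q, a1, a2, a3, a4, fun hD => u2 (direct_model hA hD _ rfl), u3, u4⟩

end Pool.Agent.J4H23.Box
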