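import Pool.Agent.J4H23.Box.NestD
import Pool.Agent.J4H23.Box.UMain
set_option autoImplicit false

/-!
# Nested block structures with exceptional rows and columns
-/

namespace Pool.Agent.J4H23.Box

open Finset Matrix Pool.Agent.N597.QP Pool.Agent.N597.QP.Str Pool.Agent.Y644.QW

variable {m n : ℕ}

/-- the bound for the dimension which is left -/
def ds (D e f : ℕ) : ℕ := (cs D).2.1 * ((cs D).1 * (1 + e) + e) + f

/-- **Nested block structures with exceptional rows and columns.** -/
theorem Nested.dpX {A : Fin m → Fin n → ℝ} {b : Fin m → ℝ} {c : Fin n → ℝ} (hA : Nondeg A b)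
    (ω : {ω // ω ∈ types m n}) (hω : ω.1 = (VV A b, SS A b c)) {D : ℕ} {X : Finset (Fin n)}
    {R : Finset (Fin m)} (hn : Nested A D X R) :
    Dp (model m n) ((m + 1) ^ ds D (m - R.card) (n - X.card)) (cs D).1 ω univ ∅ := by
  classical
  set M := model m n with hM
  have hVdef : ∀ B, M.V ω B ↔ VV A b B := fun B => by
    change ω.1.1 B ↔ _
    rw [hω]
  have hcard : ∀ B, VV A b B → B.card = n := by
    rintro B ⟨q, hq, rfl⟩
    exact hA q hq
  apply Dp.of_hist
  intro Es hmono _
  set G := (cs D).1 with hG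
  set e := m - R.card with he
  set f := n - X.card with hf
  have hec : (univ \ R).card = e := by
    rw [card_sdiff_of_subset (subset_univ _), card_univ, Fintype.card_fin]
  have hfc : (univ \ X).card = f := by
    rw [card_sdiff_of_subset (subset_univ _), card_univ, Fintype.card_fin]
  set U := Ss M ω univ Es with hU
  by_cases hne : ∃ B, M.V ω B ∧ Es G ⊆ B ∧ B ⊆ U G
  swap
  · have h0 : nv M ω (U G) (Es G) = 0 := by
      unfold nv
      rw [card_eq_zero, filter_eq_empty_iff]
      rintro B hB ⟨h1, h2⟩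
      exact hne ⟨B, h1, h2, mem_powerset.1 hB⟩
    rw [h0]
    exact Nat.zero_le _
  obtain ⟨B₀, b1, b2, b3⟩ := hne
  have hEle : ∀ {s t}, s ≤ t → Es s ⊆ Es t := fun {s t} h =>
    monotone_nat_of_le_succ (f := Es) hmono h
  -- the history
  have hy : Hyp (fun t => ((Es t : Finset (Fin m)) : Set (Fin m)))
      (fun t => ((tgt M ω (U t) (Es t) : Finset (Fin m)) : Set (Fin m)))
      (fun t => ((U t : Finset (Fin m)) : Set (Fin m))) := by
    refine ⟨fun t => coe_subset.2 (hmono t), fun t => coe_subset.2 sdiff_subset, fun t => ?_,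
      fun t => ?_⟩
    · intro i hi
      have : i ∈ tgt M ω (U t) (Es t) := by simpa using hi
      simpa using ((mem_tgt M).1 this).1.1
    · rw [disjoint_coe]
      exact disjoint_sdiff
  obtain ⟨hC, -⟩ := hn.pn
  have h1 := hC _ _ _ hy
  -- each step
  have h2 : ∀ t < G, z (aa A) (X : Set (Fin n)) (((Es t : Set (Fin m)) ∪
      (tgt M ω (U t) (Es t) : Finset (Fin m))) ∩ R) ≤ 1 + e := by
    intro t ht
    refine (z_mono (Set.subset_univ _) (le_refl _)).trans ?_
    rw [← hec]
    refine (z_inter _ R).trans (Nat.add_le_add_right ?_ _)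
    have hEB : Es t ⊆ B₀ := (hEle ht.le).trans b2
    have hBU : B₀ ⊆ U t := b3.trans (Ss_anti M ω univ Es ht.le)
    obtain ⟨u, hu⟩ := exists_best (M := M) ω b1 hEB hBU
    have h3 : z (aa A) Set.univ (u : Set (Fin m)) = 0 := z_vertex ((hVdef u).1 hu.1.1)
    set F := (u \ Es t) \ tgt M ω (U t) (Es t) with hF
    have h4 : F.card ≤ 1 := by
      rw [card_le_one]
      intro k hk k' hk'
      obtain ⟨c1, c2⟩ := mem_sdiff.1 hk
      obtain ⟨d1, d2⟩ := mem_sdiff.1 hk'
      exact hu.unique (optMax_model m n) c1 d1 c2 d2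
    have h5 := z_union_finset (a := aa A) (X := Set.univ)
      (R := ((Es t : Set (Fin m)) ∪ (tgt M ω (U t) (Es t) : Finset (Fin m)))) F
    have h6 : z (aa A) Set.univ (((Es t : Set (Fin m)) ∪
        (tgt M ω (U t) (Es t) : Finset (Fin m))) ∪ F) ≤ z (aa A) Set.univ (u : Set (Fin m)) := by
      refine z_mono (le_refl _) fun i hi => ?_
      by_cases hiE : i ∈ Es t
      · exact Or.inl (Or.inl (by simpa using hiE))
      by_cases hiT : i ∈ tgt M ω (U t) (Es t)
      · exact Or.inl (Or.inr (by simpa using hiT))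
      · refine Or.inr ?_
        rw [mem_coe, hF, mem_sdiff, mem_sdiff]
        exact ⟨⟨by simpa using hi, hiE⟩, hiT⟩
    omega
  have h3 : z (aa A) (X : Set (Fin n)) ((U G : Set (Fin m)) ∩ R) ≤ e := by
    refine (z_mono (Set.subset_univ _) (le_refl _)).trans ?_
    have := z_inter (A := A) (U G : Set (Fin m)) R
    have h4 : z (aa A) Set.univ (U G : Set (Fin m)) ≤ z (aa A) Set.univ (B₀ : Set (Fin m)) :=
      z_mono (le_refl _) (coe_subset.2 b3)
    rw [z_vertex ((hVdef B₀).1 b1)] at h4
    omega
  have h4 : z (aa A) (X : Set (Fin n)) ((Es G : Set (Fin m)) ∩ R) ≤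
      (cs D).2.1 * (G * (1 + e) + e) := by
    refine h1.trans (Nat.mul_le_mul_left _ (Nat.add_le_add ?_ h3))
    calc ∑ t ∈ range G, z (aa A) (X : Set (Fin n)) (((Es t : Set (Fin m)) ∪
          (tgt M ω (U t) (Es t) : Finset (Fin m))) ∩ R)
        ≤ ∑ t ∈ range G, (1 + e) := sum_le_sum fun t ht => h2 t (mem_range.1 ht)
      _ = G * (1 + e) := by rw [sum_const, card_range, smul_eq_mul]
  -- the dimension
  have h5 : z (aa A) Set.univ (Es G : Set (Fin m)) ≤ ds D e f := by
    have a1 := z_cols (a := aa A) (R := (Es G : Set (Fin m))) X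
    have a2 : z (aa A) (X : Set (Fin n)) (Es G : Set (Fin m)) ≤
        z (aa A) (X : Set (Fin n)) ((Es G : Set (Fin m)) ∩ R) :=
      z_mono (le_refl _) Set.inter_subset_left
    have a3 : ds D e f = (cs D).2.1 * (G * (1 + e) + e) + f := rfl
    rw [hfc] at a1
    rw [a3]
    omega
  have h6 : n ≤ ds D e f + (Es G).card := by
    have a1 := z_union_finset (a := aa A) (X := Set.univ) (R := (∅ : Set (Fin m))) (Es G)
    rw [z_empty, Set.empty_union] at a1
    omega
  -- the number of vertices
  have h7 : nv M ω (U G) (Es G) ≤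
      (powersetCard (n - (Es G).card) (univ : Finset (Fin m))).card := by
    refine card_le_card_of_injOn (fun B => B \ Es G) ?_ ?_
    · intro B hB
      simp only [coe_filter, Set.mem_ofPred_eq, mem_powerset] at hB
      simp only [mem_coe, mem_powersetCard]
      refine ⟨subset_univ _, ?_⟩
      rw [card_sdiff_of_subset hB.2.2, hcard B ((hVdef B).1 hB.2.1)]
    · intro B hB B' hB' heq
      simp only [coe_filter, Set.mem_ofPred_eq, mem_powerset] at hB hB'
      simp only at heq
      rw [← sdiff_union_of_subset hB.2.2, heq, sdiff_union_of_subset hB'.2.2]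
  refine h7.trans ?_
  rw [card_powersetCard, card_univ, Fintype.card_fin]
  refine (Nat.choose_le_pow m _).trans ?_
  exact (Nat.pow_le_pow_left (Nat.le_succ m) _).trans
    (Nat.pow_le_pow_right (by omega) (by omega))

/-- the exponents -/
def kap (D : ℕ) : ℕ := 9 * (cs D).1 + ds D 1 1 + xs D 1 + 20

end Pool.Agent.J4H23.Box
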