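import Pool.Agent.J4H23.Box.NestX
import Pool.Agent.J4H23.Box.Cut
set_option autoImplicit false

/-!
# Products of polytopes with few more facets than dimensions, cut by half-spaces
-/

namespace Pool.Agent.J4H23.Box

open Finset Matrix Pool.Agent.N597.QP Pool.Agent.N597.QP.Str

section abstr

variable {R Ω : Type} [DecidableEq R] {n : ℕ} {M : Model R Ω n}

/-- the rows of `B` in the block `β` -/
def bl (X : Finset R) (κ : R → R) (β : R) (B : Finset R) : Finset R :=
  B.filter fun i => i ∉ X ∧ κ i = β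

lemma mem_bl {X : Finset R} {κ : R → R} {β : R} {B : Finset R} {i : R} :
    i ∈ bl X κ β B ↔ i ∈ B ∧ i ∉ X ∧ κ i = β := by
  unfold bl
  rw [mem_filter]

lemma bl_mono {X : Finset R} {κ : R → R} {β : R} {B B' : Finset R} (h : B ⊆ B') :
    bl X κ β B ⊆ bl X κ β B' := filter_subset_filter _ h

lemma sum_bl [Fintype R] (X : Finset R) (κ : R → R) (B : Finset R) :
    ∑ β, (bl X κ β B).card = (B \ X).card := by
  rw [card_eq_sum_card_fiberwise (s := B \ X) (t := univ) (f := κ) fun i _ => mem_univ _]
  refine sum_congr rfl fun β _ => ?_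
  congr 1
  ext i
  rw [mem_bl, mem_filter, mem_sdiff]
  tauto

/-- The rows outside `X` are divided into blocks; the block `β` has at most `d β + k` rows, of which
at most `d β` are tight at a vertex. -/
def Blocky (M : Model R Ω n) [Fintype R] (k r : ℕ) (ω : Ω) : Prop :=
  ∃ (X : Finset R) (κ : R → R) (d : R → ℕ), X.card ≤ r ∧ ∑ β, d β ≤ n ∧
    (∀ β, (bl X κ β univ).card ≤ d β + k) ∧ ∀ B, M.V ω B → ∀ β, (bl X κ β B).card ≤ d β

theorem Blocky.dp (hmax : OptMax M) [Fintype R] {k r : ℕ} {ω : Ω} (h : Blocky M k r ω) :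
    Dp M (2 ^ ((k + 1) * (2 * r + 1) + r)) (2 * k + 2) ω univ ∅ := by
  classical
  obtain ⟨X, κ, d, hX, hd, hb, hv⟩ := h
  apply Dp.of_hist
  intro Es hmono _
  set G := 2 * k + 2 with hG
  set U := Ss M ω univ Es with hU
  by_cases hne : ∃ B, M.V ω B ∧ Es G ⊆ B ∧ B ⊆ U G
  swap
  · have h0 : nv M ω (U G) (Es G) = 0 := by
      unfold nv
      rw [card_eq_zero, filter_eq_empty_iff]
      rintro B hB ⟨h1, h2⟩
      exact hne ⟨B, h1, h2, mem_powerset.1 hB⟩
    rw [h0]
    exact Nat.zero_le _
  obtain ⟨B₀, b1, b2, b3⟩ := hne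
  have hEle : ∀ {s t}, s ≤ t → Es s ⊆ Es t := fun {s t} h =>
    monotone_nat_of_le_succ (f := Es) hmono h
  -- deficits
  have hdef : ∀ B, M.V ω B → ∑ β, (d β - (bl X κ β B).card) ≤ r := by
    intro B hV
    have e1 : ∑ β, (d β - (bl X κ β B).card) + ∑ β, (bl X κ β B).card = ∑ β, d β := by
      rw [← sum_add_distrib]
      exact sum_congr rfl fun β _ => Nat.sub_add_cancel (hv B hV β)
    rw [sum_bl] at e1
    have e2 := card_sdiff_add_card_inter B X
    rw [M.card_V ω B hV] at e2
    have e3 : (B ∩ X).card ≤ X.card := card_le_card inter_subset_right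
    omega
  -- the best vertices
  have hbest : ∀ t, ∃ u, t < G → Best M ω (U t) (Es t) u := by
    intro t
    by_cases ht : t < G
    · obtain ⟨u, hu⟩ := exists_best (M := M) ω b1 ((hEle ht.le).trans b2)
        (b3.trans (Ss_anti M ω univ Es ht.le))
      exact ⟨u, fun _ => hu⟩
    · exact ⟨∅, fun h => absurd h ht⟩
  choose u hu using hbest
  set ex : ℕ → R → ℕ := fun t β => (bl X κ β ((u t \ Es t) \ tgt M ω (U t) (Es t))).card with hex
  have hexsum : ∀ t < G, ∑ β, ex t β ≤ 1 := by
    intro t ht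
    rw [hex]
    simp only
    rw [sum_bl]
    refine (card_le_card sdiff_subset).trans ?_
    rw [card_le_one]
    intro i hi j hj
    obtain ⟨c1, c2⟩ := mem_sdiff.1 hi
    obtain ⟨e1, e2⟩ := mem_sdiff.1 hj
    exact (hu t ht).unique hmax c1 e1 c2 e2
  -- one relaxation in one block
  have hstep : ∀ t < G, ∀ β, (bl X κ β (U (t + 1))).card + (bl X κ β (u t)).card ≤
      (bl X κ β (U t)).card + (bl X κ β (Es t)).card + ex t β := by
    intro t ht β
    have hUt : U (t + 1) = U t \ tgt M ω (U t) (Es t) := rfl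
    have huV := (hu t ht).1
    have h1 : bl X κ β (u t) ⊆ bl X κ β (Es t) ∪ (bl X κ β (tgt M ω (U t) (Es t)) ∪
        bl X κ β ((u t \ Es t) \ tgt M ω (U t) (Es t))) := by
      intro i hi
      obtain ⟨c1, c2⟩ := mem_bl.1 hi
      simp only [mem_union, mem_bl, mem_sdiff]
      tauto
    have h2 : Disjoint (bl X κ β (U (t + 1))) (bl X κ β (tgt M ω (U t) (Es t))) := by
      rw [disjoint_left]
      intro i hi hi'
      rw [hUt] at hi
      exact (mem_sdiff.1 (mem_bl.1 hi).1).2 (mem_bl.1 hi').1
    have h3 : bl X κ β (U (t + 1)) ∪ bl X κ β (tgt M ω (U t) (Es t)) ⊆ bl X κ β (U t) := by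
      intro i hi
      rcases mem_union.1 hi with h | h
      · rw [hUt] at h
        obtain ⟨c1, c2⟩ := mem_bl.1 h
        exact mem_bl.2 ⟨(mem_sdiff.1 c1).1, c2⟩
      · obtain ⟨c1, c2⟩ := mem_bl.1 h
        exact mem_bl.2 ⟨((mem_tgt M).1 c1).1.1, c2⟩
    have h4 := card_le_card h3
    rw [card_union_of_disjoint h2] at h4
    have h5 := (card_le_card h1).trans ((card_union_le _ _).trans
      (Nat.add_le_add_left (card_union_le _ _) _))
    simp only [hex]
    omega
  have hsum : ∀ β, ∀ t ≤ G, (bl X κ β (U t)).card + ∑ s ∈ range t, (bl X κ β (u s)).card ≤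
      (bl X κ β univ).card + t * (bl X κ β (Es G)).card + ∑ s ∈ range t, ex s β := by
    intro β t
    induction t with
    | zero =>
      intro _
      simp only [range_zero, sum_empty, zero_mul, add_zero]
      exact le_of_eq rfl
    | succ t ih =>
      intro ht
      have h1 := ih (by omega)
      have h2 := hstep t (by omega) β
      have h3 := card_le_card (bl_mono (X := X) (κ := κ) (β := β) (hEle (show t ≤ G by omega)))
      rw [sum_range_succ, sum_range_succ, Nat.succ_mul]
      omega
  -- the dimensions which are left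
  set f : R → ℕ := fun β => d β - (bl X κ β (Es G)).card with hf
  have hEd : ∀ β, (bl X κ β (Es G)).card ≤ d β := fun β =>
    (card_le_card (bl_mono b2)).trans (hv B₀ b1 β)
  have hmain : ∀ β, G * f β ≤ k + (d β - (bl X κ β B₀).card) +
      (∑ s ∈ range G, (d β - (bl X κ β (u s)).card) + ∑ s ∈ range G, ex s β) := by
    intro β
    have h1 := hsum β G le_rfl
    have h2 : (bl X κ β B₀).card ≤ (bl X κ β (U G)).card := card_le_card (bl_mono b3)
    have h3 : ∑ s ∈ range G, (d β - (bl X κ β (u s)).card) +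
        ∑ s ∈ range G, (bl X κ β (u s)).card = G * d β := by
      rw [← sum_add_distrib]
      rw [sum_congr rfl (g := fun _ => d β) fun s hs =>
        Nat.sub_add_cancel (hv (u s) (hu s (mem_range.1 hs)).1.1 β)]
      rw [sum_const, card_range, smul_eq_mul]
    have h4 : G * f β + G * (bl X κ β (Es G)).card = G * d β := by
      rw [← Nat.mul_add, hf]
      simp only
      rw [Nat.sub_add_cancel (hEd β)]
    have h5 := hb β
    have h6 := hv B₀ b1 β
    omega
  set Al := univ.filter fun β => 1 ≤ f β with hAl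
  have hAlcard : Al.card ≤ ∑ β ∈ Al, f β := by
    rw [card_eq_sum_ones]
    exact sum_le_sum fun β hβ => (mem_filter.1 hβ).2
  have htotal : G * ∑ β ∈ Al, f β ≤ k * Al.card + r + G * (r + 1) := by
    rw [mul_sum]
    refine (sum_le_sum fun β _ => hmain β).trans ?_
    rw [sum_add_distrib, sum_add_distrib, sum_add_distrib, sum_const, smul_eq_mul]
    have e1 : ∑ β ∈ Al, (d β - (bl X κ β B₀).card) ≤ r :=
      (sum_le_sum_of_subset (subset_univ _)).trans (hdef B₀ b1)
    have e2 : ∑ β ∈ Al, ∑ s ∈ range G, (d β - (bl X κ β (u s)).card) ≤ G * r := by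
      rw [sum_comm]
      calc ∑ s ∈ range G, ∑ β ∈ Al, (d β - (bl X κ β (u s)).card)
          ≤ ∑ s ∈ range G, r := sum_le_sum fun s hs =>
            (sum_le_sum_of_subset (subset_univ _)).trans
              (hdef (u s) (hu s (mem_range.1 hs)).1.1)
        _ = G * r := by rw [sum_const, card_range, smul_eq_mul]
    have e3 : ∑ β ∈ Al, ∑ s ∈ range G, ex s β ≤ G * 1 := by
      rw [sum_comm]
      calc ∑ s ∈ range G, ∑ β ∈ Al, ex s β
          ≤ ∑ s ∈ range G, 1 := sum_le_sum fun s hs =>
            (sum_le_sum_of_subset (subset_univ _)).trans (hexsum s (mem_range.1 hs))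
        _ = G * 1 := by rw [sum_const, card_range, smul_eq_mul]
    have e4 : Al.card * k = k * Al.card := Nat.mul_comm _ _
    have e5 : G * (r + 1) = G * r + G * 1 := by ring
    omega
  set Δ := ∑ β ∈ Al, f β with hΔ
  have hΔ1 : Δ ≤ 2 * r + 1 := by
    by_contra hcon
    push Not at hcon
    have h1 : k * Al.card ≤ k * Δ := Nat.mul_le_mul_left _ hAlcard
    have h2 : (k + 2) * Δ ≤ r + (2 * k + 2) * (r + 1) := by
      rw [hG] at htotal
      nlinarith
    have h3 : (k + 2) * (2 * r + 2) ≤ (k + 2) * Δ := Nat.mul_le_mul_left _ hcon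
    nlinarith
  -- the rows which are left
  set L := (X \ Es G) ∪ Al.biUnion fun β => bl X κ β univ \ Es G with hL
  have hLcard : L.card ≤ (k + 1) * (2 * r + 1) + r := by
    refine (card_union_le _ _).trans ?_
    have e1 : (X \ Es G).card ≤ r := (card_le_card sdiff_subset).trans hX
    have e2 : (Al.biUnion fun β => bl X κ β univ \ Es G).card ≤ Δ + k * Al.card := by
      refine card_biUnion_le.trans ?_
      calc ∑ β ∈ Al, (bl X κ β univ \ Es G).card ≤ ∑ β ∈ Al, (f β + k) := by
            refine sum_le_sum fun β _ => ?_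
            have a1 : bl X κ β univ \ Es G = bl X κ β univ \ bl X κ β (Es G) := by
              ext i
              rw [mem_sdiff, mem_sdiff, mem_bl, mem_bl]
              tauto
            rw [a1, card_sdiff_of_subset (bl_mono (subset_univ _))]
            have a2 := hb β
            have a3 := hEd β
            simp only [hf]
            omega
        _ = Δ + k * Al.card := by
            rw [sum_add_distrib, sum_const, smul_eq_mul, Nat.mul_comm]
    have e3 : k * Al.card ≤ k * Δ := Nat.mul_le_mul_left _ hAlcard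
    have e4 : (k + 1) * Δ ≤ (k + 1) * (2 * r + 1) := Nat.mul_le_mul_left _ hΔ1
    have e5 : (k + 1) * Δ = k * Δ + Δ := by ring
    omega
  refine le_trans (nv_le' M (L := L) ?_) (Nat.pow_le_pow_right (by norm_num) hLcard)
  intro B hV hE _ i hi
  obtain ⟨c1, c2⟩ := mem_sdiff.1 hi
  by_cases hiX : i ∈ X
  · exact mem_union_left _ (mem_sdiff.2 ⟨hiX, c2⟩)
  · refine mem_union_right _ (mem_biUnion.2 ⟨κ i, ?_, mem_sdiff.2 ⟨mem_bl.2
      ⟨mem_univ _, hiX, rfl⟩, c2⟩⟩)
    rw [hAl, mem_filter]
    refine ⟨mem_univ _, ?_⟩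
    have h1 : insert i (bl X κ (κ i) (Es G)) ⊆ bl X κ (κ i) B := by
      intro j hj
      rcases mem_insert.1 hj with h | h
      · rw [h]
        exact mem_bl.2 ⟨c1, hiX, rfl⟩
      · exact bl_mono hE h
    have h2 := card_le_card h1
    rw [card_insert_of_notMem fun h => c2 (mem_bl.1 h).1] at h2
    have h3 := hv B hV (κ i)
    simp only [hf]
    omega

end abstr

variable {m n : ℕ} {A : Fin m → Fin n → ℝ} {b : Fin m → ℝ} {c : Fin n → ℝ}

/-- The rows outside a set `X` of at most `r` rows are divided into blocks; the block `β` has at most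
`d β + k` rows, of which at most `d β` are tight at each vertex, and `∑ d β ≤ n`. This is the case
if the polyhedron is an intersection of a product of simple polyhedra with `r` half-spaces, and the
factors have dimensions `d β` and are given by at most `d β + k` rows. -/
def CutProduct (A : Fin m → Fin n → ℝ) (b : Fin m → ℝ) (k r : ℕ) : Prop :=
  ∃ (X : Finset (Fin m)) (κ : Fin m → Fin m) (d : Fin m → ℕ), X.card ≤ r ∧ ∑ β, d β ≤ n ∧
    (∀ β, (univ.filter fun i => i ∉ X ∧ κ i = β).card ≤ d β + k) ∧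
    ∀ q, IsVertex A b q → ∀ β, ((tight A b q).filter fun i => i ∉ X ∧ κ i = β).card ≤ d β

lemma CutProduct.blocky {k r : ℕ} (h : CutProduct A b k r)
    (ω : {ω // ω ∈ types m n}) (hω : ω.1 = (VV A b, SS A b c)) :
    Blocky (model m n) k r ω := by
  obtain ⟨X, κ, d, h1, h2, h3, h4⟩ := h
  refine ⟨X, κ, d, h1, h2, h3, fun B hB β => ?_⟩
  have hV : VV A b B := by
    change ω.1.1 B at hB
    rw [hω] at hB
    exact hB
  obtain ⟨q, hq, rfl⟩ := hV
  exact h4 q hq β

end Pool.Agent.J4H23.Box
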