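import Pool.Agent.J4H23.Box.Deep
set_option autoImplicit false

/-!
# Target rows
-/

namespace Pool.Agent.J4H23.Box

open Finset Pool.Agent.N597.QP Pool.Agent.N597.QP.Str

variable {R Ω : Type} [DecidableEq R] {n : ℕ} {M : Model R Ω n}

/-- a best vertex of the face `E` within the rows `S` -/
def Best (M : Model R Ω n) (ω : Ω) (S E u : Finset R) : Prop :=
  (M.V ω u ∧ E ⊆ u ∧ u ⊆ S) ∧ ∀ B, M.V ω B → E ⊆ B → B ⊆ S → M.val ω B ≤ M.val ω u

lemma exists_best (ω : Ω) {S E B₀ : Finset R} (h1 : M.V ω B₀) (h2 : E ⊆ B₀) (h3 : B₀ ⊆ S) :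
    ∃ u, Best M ω S E u := by
  classical
  obtain ⟨u, hu, hmax⟩ := exists_max_image (S.powerset.filter fun B => M.V ω B ∧ E ⊆ B)
    (fun B => M.val ω B) ⟨B₀, mem_filter.2 ⟨mem_powerset.2 h3, h1, h2⟩⟩
  rw [mem_filter, mem_powerset] at hu
  exact ⟨u, ⟨hu.2.1, hu.2.2, hu.1⟩, fun B hV hE hS =>
    hmax B (mem_filter.2 ⟨mem_powerset.2 hS, hV, hE⟩)⟩

lemma next_face {ω : Ω} {E B : Finset R} {r : R} (hV : M.V ω B) (hE : E ⊆ B)
    (hr : r ∈ (M.inst ω).S B) (hrE : r ∉ E) : E ⊆ (M.inst ω).N B r := fun i hi =>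
  M.next_sub ω B r hV hr (mem_erase.2 ⟨fun h => hrE (h ▸ hi), hE hi⟩)

/-- a vertex with the largest value on a face is optimal -/
lemma opt_of_max {ω : Ω} {E u : Finset R} (h1 : M.V ω u) (h2 : E ⊆ u)
    (h : ∀ B, M.V ω B → E ⊆ B → M.val ω B ≤ M.val ω u) : Opt M ω E u := by
  refine ⟨h1, h2, fun r hr => ?_⟩
  by_contra hrE
  have h3 := h _ (M.next_V ω u r h1 hr) (next_face h1 h2 hr hrE)
  exact absurd ((M.next_lt ω u r h1 hr).trans_le h3) (lt_irrefl _)

/-- at most one row of the best vertex is not a target -/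
lemma Best.unique (hmax : OptMax M) {ω : Ω} {S E u : Finset R} (h : Best M ω S E u) {k k' : R}
    (hk : k ∈ u \ E) (hk' : k' ∈ u \ E) (h1 : k ∉ tgt M ω S E) (h2 : k' ∉ tgt M ω S E) :
    k = k' := by
  classical
  obtain ⟨⟨hV, hEu, huS⟩, hb⟩ := h
  have key : ∀ k ∈ u \ E, k ∉ tgt M ω S E → (M.inst ω).S u ⊆ insert k E ∧
      ∃ B, M.V ω B ∧ E ⊆ B ∧ M.val ω B = M.val ω u ∧ ¬ (M.inst ω).S B ⊆ E := by
    intro k hk hkt
    obtain ⟨hku, hkE⟩ := mem_sdiff.1 hk
    have h3 : ¬ Tgt M ω S E k := fun h => hkt ((mem_tgt M).2 ⟨⟨huS hku, hkE⟩, h⟩)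
    unfold Tgt at h3
    push Not at h3
    obtain ⟨B, b1, b2, b3, b4, b5⟩ := h3
    have e1 : M.val ω B ≤ M.val ω u := hb B b1 ((subset_insert _ _).trans b2) b3
    have e2 : M.val ω u ≤ M.val ω B := hmax ω (insert k E) B u ⟨b1, b2, b4⟩ hV
      (insert_subset hku hEu)
    refine ⟨fun r hr => ?_, B, b1, (subset_insert _ _).trans b2, le_antisymm e1 e2, b5⟩
    by_contra hrE
    have e3 := hmax ω (insert k E) B _ ⟨b1, b2, b4⟩ (M.next_V ω u r hV hr)
      (next_face hV (insert_subset hku hEu) hr hrE)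
    have e4 := M.next_lt ω u r hV hr
    exact absurd (e4.trans_le (e3.trans e1)) (lt_irrefl _)
  obtain ⟨a1, B, a2, a3, a4, a5⟩ := key k hk h1
  obtain ⟨b1, -⟩ := key k' hk' h2
  by_contra hne
  have hopt : (M.inst ω).S u ⊆ E := by
    intro r hr
    rcases mem_insert.1 (a1 hr) with h | h
    · rcases mem_insert.1 (b1 hr) with h' | h'
      · exact absurd (h.symm.trans h') hne
      · exact h'
    · exact h
  obtain ⟨r, hr, hrE⟩ := not_subset.1 a5
  have e1 := hmax ω E u _ ⟨hV, hEu, hopt⟩ (M.next_V ω B r a2 hr) (next_face a2 a3 hr hrE)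
  have e2 := M.next_lt ω B r a2 hr
  rw [a4] at e2
  exact absurd (e2.trans_le e1) (lt_irrefl _)

/-- all rows of an optimal vertex are targets -/
lemma opt_tgt (hmax : OptMax M) [Fintype R] {ω : Ω} {E u : Finset R} (h : Opt M ω E u) :
    u \ E ⊆ tgt M ω univ E := by
  classical
  intro k hk
  obtain ⟨hku, hkE⟩ := mem_sdiff.1 hk
  refine (mem_tgt M).2 ⟨⟨mem_univ _, hkE⟩, fun B b1 b2 _ b4 r hr => ?_⟩
  by_contra hrE
  have e1 : M.val ω u ≤ M.val ω B := hmax ω (insert k E) B u ⟨b1, b2, b4⟩ h.1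
    (insert_subset hku h.2.1)
  have e2 := hmax ω E u _ h (M.next_V ω B r b1 hr)
    (next_face b1 ((subset_insert _ _).trans b2) hr hrE)
  have e3 := M.next_lt ω B r b1 hr
  exact absurd (e3.trans_le (e2.trans e1)) (lt_irrefl _)

/-- the facets of the face `E` -/
noncomputable def real (M : Model R Ω n) [Fintype R] (ω : Ω) (E : Finset R) : Finset R := by
  classical exact univ.filter fun k => k ∉ E ∧ ∃ B, M.V ω B ∧ insert k E ⊆ B

lemma mem_real [Fintype R] {ω : Ω} {E : Finset R} {k : R} :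
    k ∈ real M ω E ↔ k ∉ E ∧ ∃ B, M.V ω B ∧ insert k E ⊆ B := by
  classical
  simp [real]

/-- other rows are targets, too -/
lemma not_real_tgt [Fintype R] {ω : Ω} {S E : Finset R} {k : R} (hkS : k ∈ S) (hkE : k ∉ E)
    (h : k ∉ real M ω E) : k ∈ tgt M ω S E :=
  (mem_tgt M).2 ⟨⟨hkS, hkE⟩, fun B b1 b2 _ _ => absurd (mem_real.2 ⟨hkE, B, b1, b2⟩) h⟩

/-- all faces `E` have at most `2 dim E + e` facets -/
def Excess (M : Model R Ω n) [Fintype R] (e : ℕ) (ω : Ω) : Prop :=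
  ∀ E B, M.V ω B → E ⊆ B → (real M ω E).card + 2 * E.card ≤ 2 * n + e

lemma nv_le {ω : Ω} {S E : Finset R} {x : ℕ} (h : (S \ E).card ≤ x) : nv M ω S E ≤ 2 ^ x := by
  classical
  have h1 : nv M ω S E ≤ (S \ E).powerset.card := by
    refine card_le_card_of_injOn (fun B => B \ E) ?_ ?_
    · intro B hB
      simp only [coe_filter, Set.mem_ofPred_eq, mem_powerset] at hB
      simp only [coe_powerset, Set.mem_preimage, Set.mem_powerset_iff, coe_subset]
      exact sdiff_subset_sdiff hB.1 (Subset.refl _)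
    · intro B hB B' hB' heq
      simp only [coe_filter, Set.mem_ofPred_eq, mem_powerset] at hB hB'
      simp only at heq
      rw [← sdiff_union_of_subset hB.2.2, heq, sdiff_union_of_subset hB'.2.2]
  rw [card_powerset] at h1
  exact h1.trans (Nat.pow_le_pow_right (by norm_num) h)

/-- **Two relaxations are enough if the excess is small.** -/
theorem Excess.dp (hmax : OptMax M) [Fintype R] {e : ℕ} {ω : Ω} (he : Excess M e ω) :
    Dp M (2 ^ (e + 1)) 2 ω univ ∅ := by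
  classical
  intro E' _ E'' hE''
  set S₁ := univ \ tgt M ω univ E' with hS₁
  set S₂ := S₁ \ tgt M ω S₁ E'' with hS₂
  by_cases hne : ∃ B, M.V ω B ∧ E'' ⊆ B ∧ B ⊆ S₂
  swap
  · have h0 : nv M ω S₂ E'' = 0 := by
      unfold nv
      rw [card_eq_zero, filter_eq_empty_iff]
      rintro B hB ⟨h1, h2⟩
      exact hne ⟨B, h1, h2, mem_powerset.1 hB⟩
    change nv M ω S₂ E'' ≤ _
    rw [h0]
    exact Nat.zero_le _
  obtain ⟨B₀, h1, h2, h3⟩ := hne
  have hS₂₁ : S₂ ⊆ S₁ := sdiff_subset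
  have hE'B : E' ⊆ B₀ := hE''.trans h2
  -- the first relaxation
  obtain ⟨w, hw, hwmax⟩ := exists_best (M := M) ω h1 hE'B (subset_univ _)
  have hwopt : Opt M ω E' w := opt_of_max hw.1 hw.2.1 fun B hV hE => hwmax B hV hE (subset_univ _)
  have hwt := opt_tgt hmax hwopt
  have hcw : (w \ E').card + E'.card = n := by
    rw [card_sdiff_of_subset hw.2.1, M.card_V ω w hw.1]
    have := card_le_card hw.2.1
    rw [M.card_V ω w hw.1] at this
    omega
  have hc₁ : (S₁ \ E').card + E'.card ≤ n + e := by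
    have a1 : (S₁ \ E') ∪ (w \ E') ⊆ real M ω E' := by
      intro k hk
      rcases mem_union.1 hk with h | h
      · obtain ⟨b1, b2⟩ := mem_sdiff.1 h
        by_contra hr
        have := not_real_tgt (mem_univ k) b2 hr
        exact (mem_sdiff.1 b1).2 this
      · obtain ⟨b1, b2⟩ := mem_sdiff.1 h
        exact mem_real.2 ⟨b2, w, hw.1, insert_subset b1 hw.2.1⟩
    have a2 : Disjoint (S₁ \ E') (w \ E') := by
      rw [disjoint_left]
      intro k hk hk'
      exact (mem_sdiff.1 (mem_sdiff.1 hk).1).2 (hwt hk')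
    have a3 := card_le_card a1
    rw [card_union_of_disjoint a2] at a3
    have a4 := he E' B₀ h1 hE'B
    omega
  have hc₁' : (S₁ \ E'').card + E''.card ≤ n + e := by
    have a1 : (S₁ \ E'') ∪ (E'' \ E') ⊆ S₁ \ E' := by
      intro k hk
      rcases mem_union.1 hk with h | h
      · obtain ⟨b1, b2⟩ := mem_sdiff.1 h
        exact mem_sdiff.2 ⟨b1, fun h' => b2 (hE'' h')⟩
      · obtain ⟨b1, b2⟩ := mem_sdiff.1 h
        exact mem_sdiff.2 ⟨hS₂₁ (h3 (h2 b1)), b2⟩
    have a2 : Disjoint (S₁ \ E'') (E'' \ E') := by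
      rw [disjoint_left]
      intro k hk hk'
      exact (mem_sdiff.1 hk).2 (mem_sdiff.1 hk').1
    have a3 := card_le_card a1
    rw [card_union_of_disjoint a2, card_sdiff_of_subset hE''] at a3
    have a4 := card_le_card hE''
    omega
  -- the second relaxation
  obtain ⟨u, hu⟩ := exists_best (M := M) ω h1 h2 (h3.trans hS₂₁)
  have hcu : (u \ E'').card + E''.card = n := by
    rw [card_sdiff_of_subset hu.1.2.1, M.card_V ω u hu.1.1]
    have := card_le_card hu.1.2.1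
    rw [M.card_V ω u hu.1.1] at this
    omega
  have hc₂ : (S₂ \ E'').card ≤ e + 1 := by
    have a1 : (S₂ \ E'') ∪ ((u \ E'') ∩ tgt M ω S₁ E'') ⊆ S₁ \ E'' := by
      intro k hk
      rcases mem_union.1 hk with h | h
      · obtain ⟨b1, b2⟩ := mem_sdiff.1 h
        exact mem_sdiff.2 ⟨hS₂₁ b1, b2⟩
      · obtain ⟨b1, b2⟩ := mem_inter.1 h
        exact mem_sdiff.2 ⟨((mem_tgt M).1 b2).1.1, ((mem_tgt M).1 b2).1.2⟩
    have a2 : Disjoint (S₂ \ E'') ((u \ E'') ∩ tgt M ω S₁ E'') := by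
      rw [disjoint_left]
      intro k hk hk'
      exact (mem_sdiff.1 (mem_sdiff.1 hk).1).2 (mem_inter.1 hk').2
    have a3 := card_le_card a1
    rw [card_union_of_disjoint a2] at a3
    have a4 : ((u \ E'') \ tgt M ω S₁ E'').card ≤ 1 := by
      rw [card_le_one]
      intro k hk k' hk'
      obtain ⟨b1, b2⟩ := mem_sdiff.1 hk
      obtain ⟨c1, c2⟩ := mem_sdiff.1 hk'
      exact hu.unique hmax b1 c1 b2 c2
    have a5 := card_sdiff_add_card_inter (u \ E'') (tgt M ω S₁ E'')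
    omega
  exact nv_le hc₂

end Pool.Agent.J4H23.Box
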