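import Pool.Agent.J4H23.Box.Main
import Pool.Agent.J4H23.Box.Deep
set_option autoImplicit false

/-!
# The universal rule
-/

namespace Pool.Agent.J4H23.Box

open Finset Matrix Pool.Agent.N597.QP Pool.Agent.N597.QP.Str

section chain

variable {R Ω : Type} [DecidableEq R] {n : ℕ} (M : Model R Ω n)

/-- one strategy after the other -/
def chain : List (Obs R → Str R) → Obs R → Str R
  | [], _ => stop
  | s :: ss, o => comp (s o) fun l => chain ss (lst o l)

/-- a safe strategy with costs at most `c` -/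
def Fine (s : Obs R → Str R) (c : ℕ) : Prop :=
  (∀ o, Safe ∅ (s o) o.2) ∧ ∀ o ω, M.V ω o.1 → (M.inst ω).ob o.1 = o →
    (play (M.inst ω) (s o) o.1).length ≤ c

/-- the strategy reaches the optimum -/
def Solves (s : Obs R → Str R) (ω : Ω) : Prop :=
  ∀ o, M.V ω o.1 → (M.inst ω).ob o.1 = o → (lst o (play (M.inst ω) (s o) o.1)).2 ⊆ ∅

variable {M}

omit [DecidableEq R] in
lemma chain_cons (s : Obs R → Str R) (ss : List (Obs R → Str R)) (o : Obs R) :
    chain (s :: ss) o = comp (s o) fun l => chain ss (lst o l) := rfl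

lemma chain_safe {ss : List (Obs R → Str R)} {c : (Obs R → Str R) → ℕ}
    (h : ∀ s ∈ ss, Fine M s (c s)) (o : Obs R) : Safe ∅ (chain ss o) o.2 := by
  induction ss generalizing o with
  | nil => trivial
  | cons s ss ih =>
    rw [chain_cons]
    exact safe_comp ∅ _ _ o ((h s (List.mem_cons_self)).1 o) fun l =>
      ih (fun s' hs' => h s' (List.mem_cons_of_mem _ hs')) (lst o l)

lemma chain_length {ss : List (Obs R → Str R)} {c : (Obs R → Str R) → ℕ}
    (h : ∀ s ∈ ss, Fine M s (c s)) (o : Obs R) (ω : Ω) (hV : M.V ω o.1)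
    (ho : (M.inst ω).ob o.1 = o) :
    (play (M.inst ω) (chain ss o) o.1).length ≤ (ss.map c).sum := by
  induction ss generalizing o with
  | nil => simp [chain, play]
  | cons s ss ih =>
    have h1 := h s (List.mem_cons_self)
    have e1 := play_comp (M.inst ω) (s o) (fun l => chain ss (lst o l)) o.1
    rw [ho] at e1
    obtain ⟨a1, a2, a3⟩ := valid_lst M hV (empty_subset _) ho (h1.1 o)
    have h2 := ih (fun s' hs' => h s' (List.mem_cons_of_mem _ hs')) _ a1 a3
    have h3 := h1.2 o ω hV ho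
    rw [chain_cons, e1, List.length_append, List.map_cons, List.sum_cons]
    omega

omit [DecidableEq R] in
lemma safe_empty {t : Str R} (h : Safe ∅ t ∅) : t = stop := by
  cases t with
  | stop => rfl
  | go r k => exact absurd h.1 (notMem_empty _)

/-- If one of the strategies solves the type, the costs are the costs up to this strategy. -/
lemma chain_solved {l₁ l₂ : List (Obs R → Str R)} {s : Obs R → Str R}
    {c : (Obs R → Str R) → ℕ} (h : ∀ s' ∈ l₁ ++ s :: l₂, Fine M s' (c s')) (ω : Ω)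
    (hs : Solves M s ω) (o : Obs R) (hV : M.V ω o.1) (ho : (M.inst ω).ob o.1 = o) :
    (play (M.inst ω) (chain (l₁ ++ s :: l₂) o) o.1).length ≤ (l₁.map c).sum + c s ∧
      (lst o (play (M.inst ω) (chain (l₁ ++ s :: l₂) o) o.1)).2 ⊆ ∅ := by
  induction l₁ generalizing o with
  | nil =>
    simp only [List.nil_append] at h ⊢
    have h1 := h s (List.mem_cons_self)
    have e1 := play_comp (M.inst ω) (s o) (fun l => chain l₂ (lst o l)) o.1
    rw [ho] at e1
    have h2 := hs o hV ho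
    have h3 := chain_safe (M := M) (c := c) (ss := l₂)
      (fun s' hs' => h s' (List.mem_cons_of_mem _ hs'))
      (lst o (play (M.inst ω) (s o) o.1))
    rw [subset_empty] at h2
    rw [h2] at h3
    have h4 := safe_empty h3
    rw [chain_cons, e1, h4]
    simp only [play, List.append_nil, List.map_nil, List.sum_nil, zero_add]
    exact ⟨h1.2 o ω hV ho, by rw [h2]⟩
  | cons s' l₁ ih =>
    simp only [List.cons_append] at h ⊢
    have h1 := h s' (List.mem_cons_self)
    have e1 := play_comp (M.inst ω) (s' o) (fun l => chain (l₁ ++ s :: l₂) (lst o l)) o.1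
    rw [ho] at e1
    obtain ⟨a1, a2, a3⟩ := valid_lst M hV (empty_subset _) ho (h1.1 o)
    have h2 := ih (fun s'' hs'' => h s'' (List.mem_cons_of_mem _ hs'')) _ a1 a3
    have h3 := h1.2 o ω hV ho
    rw [chain_cons, e1, List.length_append, List.map_cons, List.sum_cons, lst_append]
    exact ⟨by omega, h2.2⟩

end chain

section

variable {R Ω : Type} [DecidableEq R] {n : ℕ} {M : Model R Ω n}

lemma Dp.mono_N {N₀ N₁ g : ℕ} {ω : Ω} {S E : Finset R} (h : Dp M N₀ g ω S E) (hN : N₀ ≤ N₁) :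
    Dp M N₁ g ω S E := by
  induction g generalizing S E with
  | zero => exact le_trans (show nv M ω S E ≤ N₀ from h) hN
  | succ g ih => exact fun E' hE' => ih (h E' hE')

lemma dp_all {N₀ g : ℕ} {ω : Ω} {S E : Finset R} (h : 2 ^ S.card ≤ N₀) : Dp M N₀ g ω S E := by
  classical
  induction g generalizing S E with
  | zero =>
    refine le_trans ?_ h
    unfold nv
    rw [← card_powerset]
    exact card_filter_le _ _
  | succ g ih =>
    intro E' _
    exact ih ((Nat.pow_le_pow_right (by norm_num) (card_le_card sdiff_subset)).trans h)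

end

variable {m n : ℕ} {A : Fin m → Fin n → ℝ} {b : Fin m → ℝ} {c : Fin n → ℝ}

/-! ### The strategies for relaxation depth `g` -/

lemma CC_le {Q Q' : ℝ} (hQ : 0 ≤ Q) (hQQ : Q ≤ Q') {N₀ : ℕ} (hN : 1 ≤ N₀) (h1 : 1 ≤ Q') (g : ℕ) :
    CC Q N₀ g ≤ (2 * Q') ^ g * N₀ := by
  have hN' : (1 : ℝ) ≤ N₀ := by exact_mod_cast hN
  induction g with
  | zero => simp [CC]
  | succ g ih =>
    have h2 : (1 : ℝ) ≤ (2 * Q') ^ g := one_le_pow₀ (by linarith)
    have h3 : (1 : ℝ) ≤ (2 * Q') ^ g * N₀ := one_le_mul_of_one_le_of_one_le h2 hN'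
    have h4 : CC Q N₀ (g + 1) = Q * (1 + CC Q N₀ g) := rfl
    have h5 := CC_nonneg hQ N₀ g
    rw [h4]
    calc Q * (1 + CC Q N₀ g) ≤ Q' * (2 * ((2 * Q') ^ g * N₀)) :=
          mul_le_mul hQQ (by linarith) (by linarith) (by linarith)
      _ = (2 * Q') ^ (g + 1) * N₀ := by ring

lemma deepS (hm : 1 ≤ m) (hnm : n ≤ m) (g N₀ : ℕ) (hN : 1 ≤ N₀) :
    ∃ s : Obs (Fin m) → Str (Fin m), Fine (model m n) s ((50 * m ^ 7) ^ g * N₀) ∧
      ∀ ω : {ω // ω ∈ types m n}, Dp (model m n) N₀ g ω univ ∅ → Solves (model m n) s ω := by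
  classical
  set M := model m n with hM
  have : Finite {ω // ω ∈ types m n} := (types_finite m n).1
  have : Fintype {ω // ω ∈ types m n} := Fintype.ofFinite _
  set Λ : ℝ := 12 * m ^ 4 with hΛ
  have hm0 : (1 : ℝ) ≤ m := by exact_mod_cast hm
  have hΛ0 : 0 ≤ Λ := by positivity
  set Q : ℝ := n + n ^ 2 * ((Fintype.card (Fin m) + 1 : ℕ) : ℝ) * Λ with hQ
  have hQ0 : 0 ≤ Q := by positivity
  have hQ' : Q ≤ 25 * m ^ 7 := by
    have hn0 : (n : ℝ) ≤ m := by exact_mod_cast hnm
    rw [hQ, hΛ, Fintype.card_fin]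
    push_cast
    have e1 : (n : ℝ) ^ 2 ≤ m ^ 2 := by gcongr
    have e2 : (m : ℝ) + 1 ≤ 2 * m := by linarith
    have e3 : (n : ℝ) ^ 2 * (m + 1) ≤ m ^ 2 * (2 * m) := mul_le_mul e1 e2 (by positivity)
      (by positivity)
    have e4 : (n : ℝ) ^ 2 * (m + 1) * (12 * m ^ 4) ≤ m ^ 2 * (2 * m) * (12 * m ^ 4) :=
      mul_le_mul_of_nonneg_right e3 (by positivity)
    have e5 : (m : ℝ) ≤ m ^ 7 := le_self_pow₀ hm0 (by norm_num)
    nlinarith
  have hCC : CC Q N₀ g ≤ (((50 * m ^ 7) ^ g * N₀ : ℕ) : ℝ) := by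
    have h1 : (1 : ℝ) ≤ 25 * m ^ 7 := by
      have : (1 : ℝ) ≤ m ^ 7 := one_le_pow₀ hm0
      linarith
    refine (CC_le hQ0 hQ' hN h1 g).trans (le_of_eq ?_)
    push_cast
    ring
  have key : ∀ o : Obs (Fin m), ∃ t : Str (Fin m), Safe ∅ t o.2 ∧
      ∀ ω : {ω // ω ∈ types m n}, M.V ω o.1 → (M.inst ω).ob o.1 = o →
        (play (M.inst ω) t o.1).length ≤ (50 * m ^ 7) ^ g * N₀ ∧
        (Dp M N₀ g ω univ ∅ → (lst o (play (M.inst ω) t o.1)).2 ⊆ ∅) := by
    intro o
    set K : Finset ({ω // ω ∈ types m n} × Finset (Fin m)) :=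
      (univ.filter fun ω => M.V ω o.1 ∧ (M.inst ω).ob o.1 = o ∧ Dp M N₀ g ω univ ∅).image
        fun ω => (ω, univ) with hK
    have hKcard : K.card ≤ (types m n).ncard := by
      refine card_image_le.trans ((card_filter_le _ _).trans ?_)
      rw [card_univ, ← Nat.card_eq_fintype_card]
      exact le_of_eq rfl
    have hn : n ≤ n := le_rfl
    obtain ⟨t, s1, s2, s3⟩ := deep M Λ hΛ0 N₀ g n ∅ o K (log_types hm hnm _ hKcard) (by simp)
      (empty_subset _) (by
        intro p hp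
        obtain ⟨ω, hω, rfl⟩ := mem_image.1 hp
        obtain ⟨a1, a2, -⟩ := (mem_filter.1 hω).2
        exact ⟨a1, a2, subset_univ _⟩) (by
        intro p hp
        obtain ⟨ω, hω, rfl⟩ := mem_image.1 hp
        exact (mem_filter.1 hω).2.2.2)
    refine ⟨t, s1, fun ω hV ho => ⟨?_, fun hD => ?_⟩⟩
    · have h3 := (s2 ω hV ho).trans hCC
      exact_mod_cast h3
    · exact s3 (ω, univ) (mem_image_of_mem _ (mem_filter.2 ⟨mem_univ _, hV, ho, hD⟩))
        fun o' _ => subset_univ _
  choose s hs1 hs2 using key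
  exact ⟨s, ⟨hs1, fun o ω hV ho => (hs2 o ω hV ho).1⟩, fun ω hD o hV ho => (hs2 o ω hV ho).2 hD⟩

/-- the bound for direct linear programs -/
def P₁ (m n : ℕ) : ℕ := n + 12 * m ^ 5 * (n * (n + 1))

/-- the bound for all linear programs -/
def Qp (m : ℕ) : ℕ := (75 * m ^ 7) ^ (Nat.log 2 m + 1)

lemma directS (hm : 1 ≤ m) (hnm : n ≤ m) :
    ∃ s : Obs (Fin m) → Str (Fin m), Fine (model m n) s (P₁ m n) ∧
      ∀ ω : {ω // ω ∈ types m n}, Direct (model m n) ω → Solves (model m n) s ω := by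
  choose s hs1 hs2 using poly (m := m) (n := n) hm hnm
  exact ⟨s, ⟨hs1, fun o ω hV ho => (hs2 o ω hV ho).1⟩, fun ω hD o hV ho => (hs2 o ω hV ho).2 hD⟩

lemma quasiS (hm : 1 ≤ m) (hnm : n ≤ m) :
    ∃ s : Obs (Fin m) → Str (Fin m), Fine (model m n) s (Qp m) ∧
      ∀ ω : {ω // ω ∈ types m n}, Solves (model m n) s ω := by
  choose s hs1 hs2 using quasi (m := m) (n := n) hm hnm
  exact ⟨s, ⟨hs1, fun o ω hV ho => (hs2 o ω hV ho).1⟩, fun ω o hV ho => (hs2 o ω hV ho).2⟩

/-! ### The schedule -/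

/-- the pairs (depth, exponent) whose costs are at most `2 ^ j` -/
def prs (m j : ℕ) : List (ℕ × ℕ) :=
  ((List.range (2 * (m + 1))) ×ˢ (List.range (m + 1))).filter fun p => (50 * m ^ 7) ^ p.1 * 2 ^ p.2 ≤ 2 ^ j

lemma mem_prs {m j : ℕ} {p : ℕ × ℕ} : p ∈ prs m j ↔
    (p.1 < 2 * (m + 1) ∧ p.2 < m + 1) ∧ (50 * m ^ 7) ^ p.1 * 2 ^ p.2 ≤ 2 ^ j := by
  unfold prs
  rw [List.mem_filter, List.mem_product, List.mem_range, List.mem_range]
  simp

lemma sum_prs {m j : ℕ} : ((prs m j).map fun p => (50 * m ^ 7) ^ p.1 * 2 ^ p.2).sum ≤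
    2 * (m + 1) ^ 2 * 2 ^ j := by
  refine (List.sum_le_card_nsmul _ (2 ^ j) ?_).trans ?_
  · intro x hx
    rw [List.mem_map] at hx
    obtain ⟨p, hp, rfl⟩ := hx
    exact (mem_prs.1 hp).2
  · rw [List.length_map, smul_eq_mul]
    refine Nat.mul_le_mul_right _ ?_
    refine (List.length_filter_le _ _).trans ?_
    rw [List.length_product, List.length_range, List.length_range]
    exact le_of_eq (by ring)

/-- all pairs, in stages -/
def stg (m : ℕ) : ℕ → List (ℕ × ℕ)
  | 0 => []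
  | j + 1 => stg m j ++ prs m j

lemma sum_stg (m j : ℕ) : ((stg m j).map fun p => (50 * m ^ 7) ^ p.1 * 2 ^ p.2).sum ≤
    2 * (m + 1) ^ 2 * 2 ^ j := by
  induction j with
  | zero => simp [stg]
  | succ j ih =>
    simp only [stg, List.map_append, List.sum_append]
    have := sum_prs (m := m) (j := j)
    have e : 2 * (m + 1) ^ 2 * 2 ^ (j + 1) =
        2 * (m + 1) ^ 2 * 2 ^ j + 2 * (m + 1) ^ 2 * 2 ^ j := by ring
    omega

lemma stg_prefix (m : ℕ) {i j : ℕ} (h : i ≤ j) : stg m i <+: stg m j := by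
  induction j, h using Nat.le_induction with
  | base => exact List.prefix_rfl
  | succ j _ ih => exact ih.trans (List.prefix_append _ _)

/-- splitting the list at a pair -/
lemma split_stg {m : ℕ} {p : ℕ × ℕ} {j J : ℕ} (hp : p ∈ prs m j) (hj : j < J) :
    ∃ l₁ l₂, stg m J = l₁ ++ p :: l₂ ∧
      (l₁.map fun p => (50 * m ^ 7) ^ p.1 * 2 ^ p.2).sum + (50 * m ^ 7) ^ p.1 * 2 ^ p.2 ≤
        2 * (m + 1) ^ 2 * 2 ^ (j + 1) := by
  obtain ⟨a, b, hab⟩ := List.append_of_mem hp
  obtain ⟨t, ht⟩ := stg_prefix m (show j + 1 ≤ J from hj)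
  refine ⟨stg m j ++ a, b ++ t, ?_, ?_⟩
  · rw [← ht, stg, hab]
    simp
  · have h1 := sum_stg m (j + 1)
    rw [stg, hab] at h1
    simp only [List.map_append, List.map_cons, List.sum_append, List.sum_cons] at h1 ⊢
    omega

/-- **The universal strategy.** -/
theorem universal (hm : 1 ≤ m) (hnm : n ≤ m) :
    ∃ s : Obs (Fin m) → Str (Fin m), (∀ o, Safe ∅ (s o) o.2) ∧
      ∀ (ω : {ω // ω ∈ types m n}) (o : Obs (Fin m)), (model m n).V ω o.1 →
        ((model m n).inst ω).ob o.1 = o →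
        (lst o (play ((model m n).inst ω) (s o) o.1)).2 ⊆ ∅ ∧
        (Direct (model m n) ω →
          (play ((model m n).inst ω) (s o) o.1).length ≤ P₁ m n) ∧
        (∀ g N₀, 1 ≤ N₀ → Dp (model m n) N₀ g ω univ ∅ →
          (play ((model m n).inst ω) (s o) o.1).length ≤
            P₁ m n + 20 * (m + 1) ^ 2 * ((50 * m ^ 7) ^ g * N₀)) ∧
        (play ((model m n).inst ω) (s o) o.1).length ≤ P₁ m n + 5 * (m + 1) ^ 2 * Qp m := by
  classical
  obtain ⟨sd, hd1, hd2⟩ := directS (n := n) hm hnm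
  obtain ⟨sq', hq1, hq2⟩ := quasiS (n := n) hm hnm
  have hdeep : ∀ p : ℕ × ℕ, ∃ s : Obs (Fin m) → Str (Fin m),
      Fine (model m n) s ((50 * m ^ 7) ^ p.1 * 2 ^ p.2) ∧
      ∀ ω : {ω // ω ∈ types m n}, Dp (model m n) (2 ^ p.2) p.1 ω univ ∅ →
        Solves (model m n) s ω := fun p => deepS hm hnm p.1 (2 ^ p.2) Nat.one_le_two_pow
  choose sp hp1 hp2 using hdeep
  -- the number of stages
  have hQpos : 1 ≤ Qp m := by
    unfold Qp
    apply Nat.one_le_pow
    positivity
  set J := Nat.clog 2 (Qp m) with hJ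
  have hJ1 : Qp m ≤ 2 ^ J := Nat.le_pow_clog (by norm_num) _
  have hJ2 : 2 ^ J ≤ 2 * Qp m := by
    rcases Nat.eq_or_lt_of_le hQpos with h | h
    · rw [hJ, ← h]; simp
    · have h1 := Nat.pow_pred_clog_lt_self (b := 2) (by norm_num) h
      have h2 : 0 < Nat.clog 2 (Qp m) := Nat.clog_pos (by norm_num) h
      rw [← hJ] at h1 h2
      obtain ⟨j, hj⟩ : ∃ j, J = j + 1 := ⟨J - 1, by omega⟩
      rw [hj] at h1 ⊢
      rw [Nat.pred_succ] at h1
      rw [pow_succ]
      omega
  -- the list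
  set L : List (Obs (Fin m) → Str (Fin m)) := sd :: ((stg m J).map sp ++ [sq']) with hL
  -- Lengths for lists of the form `sd :: (l.map sp ++ t)`
  have hmapsafe : ∀ l : List (ℕ × ℕ), ∀ o : Obs (Fin m), ∀ ω,
      (model m n).V ω o.1 → ((model m n).inst ω).ob o.1 = o →
      (play ((model m n).inst ω) (chain (l.map sp) o) o.1).length ≤
        (l.map fun p => (50 * m ^ 7) ^ p.1 * 2 ^ p.2).sum := by
    intro l
    induction l with
    | nil => intro o ω _ _; simp [chain, play]
    | cons p l ih =>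
      intro o ω hV ho
      have e1 := play_comp ((model m n).inst ω) (sp p o)
        (fun l' => chain (l.map sp) (lst o l')) o.1
      rw [ho] at e1
      obtain ⟨a1, a2, a3⟩ := valid_lst (model m n) hV (empty_subset _) ho ((hp1 p).1 o)
      have h2 := ih _ ω a1 a3
      have h3 := (hp1 p).2 o ω hV ho
      rw [List.map_cons, chain_cons, e1, List.length_append, List.map_cons, List.sum_cons]
      omega
  -- a cost function for the list
  have hfine : ∀ s ∈ L, ∃ c, Fine (model m n) s c := by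
    intro s hs
    rw [hL, List.mem_cons, List.mem_append, List.mem_map, List.mem_singleton] at hs
    rcases hs with rfl | ⟨p, -, rfl⟩ | rfl
    · exact ⟨_, hd1⟩
    · exact ⟨_, hp1 p⟩
    · exact ⟨_, hq1⟩
  have hsafeL : ∀ (l : List (Obs (Fin m) → Str (Fin m))), (∀ s ∈ l, ∃ c, Fine (model m n) s c) →
      ∀ o, Safe ∅ (chain l o) o.2 := by
    intro l hl o
    choose! c hc using hl
    exact chain_safe (M := model m n) (c := c) hc o
  -- concatenation
  have happ : ∀ (l₁ l₂ : List (Obs (Fin m) → Str (Fin m))) (f : Inst (Fin m)) (o : Obs (Fin m)),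
      f.ob o.1 = o →
      play f (chain (l₁ ++ l₂) o) o.1 = play f (chain l₁ o) o.1 ++
        play f (chain l₂ (lst o (play f (chain l₁ o) o.1)))
          (lst o (play f (chain l₁ o) o.1)).1 := by
    intro l₁
    induction l₁ with
    | nil => intro l₂ f o ho; simp [chain, play, lst]
    | cons s l₁ ih =>
      intro l₂ f o ho
      have e1 := play_comp f (s o) (fun l' => chain (l₁ ++ l₂) (lst o l')) o.1
      have e2 := play_comp f (s o) (fun l' => chain l₁ (lst o l')) o.1
      rw [ho] at e1 e2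
      have ho' : f.ob (lst o (play f (s o) o.1)).1 = lst o (play f (s o) o.1) := by
        have := lst_ob f (s o) o.1
        rw [ho] at this
        exact this.symm
      have h3 := ih l₂ f (lst o (play f (s o) o.1)) ho'
      rw [List.cons_append, chain_cons, chain_cons, e1, e2, h3, lst_append, List.append_assoc]
  refine ⟨chain L, hsafeL L hfine, fun ω o hV ho => ?_⟩
  set f := (model m n).inst ω with hf
  have hvalid : ∀ (s : Obs (Fin m) → Str (Fin m)) (o : Obs (Fin m)), (model m n).V ω o.1 →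
      f.ob o.1 = o → Safe ∅ (s o) o.2 →
      (model m n).V ω (lst o (play f (s o) o.1)).1 ∧
        f.ob (lst o (play f (s o) o.1)).1 = lst o (play f (s o) o.1) := by
    intro s o hV ho hs
    obtain ⟨a1, -, a3⟩ := valid_lst (model m n) (t := s o) hV (empty_subset _) ho hs
    exact ⟨a1, a3⟩
  -- after the first strategy
  have hfd : (play f (sd o) o.1).length ≤ P₁ m n := hd1.2 o ω hV ho
  obtain ⟨v1, v2⟩ := hvalid sd o hV ho (hd1.1 o)
  set o₁ := lst o (play f (sd o) o.1) with ho₁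
  have hcons : ∀ l, play f (chain (sd :: l) o) o.1 =
      play f (sd o) o.1 ++ play f (chain l o₁) o₁.1 := by
    intro l
    have := play_comp f (sd o) (fun l' => chain l (lst o l')) o.1
    rw [ho] at this
    exact this
  -- the middle part
  have hmid : ∀ l : List (ℕ × ℕ), (∀ s ∈ l.map sp, ∃ c, Fine (model m n) s c) := by
    intro l s hs
    rw [List.mem_map] at hs
    obtain ⟨p, -, rfl⟩ := hs
    exact ⟨_, hp1 p⟩
  have hmapchain : ∀ l : List (ℕ × ℕ), (play f (chain (l.map sp) o₁) o₁.1).length ≤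
      (l.map fun p => (50 * m ^ 7) ^ p.1 * 2 ^ p.2).sum := fun l => hmapsafe l o₁ ω v1 v2
  obtain ⟨w1, w2⟩ := hvalid (chain ((stg m J).map sp)) o₁ v1 v2 (hsafeL _ (hmid _) o₁)
  set o₂ := lst o₁ (play f (chain ((stg m J).map sp) o₁) o₁.1) with ho₂
  have hfull : play f (chain L o) o.1 = play f (sd o) o.1 ++
      (play f (chain ((stg m J).map sp) o₁) o₁.1 ++ play f (chain [sq'] o₂) o₂.1) := by
    rw [hL, hcons, happ _ _ f o₁ v2]
  have hlast : play f (chain [sq'] o₂) o₂.1 = play f (sq' o₂) o₂.1 := by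
    have := play_comp f (sq' o₂) (fun l' => chain [] (lst o₂ l')) o₂.1
    rw [show chain [sq'] o₂ = comp (sq' o₂) (fun l' => chain [] (lst o₂ l')) from rfl, this]
    simp [chain, play]
  have hsum := (hmapchain (stg m J)).trans (sum_stg m J)
  have hlenq : (play f (sq' o₂) o₂.1).length ≤ Qp m := hq1.2 o₂ ω w1 w2
  have htotal : (play f (chain L o) o.1).length ≤ P₁ m n + 5 * (m + 1) ^ 2 * Qp m := by
    rw [hfull, hlast, List.length_append, List.length_append]
    have h1 : 2 * (m + 1) ^ 2 * 2 ^ J ≤ 2 * (m + 1) ^ 2 * (2 * Qp m) :=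
      Nat.mul_le_mul_left _ hJ2
    have h2 : Qp m ≤ (m + 1) ^ 2 * Qp m := Nat.le_mul_of_pos_left _ (by positivity)
    have h3 : 5 * (m + 1) ^ 2 * Qp m = 2 * (m + 1) ^ 2 * (2 * Qp m) + (m + 1) ^ 2 * Qp m := by
      ring
    omega
  refine ⟨?_, fun hD => ?_, ?_, htotal⟩
  · rw [hfull, lst_append, ← ho₁, lst_append, ← ho₂, hlast]
    exact hq2 ω o₂ w1 w2
  · have h1 := hd2 ω hD o hV ho
    rw [← ho₁, subset_empty] at h1
    have h2 := hsafeL ((stg m J).map sp ++ [sq']) (fun s hs => hfine s (by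
      rw [hL]; exact List.mem_cons_of_mem _ hs)) o₁
    rw [h1] at h2
    rw [hL, hcons, safe_empty h2]
    simp only [play, List.append_nil]
    exact hfd
  · -- relaxation depth
    have hpow : ∀ i, i ≤ m → ∀ g, Dp (model m n) (2 ^ i) g ω univ ∅ →
        (play f (chain L o) o.1).length ≤
          P₁ m n + 10 * (m + 1) ^ 2 * ((50 * m ^ 7) ^ g * 2 ^ i) := by
      intro i hi g hD
      set C := (50 * m ^ 7) ^ g * 2 ^ i with hC
      have hC1 : 1 ≤ C := by rw [hC]; exact Nat.one_le_iff_ne_zero.2 (by positivity)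
      set j := Nat.clog 2 C with hjdef
      have hj1 : C ≤ 2 ^ j := Nat.le_pow_clog (by norm_num) _
      have hj2 : 2 ^ j ≤ 2 * C := by
        rcases Nat.eq_or_lt_of_le hC1 with h | h
        · rw [hjdef, ← h]; simp
        · have h1 := Nat.pow_pred_clog_lt_self (b := 2) (by norm_num) h
          have h2 : 0 < Nat.clog 2 C := Nat.clog_pos (by norm_num) h
          rw [← hjdef] at h1 h2
          obtain ⟨j', hj'⟩ : ∃ j', j = j' + 1 := ⟨j - 1, by omega⟩
          rw [hj'] at h1 ⊢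
          rw [Nat.pred_succ] at h1
          rw [pow_succ]
          omega
      by_cases hg : g < 2 * (m + 1) ∧ j < J
      · obtain ⟨hg, hj⟩ := hg
        obtain ⟨l₁, l₂, hl, hs⟩ := split_stg (p := (g, i)) (mem_prs.2 ⟨⟨hg, by omega⟩, hj1⟩) hj
        have hs' : (l₁.map fun p => (50 * m ^ 7) ^ p.1 * 2 ^ p.2).sum + C ≤
          2 * (m + 1) ^ 2 * 2 ^ (j + 1) := hs
        -- the part before
        have hfl : ∀ s ∈ l₁.map sp, ∃ c, Fine (model m n) s c := hmid l₁
        obtain ⟨x1, x2⟩ := hvalid (chain (l₁.map sp)) o₁ v1 v2 (hsafeL _ hfl o₁)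
        set o₃ := lst o₁ (play f (chain (l₁.map sp) o₁) o₁.1) with ho₃
        have hsolve := hp2 (g, i) ω hD o₃ x1 x2
        have hlen3 : (play f (sp (g, i) o₃) o₃.1).length ≤ C := (hp1 (g, i)).2 o₃ ω x1 x2
        have hrest : play f (chain (sp (g, i) :: (l₂.map sp ++ [sq'])) o₃) o₃.1 =
            play f (sp (g, i) o₃) o₃.1 := by
          have e1 := play_comp f (sp (g, i) o₃)
            (fun l' => chain (l₂.map sp ++ [sq']) (lst o₃ l')) o₃.1
          rw [x2] at e1
          have e2 := hsafeL (l₂.map sp ++ [sq']) (fun s hs => by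
            rw [List.mem_append, List.mem_singleton] at hs
            rcases hs with hs | rfl
            · exact hmid l₂ s hs
            · exact ⟨_, hq1⟩) (lst o₃ (play f (sp (g, i) o₃) o₃.1))
          rw [subset_empty] at hsolve
          have hsolve' : (lst o₃ (play f (sp (g, i) o₃) o₃.1)).2 = ∅ := hsolve
          rw [hsolve'] at e2
          rw [chain_cons, e1, safe_empty e2]
          simp [play]
        have hLsplit : L = sd :: (l₁.map sp ++ (sp (g, i) :: (l₂.map sp ++ [sq']))) := by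
          rw [hL, hl]
          simp
        have h5 : (play f (chain L o) o.1).length ≤ P₁ m n +
            ((l₁.map fun p => (50 * m ^ 7) ^ p.1 * 2 ^ p.2).sum + C) := by
          rw [hLsplit, hcons, happ _ _ f o₁ v2, ← ho₃, hrest, List.length_append,
            List.length_append]
          have h6 := hmapchain l₁
          omega
        have h8 : 2 * (m + 1) ^ 2 * 2 ^ (j + 1) ≤ 10 * (m + 1) ^ 2 * C := by
          calc 2 * (m + 1) ^ 2 * 2 ^ (j + 1) = (m + 1) ^ 2 * 4 * 2 ^ j := by ring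
            _ ≤ (m + 1) ^ 2 * 4 * (2 * C) := Nat.mul_le_mul_left _ hj2
            _ = 8 * (m + 1) ^ 2 * C := by ring
            _ ≤ 10 * (m + 1) ^ 2 * C := Nat.mul_le_mul_right _ (by omega)
        omega
      · -- the general bound is good enough
        have hQC : Qp m ≤ 2 * C := by
          by_cases hg' : g < 2 * (m + 1)
          · have hj : J ≤ j := by
              by_contra hcon
              exact hg ⟨hg', by omega⟩
            exact hJ1.trans ((Nat.pow_le_pow_right (by norm_num) hj).trans hj2)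
          · have h1 : 2 * (Nat.log 2 m + 1) ≤ g := by
              have := Nat.log_lt_self 2 (show m ≠ 0 by omega)
              omega
            have h2 : 75 * m ^ 7 ≤ (50 * m ^ 7) ^ 2 := by
              have : 1 ≤ m ^ 7 := Nat.one_le_pow _ _ hm
              nlinarith
            have h3 : Qp m ≤ (50 * m ^ 7) ^ g := by
              unfold Qp
              calc (75 * m ^ 7) ^ (Nat.log 2 m + 1)
                  ≤ ((50 * m ^ 7) ^ 2) ^ (Nat.log 2 m + 1) := Nat.pow_le_pow_left h2 _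
                _ = (50 * m ^ 7) ^ (2 * (Nat.log 2 m + 1)) := by rw [← pow_mul]
                _ ≤ _ := Nat.pow_le_pow_right (by positivity) h1
            have h4 : (50 * m ^ 7) ^ g ≤ C := Nat.le_mul_of_pos_right _ (by positivity)
            omega
        refine htotal.trans (Nat.add_le_add_left ?_ _)
        calc 5 * (m + 1) ^ 2 * Qp m ≤ 5 * (m + 1) ^ 2 * (2 * C) := Nat.mul_le_mul_left _ hQC
          _ = 10 * (m + 1) ^ 2 * C := by ring
    intro g N₀ hN hD
    by_cases hN' : N₀ ≤ 2 ^ m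
    · have h1 : N₀ ≤ 2 ^ Nat.clog 2 N₀ := Nat.le_pow_clog (by norm_num) _
      have h2 : 2 ^ Nat.clog 2 N₀ ≤ 2 * N₀ := by
        rcases Nat.eq_or_lt_of_le hN with h | h
        · rw [← h]; simp
        · have h1 := Nat.pow_pred_clog_lt_self (b := 2) (by norm_num) h
          have h2 : 0 < Nat.clog 2 N₀ := Nat.clog_pos (by norm_num) h
          obtain ⟨j', hj'⟩ : ∃ j', Nat.clog 2 N₀ = j' + 1 := ⟨Nat.clog 2 N₀ - 1, by omega⟩
          rw [hj'] at h1 ⊢
          rw [Nat.pred_succ] at h1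
          rw [pow_succ]
          omega
      have h3 : Nat.clog 2 N₀ ≤ m := Nat.clog_le_of_le_pow hN'
      refine (hpow _ h3 g (hD.mono_N h1)).trans (Nat.add_le_add_left ?_ _)
      calc 10 * (m + 1) ^ 2 * ((50 * m ^ 7) ^ g * 2 ^ Nat.clog 2 N₀)
          ≤ 10 * (m + 1) ^ 2 * ((50 * m ^ 7) ^ g * (2 * N₀)) :=
            Nat.mul_le_mul_left _ (Nat.mul_le_mul_left _ h2)
        _ = 20 * (m + 1) ^ 2 * ((50 * m ^ 7) ^ g * N₀) := by ring
    · refine (hpow m le_rfl g (dp_all (by simp))).trans (Nat.add_le_add_left ?_ _)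
      push Not at hN'
      calc 10 * (m + 1) ^ 2 * ((50 * m ^ 7) ^ g * 2 ^ m)
          ≤ 10 * (m + 1) ^ 2 * ((50 * m ^ 7) ^ g * N₀) :=
            Nat.mul_le_mul_left _ (Nat.mul_le_mul_left _ hN'.le)
        _ ≤ 20 * (m + 1) ^ 2 * ((50 * m ^ 7) ^ g * N₀) := Nat.mul_le_mul_right _ (by omega)

end Pool.Agent.J4H23.Box
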